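import Pool.Agent.H907R3.Mon

set_option autoImplicit false

namespace Pool.Agent.H907R3

open MvPolynomial KaehlerDifferential

/-- the degree of a normal form monomial -/
def deg (i : Idx) : ℤ := ∑ k, i.1 k + ((i.2 : ℕ) : ℤ)

/-- the monomials with poles only along `x_k = 0`, `k ∈ I`, and with degree in `Γ` -/
def S (I : Finset (Fin 6)) (Γ : Set ℤ) : Set Idx := {i | (∀ k ∉ I, 0 ≤ i.1 k) ∧ deg i ∈ Γ}

/-- the space spanned by the monomials in `S I Γ` -/
noncomputable def V (I : Finset (Fin 6)) (Γ : Set ℤ) : Submodule ℂ K :=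
  Submodule.span ℂ (nf '' S I Γ)

lemma nf_mem {I : Finset (Fin 6)} {Γ : Set ℤ} {i : Idx} (h : i ∈ S I Γ) : nf i ∈ V I Γ :=
  Submodule.subset_span ⟨i, h, rfl⟩

lemma V_induction {I : Finset (Fin 6)} {Γ : Set ℤ} (p : K → Prop)
    (h1 : ∀ i ∈ S I Γ, p (nf i)) (h0 : p 0) (ha : ∀ f g, p f → p g → p (f + g))
    (hs : ∀ (c : ℂ) f, p f → p (c • f)) {f : K} (hf : f ∈ V I Γ) : p f := by
  induction hf using Submodule.span_induction with
  | mem x hx => obtain ⟨i, hi, rfl⟩ := hx; exact h1 i hi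
  | zero => exact h0
  | add x y _ _ hx hy => exact ha x y hx hy
  | smul a x _ hx => exact hs a x hx

lemma V_mono {I J : Finset (Fin 6)} {Γ Γ' : Set ℤ} (hI : I ⊆ J) (hΓ : Γ ⊆ Γ') :
    V I Γ ≤ V J Γ' := by
  apply Submodule.span_mono
  apply Set.image_mono
  rintro i ⟨h1, h2⟩
  exact ⟨fun k hk => h1 k fun h => hk (hI h), hΓ h2⟩

lemma mon_red (a : Fin 6 → ℤ) (e : ℕ) : mon a (e + 2) =
    -(mon (a + (Pi.single 0 1 + Pi.single 3 1)) e + mon (a + (Pi.single 1 1 + Pi.single 4 1)) e +
      mon (a + (Pi.single 2 1 + Pi.single 5 1)) e) := by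
  have h1 : mon a (e + 2) = mon a e * z ^ 2 := by
    simp only [mon, pow_add]
    ring
  have h2 : ∀ j k : Fin 6, mon (a + (Pi.single j 1 + Pi.single k 1)) e = mon a e * (x j * x k) := by
    intro j k
    have : x j * x k = mon (Pi.single j 1 + Pi.single k 1) 0 := by
      rw [← add_zero 0, ← mon_mul, mon_single, mon_single, zpow_one, zpow_one]
    rw [this, mon_mul, add_zero]
  rw [h1, h2, h2, h2, z_sq]
  ring

lemma mon_mem {I : Finset (Fin 6)} {Γ : Set ℤ} {a : Fin 6 → ℤ} {e : ℕ} (h1 : ∀ k ∉ I, 0 ≤ a k)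
    (h2 : ∑ k, a k + (e : ℤ) ∈ Γ) : mon a e ∈ V I Γ := by
  induction e using Nat.strong_induction_on generalizing a with
  | _ e ih =>
    rcases e with _ | _ | e
    · exact nf_mem (i := (a, 0)) ⟨h1, h2⟩
    · exact nf_mem (i := (a, 1)) ⟨h1, h2⟩
    · rw [mon_red]
      have key : ∀ j k : Fin 6, mon (a + (Pi.single j 1 + Pi.single k 1)) e ∈ V I Γ := by
        intro j k
        apply ih e (by omega)
        · intro l hl
          have h3 := h1 l hl
          have h4 : (0 : ℤ) ≤ (Pi.single j 1 : Fin 6 → ℤ) l := by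
            rw [Pi.single_apply]; split_ifs <;> norm_num
          have h5 : (0 : ℤ) ≤ (Pi.single k 1 : Fin 6 → ℤ) l := by
            rw [Pi.single_apply]; split_ifs <;> norm_num
          simp only [Pi.add_apply]
          linarith
        · simp only [Pi.add_apply, Finset.sum_add_distrib]
          have : ∀ j : Fin 6, ∑ l, (Pi.single j 1 : Fin 6 → ℤ) l = 1 := by
            intro j
            rw [Finset.sum_pi_single']
            simp
          rw [this, this]
          convert h2 using 1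
          push_cast
          ring
      exact Submodule.neg_mem _ (Submodule.add_mem _ (Submodule.add_mem _ (key _ _) (key _ _))
        (key _ _))

lemma V_mul {I J L : Finset (Fin 6)} {Γ Γ' Γ'' : Set ℤ} (hI : I ⊆ L) (hJ : J ⊆ L)
    (hΓ : ∀ a ∈ Γ, ∀ b ∈ Γ', a + b ∈ Γ'') {f g : K} (hf : f ∈ V I Γ) (hg : g ∈ V J Γ') :
    f * g ∈ V L Γ'' := by
  refine V_induction (fun f => f * g ∈ V L Γ'') ?_ ?_ ?_ ?_ hf
  · intro i hi
    refine V_induction (fun g => nf i * g ∈ V L Γ'') ?_ ?_ ?_ ?_ hg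
    · intro j hj
      rw [nf, nf, mon_mul]
      apply mon_mem
      · intro k hk
        exact add_nonneg (hi.1 k fun h => hk (hI h)) (hj.1 k fun h => hk (hJ h))
      · have := hΓ _ hi.2 _ hj.2
        simp only [deg] at this
        simp only [Pi.add_apply, Finset.sum_add_distrib]
        convert this using 1
        push_cast
        ring
    · rw [mul_zero]; exact Submodule.zero_mem _
    · intro f g hf hg
      rw [mul_add]
      exact Submodule.add_mem _ hf hg
    · intro c f hf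
      rw [mul_smul_comm]
      exact Submodule.smul_mem _ _ hf
  · rw [zero_mul]; exact Submodule.zero_mem _
  · intro f g hf hg
    rw [add_mul]
    exact Submodule.add_mem _ hf hg
  · intro c f hf
    rw [smul_mul_assoc]
    exact Submodule.smul_mem _ _ hf

lemma one_mem_V {I : Finset (Fin 6)} {Γ : Set ℤ} (h : (0 : ℤ) ∈ Γ) : (1 : K) ∈ V I Γ := by
  rw [← mon_zero]
  apply mon_mem
  · intro k _
    exact le_rfl
  · simpa using h

/-- the linear combinations of normal form monomials -/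
noncomputable def LC : (Idx →₀ ℂ) →ₗ[ℂ] K := Finsupp.linearCombination ℂ nf

lemma exists_coord : ∃ r : K →ₗ[ℂ] (Idx →₀ ℂ), r ∘ₗ LC = LinearMap.id :=
  LinearMap.exists_leftInverse_of_injective LC (LinearMap.ker_eq_bot.2 li_nf)

/-- coordinates -/
noncomputable def coord : K →ₗ[ℂ] (Idx →₀ ℂ) := exists_coord.choose

lemma coord_nf (i : Idx) : coord (nf i) = Finsupp.single i 1 := by
  have h := congrArg (fun f => f (Finsupp.single i 1)) exists_coord.choose_spec
  simp only [LinearMap.comp_apply, LC, Finsupp.linearCombination_single, one_smul,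
    LinearMap.id_apply] at h
  exact h

lemma mem_V_iff {I : Finset (Fin 6)} {Γ : Set ℤ} {f : K} :
    f ∈ V I Γ ↔ LC (coord f) = f ∧ ∀ i ∈ (coord f).support, i ∈ S I Γ := by
  constructor
  · intro hf
    refine ⟨?_, ?_⟩
    · refine V_induction (fun f => LC (coord f) = f) ?_ ?_ ?_ ?_ hf
      · intro i _
        rw [coord_nf, LC, Finsupp.linearCombination_single, one_smul]
      · simp
      · intro f g hf hg
        rw [map_add, map_add, hf, hg]
      · intro c f hf
        rw [map_smul, map_smul, hf]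
    · have : coord f ∈ Finsupp.supported ℂ ℂ (S I Γ) := by
        refine V_induction (fun f => coord f ∈ Finsupp.supported ℂ ℂ (S I Γ)) ?_ ?_ ?_ ?_ hf
        · intro i hi
          rw [coord_nf]
          exact Finsupp.single_mem_supported ℂ _ hi
        · simp
        · intro f g hf hg
          rw [map_add]
          exact Submodule.add_mem _ hf hg
        · intro c f hf
          rw [map_smul]
          exact Submodule.smul_mem _ _ hf
      intro i hi
      exact (Finsupp.mem_supported _ _).1 this hi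
  · rintro ⟨h1, h2⟩
    rw [← h1, LC, Finsupp.linearCombination_apply]
    exact Submodule.sum_mem _ fun i hi => Submodule.smul_mem _ _ (nf_mem (h2 i hi))

lemma V_inter {I J : Finset (Fin 6)} {Γ Γ' : Set ℤ} {f : K} (hf : f ∈ V I Γ) (hg : f ∈ V J Γ') :
    f ∈ V (I ∩ J) (Γ ∩ Γ') := by
  rw [mem_V_iff] at *
  refine ⟨hf.1, fun i hi => ⟨fun k hk => ?_, (hf.2 i hi).2, (hg.2 i hi).2⟩⟩
  by_cases hkI : k ∈ I
  · apply (hg.2 i hi).1 k
    intro hkJ
    exact hk (Finset.mem_inter.2 ⟨hkI, hkJ⟩)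
  · exact (hf.2 i hi).1 k hkI

open Classical in
/-- the projection on the span of the monomials in `T` -/
noncomputable def proj (T : Set Idx) : K →ₗ[ℂ] K :=
  LC ∘ₗ (Finsupp.lsum ℂ (fun i => if i ∈ T then Finsupp.lsingle i else 0)) ∘ₗ coord

open Classical in
lemma proj_nf (T : Set Idx) (i : Idx) : proj T (nf i) = if i ∈ T then nf i else 0 := by
  simp only [proj, LinearMap.comp_apply, coord_nf, Finsupp.lsum_single]
  split_ifs with h
  · rw [Finsupp.lsingle_apply, LC, Finsupp.linearCombination_single, one_smul]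
  · simp

lemma proj_eq_self {I : Finset (Fin 6)} {Γ : Set ℤ} {T : Set Idx} (h : S I Γ ⊆ T) {f : K}
    (hf : f ∈ V I Γ) : proj T f = f := by
  refine V_induction (fun f => proj T f = f) ?_ ?_ ?_ ?_ hf
  · intro i hi
    rw [proj_nf, if_pos (h hi)]
  · simp
  · intro f g hf hg
    rw [map_add, hf, hg]
  · intro c f hf
    rw [map_smul, hf]

lemma proj_eq_zero {I : Finset (Fin 6)} {Γ : Set ℤ} {T : Set Idx} (h : ∀ i ∈ S I Γ, i ∉ T) {f : K}
    (hf : f ∈ V I Γ) : proj T f = 0 := by
  refine V_induction (fun f => proj T f = 0) ?_ ?_ ?_ ?_ hf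
  · intro i hi
    rw [proj_nf, if_neg (h i hi)]
  · simp
  · intro f g hf hg
    rw [map_add, hf, hg, add_zero]
  · intro c f hf
    rw [map_smul, hf, smul_zero]

lemma proj_mem {I J : Finset (Fin 6)} {Γ Γ' : Set ℤ} {T : Set Idx}
    (h : ∀ i ∈ S I Γ, i ∈ T → i ∈ S J Γ') {f : K}
    (hf : f ∈ V I Γ) : proj T f ∈ V J Γ' := by
  refine V_induction (fun f => proj T f ∈ V J Γ') ?_ ?_ ?_ ?_ hf
  · intro i hi
    rw [proj_nf]
    split_ifs with hT
    · exact nf_mem (h i hi hT)
    · exact Submodule.zero_mem _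
  · simp
  · intro f g hf hg
    rw [map_add]
    exact Submodule.add_mem _ hf hg
  · intro c f hf
    rw [map_smul]
    exact Submodule.smul_mem _ _ hf

/-- projection on degree zero -/
noncomputable def pr : K →ₗ[ℂ] K := proj {i | deg i = 0}

lemma pr_zero_deg {I : Finset (Fin 6)} {f : K} (hf : f ∈ V I {0}) : pr f = f := by
  have h : S I {0} ⊆ {i | deg i = 0} := fun i hi => hi.2
  exact proj_eq_self h hf

lemma pr_pos {I : Finset (Fin 6)} {Γ : Set ℤ} (hΓ : (0 : ℤ) ∉ Γ) {f : K} (hf : f ∈ V I Γ) :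
    pr f = 0 := by
  have h : ∀ i ∈ S I Γ, i ∉ {i | deg i = 0} := by
    intro i hi h0
    apply hΓ
    rw [← (show deg i = 0 from h0)]
    exact hi.2
  exact proj_eq_zero h hf

lemma pr_mem {I : Finset (Fin 6)} {Γ : Set ℤ} {f : K} (hf : f ∈ V I Γ) : pr f ∈ V I {0} := by
  have h : ∀ i ∈ S I Γ, i ∈ {i | deg i = 0} → i ∈ S I {0} := fun i hi h0 => ⟨hi.1, h0⟩
  exact proj_mem h hf

lemma sub_pr_mem {I : Finset (Fin 6)} {Γ : Set ℤ} {f : K} (hf : f ∈ V I Γ) :
    f - pr f ∈ V I (Γ \ {0}) := by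
  refine V_induction (fun f => f - pr f ∈ V I (Γ \ {0})) ?_ ?_ ?_ ?_ hf
  · intro i hi
    rw [pr, proj_nf]
    split_ifs with hT
    · rw [sub_self]; exact Submodule.zero_mem _
    · rw [sub_zero]
      exact nf_mem ⟨hi.1, hi.2, hT⟩
  · simp
  · intro f g hf hg
    rw [map_add, add_sub_add_comm]
    exact Submodule.add_mem _ hf hg
  · intro c f hf
    rw [map_smul, ← smul_sub]
    exact Submodule.smul_mem _ _ hf

lemma pr_mul {I J : Finset (Fin 6)} {Γ Γ' : Set ℤ} (hΓ : ∀ d ∈ Γ, 0 ≤ d) (hΓ' : ∀ d ∈ Γ', 0 ≤ d)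
    {f g : K} (hf : f ∈ V I Γ) (hg : g ∈ V J Γ') : pr (f * g) = pr f * pr g := by
  have hf1 := pr_mem hf
  have hg1 := pr_mem hg
  have hf2 := sub_pr_mem hf
  have hg2 := sub_pr_mem hg
  have e : f * g = pr f * pr g + (pr f * (g - pr g) + (f - pr f) * g) := by ring
  have h1 : pr f * (g - pr g) + (f - pr f) * g ∈ V (I ∪ J) {d | 0 < d} := by
    apply Submodule.add_mem
    · apply V_mul Finset.subset_union_left Finset.subset_union_right _ hf1 hg2
      rintro a rfl b ⟨hb, hb0⟩
      have := hΓ' b hb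
      have h3 : b ≠ 0 := hb0
      change 0 < 0 + b
      omega
    · apply V_mul Finset.subset_union_left Finset.subset_union_right _ hf2 hg
      rintro a ⟨ha, ha0⟩ b hb
      have := hΓ' b hb
      have h3 : a ≠ 0 := ha0
      have h4 := hΓ a ha
      change 0 < a + b
      omega
  have h2 : pr f * pr g ∈ V (I ∪ J) {0} :=
    V_mul Finset.subset_union_left Finset.subset_union_right (by rintro a rfl b rfl; rfl) hf1 hg1
  rw [e, map_add, pr_zero_deg h2, pr_pos (by simp) h1, add_zero]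

end Pool.Agent.H907R3
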