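import Pool.Agent.H907R3.Defs
import Pool.Agent.H907R3.Vsp

set_option autoImplicit false

namespace Pool.Agent.H907R3

section Gen

variable {F : Type} [AddCommGroup F] {N : Type}

/-- the alternating sum of the faces -/
def dd {n : ℕ} (c : (Fin n → N) → F) : (Fin (n + 1) → N) → F :=
  fun k => ∑ j : Fin (n + 1), (-1 : ℤ) ^ (j : ℕ) • c (k ∘ j.succAbove)

/-- insertion of an index at the first place -/
def hh {n : ℕ} (j : N) (c : (Fin (n + 1) → N) → F) : (Fin n → N) → F :=
  fun k => c (Fin.cons j k)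

lemma cons_face_zero {n : ℕ} (j : N) (k : Fin n → N) :
    (Fin.cons j k : Fin (n + 1) → N) ∘ (0 : Fin (n + 1)).succAbove = k := by
  funext a
  simp

lemma cons_face_succ {n : ℕ} (j : N) (k : Fin (n + 1) → N) (a : Fin (n + 1)) :
    (Fin.cons j k : Fin (n + 2) → N) ∘ a.succ.succAbove = Fin.cons j (k ∘ a.succAbove) := by
  funext b
  refine Fin.cases ?_ (fun b => ?_) b
  · simp
  · simp [Fin.succ_succAbove_succ]

lemma hh_dd {n : ℕ} (j : N) (c : (Fin (n + 1) → N) → F) (k : Fin (n + 1) → N) :
    hh j (dd c) k = c k - dd (hh j c) k := by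
  simp only [hh, dd]
  rw [Fin.sum_univ_succ, cons_face_zero]
  simp only [Fin.val_zero, pow_zero, one_smul, sub_eq_add_neg, ← Finset.sum_neg_distrib]
  congr 1
  refine Finset.sum_congr rfl fun a _ => ?_
  rw [cons_face_succ, Fin.val_succ, pow_succ]
  simp

lemma dd_add {n : ℕ} (c c' : (Fin n → N) → F) : dd (c + c') = dd c + dd c' := by
  funext k
  simp only [dd, Pi.add_apply, smul_add, Finset.sum_add_distrib]

lemma dd_sub {n : ℕ} (c c' : (Fin n → N) → F) : dd (c - c') = dd c - dd c' := by
  funext k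
  simp only [dd, Pi.sub_apply, smul_sub, Finset.sum_sub_distrib]

lemma dd_map {F' : Type} [AddCommGroup F'] (f : F →+ F') {n : ℕ} (c : (Fin n → N) → F) :
    dd (fun k => f (c k)) = fun k => f (dd c k) := by
  funext k
  simp only [dd, map_sum, map_zsmul]

lemma dd_dd {n : ℕ} (c : (Fin n → N) → F) : dd (dd c) = 0 := by
  induction n with
  | zero =>
    funext k
    simp only [dd, Fin.sum_univ_succ, Fin.sum_univ_zero, Pi.zero_apply]
    have h : ∀ k k' : Fin 0 → N, c k = c k' := fun k k' => congrArg c (Subsingleton.elim _ _)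
    simp only [h _ (fun a => Fin.elim0 a)]
    simp
  | succ n ih =>
    funext k
    have h1 : ∀ j : N, hh j (dd (dd c)) = 0 := by
      intro j
      have h2 : hh j (dd c) = c - dd (hh j c) := by
        funext k'
        exact hh_dd j c k'
      funext k'
      rw [hh_dd, h2, dd_sub, ih (hh j c)]
      simp
    have h3 := congrFun (h1 (k 0)) (Fin.tail k)
    simp only [hh, Fin.cons_self_tail] at h3
    exact h3

variable [DecidableEq N]

lemma img_cons {n : ℕ} (j : N) (k : Fin n → N) : img (Fin.cons j k : Fin (n + 1) → N) =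
    insert j (img k) := by
  ext a
  simp only [img, Finset.mem_image, Finset.mem_univ, true_and, Finset.mem_insert]
  constructor
  · rintro ⟨b, rfl⟩
    refine Fin.cases ?_ (fun b => ?_) b
    · exact Or.inl (by simp)
    · exact Or.inr ⟨b, by simp⟩
  · rintro (rfl | ⟨b, rfl⟩)
    · exact ⟨0, by simp⟩
    · exact ⟨b.succ, by simp⟩

lemma mem_img {n : ℕ} (k : Fin n → N) (a : Fin n) : k a ∈ img k :=
  Finset.mem_image_of_mem _ (Finset.mem_univ a)

lemma img_nonempty {n : ℕ} (k : Fin (n + 1) → N) : (img k).Nonempty := ⟨_, mem_img k 0⟩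

/-- exactness of the complex of cochains with values in subgroups of a fixed group -/
def HV (W : Finset N → AddSubgroup F) (n : ℕ) : Prop :=
  ∀ c : (Fin (n + 1) → N) → F, (∀ k, c k ∈ W (img k)) → dd c = 0 →
    ∃ b : (Fin n → N) → F, (∀ k, b k ∈ W (img k)) ∧ dd b = c

/-- a set of operators that gives a contraction -/
lemma HV_of_contraction [Fintype N] (W : Finset N → AddSubgroup F) (π : N → F →+ F)
    (h1 : ∀ j I, ∀ f ∈ W (insert j I), π j f ∈ W I)
    (h2 : ∀ I, ∀ f ∈ W I, ∑ j, π j f = f) (n : ℕ) : HV W n := by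
  intro c hc hdc
  refine ⟨fun k => ∑ j, π j (hh j c k), fun k => ?_, ?_⟩
  · refine AddSubgroup.sum_mem _ fun j _ => h1 j _ _ ?_
    rw [← img_cons]
    exact hc _
  · funext k
    have e : dd (fun k => ∑ j, π j (hh j c k)) k = ∑ j, π j (dd (hh j c) k) := by
      simp only [dd, map_sum, map_zsmul]
      rw [Finset.sum_comm]
      refine Finset.sum_congr rfl fun a _ => ?_
      rw [Finset.smul_sum]
    rw [e]
    have e2 : ∀ j, dd (hh j c) k = c k := by
      intro j
      have := hh_dd j c k
      rw [hdc] at this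
      have h0 : hh j (0 : (Fin (n + 1 + 1) → N) → F) k = 0 := rfl
      rw [h0] at this
      exact (sub_eq_zero.1 this.symm).symm
    simp only [e2]
    exact h2 _ _ (hc k)

lemma HV_ses {F' : Type} [AddCommGroup F'] (f : F →+ F') (T Z : Finset N → AddSubgroup F)
    (W : Finset N → AddSubgroup F') (hTmono : ∀ {I J : Finset N}, I ⊆ J → T I ≤ T J)
    (hZ : ∀ I : Finset N, I.Nonempty → ∀ t, t ∈ Z I ↔ t ∈ T I ∧ f t = 0)
    (hW : ∀ I, ∀ t ∈ T I, f t ∈ W I)
    (hW' : ∀ I : Finset N, I.Nonempty → ∀ w ∈ W I, ∃ t ∈ T I, f t = w) (n : ℕ)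
    (hT : HV T n) (hZ' : HV Z (n + 1)) : HV W n := by
  intro c hc hdc
  choose c' hc' hfc' using fun k => hW' _ (img_nonempty k) (c k) (hc k)
  have hd : ∀ k, dd c' k ∈ Z (img k) := by
    intro k
    rw [hZ _ (img_nonempty k)]
    constructor
    · exact AddSubgroup.sum_mem _ fun j _ =>
        AddSubgroup.zsmul_mem _ (hTmono (img_face k j) (hc' _)) _
    · have h1 := congrFun (dd_map f c') k
      rw [← h1]
      have h2 : (fun k => f (c' k)) = c := funext hfc'
      rw [h2, hdc]
      rfl
  obtain ⟨e, he, hde⟩ := hZ' (dd c') hd (dd_dd c')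
  have he' : ∀ k, e k ∈ T (img k) ∧ f (e k) = 0 := fun k => (hZ _ (img_nonempty k) _).1 (he k)
  obtain ⟨b, hb, hdb⟩ := hT (c' - e) (fun k => AddSubgroup.sub_mem _ (hc' k) (he' k).1)
    (by rw [dd_sub, hde, sub_self])
  refine ⟨fun k => f (b k), fun k => hW _ _ (hb k), ?_⟩
  rw [dd_map, hdb]
  funext k
  simp only [Pi.sub_apply, map_sub, hfc', (he' k).2, sub_zero]

end Gen

section LemmaA

variable {N : Type} [DecidableEq N]

/-- a cubical diagram with a direction in which the maps are bijective is exact -/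
lemma augmentedExact_of_bijective (M : Finset N → Type) [∀ α, AddCommGroup (M α)]
    (φ : ∀ {α β : Finset N}, α ⊆ β → M α →+ M β)
    (φ_comp : ∀ {α β γ : Finset N} (h₁ : α ⊆ β) (h₂ : β ⊆ γ) (m : M α),
      φ h₂ (φ h₁ m) = φ (h₁.trans h₂) m)
    (j : N) (hj : ∀ {α β : Finset N} (h : α ⊆ β), β ⊆ insert j α → Function.Bijective (φ h)) :
    AugmentedExact M φ := by
  have hsub : ∀ {n : ℕ} (k : Fin n → N), img k ⊆ img (Fin.cons j k : Fin (n + 1) → N) := by
    intro n k
    rw [img_cons]
    exact Finset.subset_insert _ _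
  have hbij : ∀ {n : ℕ} (k : Fin n → N), Function.Bijective (φ (hsub k)) := fun k =>
    hj (hsub k) (by rw [img_cons])
  have congr_c : ∀ {n : ℕ} (c : ∀ k : Fin n → N, M (img k)) (k k' : Fin n → N) (β : Finset N)
      (_ : k = k') (h : img k ⊆ β) (h' : img k' ⊆ β), φ h (c k) = φ h' (c k') := by
    intro n c k k' β e h h'
    subst e
    rfl
  have hid : ∀ {α : Finset N} (h : α ⊆ α) (m : M α), φ h m = m := by
    intro α h m
    have := (hj h (Finset.subset_insert _ _)).1
    apply this
    exact φ_comp h h m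
  -- the cocycle condition at `cons j k`
  have key0 : ∀ (c : ∀ k : Fin 0 → N, M (img k)), coboundary M φ c = 0 →
      ∀ k : Fin 0 → N, φ (hsub k) (c k) = 0 := by
    intro c hc k
    have h1 := congrFun hc (Fin.cons j k)
    simp only [coboundary, Fin.sum_univ_succ, Fin.sum_univ_zero, Fin.val_zero, pow_zero, one_smul,
      add_zero, Pi.zero_apply] at h1
    rw [← h1]
    exact congr_c c _ _ _ (cons_face_zero j k).symm _ _
  have key : ∀ {n : ℕ} (c : ∀ k : Fin (n + 1) → N, M (img k)), coboundary M φ c = 0 →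
      ∀ k : Fin (n + 1) → N, φ (hsub k) (c k) = ∑ a : Fin (n + 1), (-1 : ℤ) ^ (a : ℕ) •
        φ (by rw [img_cons, img_cons]; exact Finset.insert_subset_insert _ (img_face k a))
          (c (Fin.cons j (k ∘ a.succAbove))) := by
    intro n c hc k
    have h1 := congrFun hc (Fin.cons j k)
    simp only [coboundary, Pi.zero_apply] at h1
    rw [Fin.sum_univ_succ] at h1
    simp only [Fin.val_zero, pow_zero, one_smul] at h1
    rw [congr_c c _ _ _ (cons_face_zero j k) _ (hsub k)] at h1
    rw [add_eq_zero_iff_eq_neg] at h1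
    rw [h1, ← Finset.sum_neg_distrib]
    refine Finset.sum_congr rfl fun a _ => ?_
    rw [Fin.val_succ, pow_succ]
    rw [congr_c c _ _ _ (cons_face_succ j k a) _
      (by rw [img_cons, img_cons]; exact Finset.insert_subset_insert _ (img_face k a))]
    simp
  constructor
  · intro c hc
    funext k
    apply (hbij k).1
    rw [key0 c hc k]
    simp
  · intro i c hc
    choose b hb using fun k : Fin i → N => (hbij k).2 (c (Fin.cons j k))
    refine ⟨b, ?_⟩
    funext k
    apply (hbij k).1
    rw [key c hc k]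
    simp only [coboundary, map_sum, map_zsmul]
    refine Finset.sum_congr rfl fun a _ => ?_
    congr 1
    rw [φ_comp, ← hb (k ∘ a.succAbove), φ_comp]

end LemmaA

end Pool.Agent.H907R3
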