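import Pool.Agent.H907R3.Koszul

set_option autoImplicit false

namespace Pool.Agent.H907R3

open MvPolynomial KaehlerDifferential

/-- the degrees `0, 3, 6, …` -/
def G0 : Set ℤ := {d | 0 ≤ d ∧ (3 : ℤ) ∣ d}

/-- the degrees `3, 6, 9, …` -/
def Gp : Set ℤ := {d | 0 < d ∧ (3 : ℤ) ∣ d}

lemma G0_add : ∀ a ∈ G0, ∀ b ∈ G0, a + b ∈ G0 :=
  fun _ ha _ hb => ⟨add_nonneg ha.1 hb.1, dvd_add ha.2 hb.2⟩

lemma zero_mem_G0 : (0 : ℤ) ∈ G0 := ⟨le_rfl, dvd_zero _⟩

lemma zero_sub_G0 : ({0} : Set ℤ) ⊆ G0 := by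
  rintro _ rfl
  exact zero_mem_G0

/-- the coordinate ring of the chart `I` -/
noncomputable def U (I : Finset (Fin 6)) : Subalgebra ℂ K where
  carrier := V I G0
  mul_mem' ha hb := V_mul (Finset.Subset.refl I) (Finset.Subset.refl I) G0_add ha hb
  add_mem' ha hb := Submodule.add_mem _ ha hb
  algebraMap_mem' r := by
    rw [Algebra.algebraMap_eq_smul_one]
    exact Submodule.smul_mem _ _ (one_mem_V zero_mem_G0)

/-- the coordinate ring of the chart `I` of the exceptional divisor -/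
noncomputable def E (I : Finset (Fin 6)) : Subalgebra ℂ K where
  carrier := V I {0}
  mul_mem' ha hb := V_mul (Finset.Subset.refl I) (Finset.Subset.refl I)
    (by rintro a rfl b rfl; rfl) ha hb
  add_mem' ha hb := Submodule.add_mem _ ha hb
  algebraMap_mem' r := by
    rw [Algebra.algebraMap_eq_smul_one]
    exact Submodule.smul_mem _ _ (one_mem_V rfl)

lemma mem_U {I : Finset (Fin 6)} {f : K} : f ∈ U I ↔ f ∈ V I G0 := Iff.rfl

lemma mem_E {I : Finset (Fin 6)} {f : K} : f ∈ E I ↔ f ∈ V I {0} := Iff.rfl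

lemma E_le_U (I : Finset (Fin 6)) : E I ≤ U I := by
  intro f hf
  exact V_mono (Finset.Subset.refl I) zero_sub_G0 hf

lemma div_mem {I : Finset (Fin 6)} {i : Fin 6} (hi : i ∈ I) (j : Fin 6) :
    x j / x i ∈ V I {0} := by
  rw [div_eq_mul_inv]
  exact V_mul (Finset.empty_subset I) (Finset.Subset.refl I)
    (by rintro a rfl b rfl; rfl) (x_mem j) (x_inv_mem hi)

lemma zdiv_mem {I : Finset (Fin 6)} {i : Fin 6} (hi : i ∈ I) : z / x i ∈ V I {0} := by
  rw [div_eq_mul_inv]
  exact V_mul (Finset.empty_subset I) (Finset.Subset.refl I)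
    (by rintro a rfl b rfl; rfl) z_mem (x_inv_mem hi)

lemma cube_mem (i : Fin 6) : x i ^ 3 ∈ V ∅ {3} := by
  have h : x i ^ 3 = mon (Pi.single i 3) 0 := by
    rw [mon_single]
    rfl
  rw [h]
  apply mon_mem
  · intro l _
    rw [Pi.single_apply]
    split_ifs <;> norm_num
  · rw [Finset.sum_pi_single']
    simp

lemma tau6_mem {I : Finset (Fin 6)} {i : Fin 6} (hi : i ∈ I) (j : Fin 6) : tau6 i j ∈ U I := by
  rw [mem_U, tau6]
  split_ifs
  · exact V_mono (Finset.empty_subset I)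
      (by rintro _ rfl; exact ⟨by norm_num, dvd_refl _⟩) (cube_mem i)
  · exact V_mono (Finset.Subset.refl I) zero_sub_G0 (zdiv_mem hi)
  · exact V_mono (Finset.Subset.refl I) zero_sub_G0 (div_mem hi j)

/-- the coordinates of the chart -/
noncomputable def cm {I : Finset (Fin 6)} {i : Fin 6} (hi : i ∈ I) : MP →ₐ[ℂ] U I :=
  aeval (fun j => (⟨tau6 i j, tau6_mem hi j⟩ : U I))

lemma cm_val {I : Finset (Fin 6)} {i : Fin 6} (hi : i ∈ I) (p : MP) :
    ((cm hi p : U I) : K) = aeval (tau6 i) p := by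
  have h : (U I).val.comp (cm hi) = aeval (tau6 i) := by
    apply MvPolynomial.algHom_ext
    intro j
    simp [cm]
  exact congrArg (fun f => f p) h

/-- polynomials that represent `x_j / x_i` -/
noncomputable def tp (i j : Fin 6) : MP :=
  if j = i then 1
  else if j = par i then
    -(X (par i) ^ 2 + ∑ l ∈ (({0, 1, 2} : Finset (Fin 6)).filter fun l => l ≠ i ∧ l ≠ par i),
      X l * X (par l))
  else X j

lemma pair_eq (i : Fin 6) : x i * x (par i) = -(z ^ 2 +
    ∑ l ∈ (({0, 1, 2} : Finset (Fin 6)).filter fun l => l ≠ i ∧ l ≠ par i), x l * x (par l)) := by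
  have h := z_sq
  fin_cases i
  · have e : (({0, 1, 2} : Finset (Fin 6)).filter fun l => l ≠ 0 ∧ l ≠ par 0) = {1, 2} := by
      decide
    simp only [Fin.zero_eta, Fin.isValue]
    rw [e, Finset.sum_pair (by decide)]
    change x 0 * x 3 = -(z ^ 2 + (x 1 * x 4 + x 2 * x 5))
    linear_combination h
  · have e : (({0, 1, 2} : Finset (Fin 6)).filter fun l => l ≠ 1 ∧ l ≠ par 1) = {0, 2} := by
      decide
    simp only [Fin.mk_one, Fin.isValue]
    rw [e, Finset.sum_pair (by decide)]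
    change x 1 * x 4 = -(z ^ 2 + (x 0 * x 3 + x 2 * x 5))
    linear_combination h
  · have e : (({0, 1, 2} : Finset (Fin 6)).filter fun l => l ≠ 2 ∧ l ≠ par 2) = {0, 1} := by
      decide
    simp only [Fin.reduceFinMk, Fin.isValue]
    rw [e, Finset.sum_pair (by decide)]
    change x 2 * x 5 = -(z ^ 2 + (x 0 * x 3 + x 1 * x 4))
    linear_combination h
  · have e : (({0, 1, 2} : Finset (Fin 6)).filter fun l => l ≠ 3 ∧ l ≠ par 3) = {1, 2} := by
      decide
    simp only [Fin.reduceFinMk, Fin.isValue]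
    rw [e, Finset.sum_pair (by decide)]
    change x 3 * x 0 = -(z ^ 2 + (x 1 * x 4 + x 2 * x 5))
    linear_combination h
  · have e : (({0, 1, 2} : Finset (Fin 6)).filter fun l => l ≠ 4 ∧ l ≠ par 4) = {0, 2} := by
      decide
    simp only [Fin.reduceFinMk, Fin.isValue]
    rw [e, Finset.sum_pair (by decide)]
    change x 4 * x 1 = -(z ^ 2 + (x 0 * x 3 + x 2 * x 5))
    linear_combination h
  · have e : (({0, 1, 2} : Finset (Fin 6)).filter fun l => l ≠ 5 ∧ l ≠ par 5) = {0, 1} := by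
      decide
    simp only [Fin.reduceFinMk, Fin.isValue]
    rw [e, Finset.sum_pair (by decide)]
    change x 5 * x 2 = -(z ^ 2 + (x 0 * x 3 + x 1 * x 4))
    linear_combination h

lemma par_eq_iff (i l : Fin 6) : par l = i ↔ l = par i := by
  constructor
  · rintro rfl; rw [par_par]
  · rintro rfl; rw [par_par]

lemma tau6_self (i : Fin 6) : tau6 i i = x i ^ 3 := if_pos rfl

lemma tau6_par (i : Fin 6) : tau6 i (par i) = z / x i := by
  rw [tau6, if_neg (par_ne i), if_pos rfl]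

lemma tau6_ne {i j : Fin 6} (h1 : j ≠ i) (h2 : j ≠ par i) : tau6 i j = x j / x i := by
  rw [tau6, if_neg h1, if_neg h2]

lemma aeval_tp (i j : Fin 6) : aeval (tau6 i) (tp i j) = x j / x i := by
  have hi := x_ne i
  rw [tp]
  split_ifs with h1 h2
  · subst h1
    rw [map_one, div_self hi]
  · subst h2
    simp only [map_neg, map_add, map_pow, map_sum, map_mul, aeval_X, tau6_par]
    have e : ∑ l ∈ (({0, 1, 2} : Finset (Fin 6)).filter fun l => l ≠ i ∧ l ≠ par i),
        tau6 i l * tau6 i (par l) =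
        (∑ l ∈ (({0, 1, 2} : Finset (Fin 6)).filter fun l => l ≠ i ∧ l ≠ par i),
          x l * x (par l)) / x i ^ 2 := by
      rw [Finset.sum_div]
      refine Finset.sum_congr rfl fun l hl => ?_
      rw [Finset.mem_filter] at hl
      rw [tau6_ne hl.2.1 hl.2.2, tau6_ne (fun h => hl.2.2 ((par_eq_iff _ _).1 h)) (fun h =>
        hl.2.1 (by rw [← par_par l, h, par_par]))]
      field_simp
    rw [e]
    have h := pair_eq i
    have e2 : x (par i) = (x i * x (par i)) / x i := by field_simp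
    rw [e2, h]
    field_simp
  · rw [aeval_X, tau6_ne h1 h2]

/-- the function that is inverted on the chart `I` -/
noncomputable def sI (i : Fin 6) (I : Finset (Fin 6)) : MP := ∏ j ∈ I, tp i j

lemma aeval_sI (i : Fin 6) (I : Finset (Fin 6)) :
    aeval (tau6 i) (sI i I) = ∏ j ∈ I, (x j / x i) := by
  rw [sI, map_prod]
  exact Finset.prod_congr rfl fun j _ => aeval_tp i j

lemma prod_zpow_sum {c : K} (hc : c ≠ 0) (s : Finset (Fin 6)) (a : Fin 6 → ℤ) :
    ∏ k ∈ s, c ^ (a k) = c ^ (∑ k ∈ s, a k) := by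
  induction s using Finset.induction_on with
  | empty => simp
  | insert b s hb ih => rw [Finset.prod_insert hb, Finset.sum_insert hb, ih, zpow_add₀ hc]

lemma surj_chart (i : Fin 6) (I : Finset (Fin 6)) {u : K} (hu : u ∈ V I G0) :
    ∃ (n : ℕ) (p : MP), u * aeval (tau6 i) (sI i I) ^ n = aeval (tau6 i) p := by
  refine V_induction (fun u => ∃ (n : ℕ) (p : MP), u * aeval (tau6 i) (sI i I) ^ n =
    aeval (tau6 i) p) ?_ ?_ ?_ ?_ hu
  · rintro ⟨a, e⟩ ⟨h1, h2, m, h3⟩
    have hxi := x_ne i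
    simp only [deg] at h2 h3 h1
    obtain ⟨M, hM⟩ : ∃ M : ℕ, m = M := ⟨m.toNat, by omega⟩
    let n : ℕ := ∑ k, (a k).natAbs
    have hn : ∀ k, 0 ≤ a k + if k ∈ I then (n : ℤ) else 0 := by
      intro k
      split_ifs with hk
      · have : (a k).natAbs ≤ n :=
          Finset.single_le_sum (f := fun k => (a k).natAbs) (fun _ _ => Nat.zero_le _)
            (Finset.mem_univ k)
        omega
      · have := h1 k hk
        omega
    refine ⟨n, (∏ k, tp i k ^ (a k + if k ∈ I then (n : ℤ) else 0).toNat) *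
      X (par i) ^ (e : ℕ) * X i ^ M, ?_⟩
    simp only [map_mul, map_prod, map_pow, aeval_tp, aeval_X, tau6_par, tau6_self, aeval_sI]
    have e1 : ∀ k, (x k / x i) ^ (a k + if k ∈ I then (n : ℤ) else 0).toNat =
        x k ^ a k * ((x i)⁻¹ ^ a k * if k ∈ I then (x k / x i) ^ n else 1) := by
      intro k
      rw [← zpow_natCast, Int.toNat_of_nonneg (hn k),
        zpow_add₀ (div_ne_zero (x_ne k) hxi), div_eq_mul_inv, mul_zpow, mul_assoc]
      congr 2
      split_ifs
      · rw [zpow_natCast]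
      · rw [zpow_zero]
    simp only [e1, Finset.prod_mul_distrib]
    rw [prod_zpow_sum (inv_ne_zero hxi), Finset.prod_ite_mem, Finset.univ_inter,
      Finset.prod_pow, nf, mon]
    have e2 : (x i)⁻¹ ^ (∑ k, a k) * ((z / x i) ^ (e : ℕ) * (x i ^ 3) ^ M) = z ^ (e : ℕ) := by
      rw [div_pow, ← pow_mul, inv_zpow', ← zpow_natCast (x i), ← zpow_natCast (x i)]
      have e3 : -(∑ k, a k) + ((3 * M : ℕ) : ℤ) = ((e : ℕ) : ℤ) := by
        push_cast
        rw [← hM, ← h3]
        ring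
      have e4 : x i ^ (-(∑ k, a k)) * x i ^ ((3 * M : ℕ) : ℤ) = x i ^ ((e : ℕ) : ℤ) := by
        rw [← zpow_add₀ hxi, e3]
      have e5 : x i ^ ((e : ℕ) : ℤ) ≠ 0 := zpow_ne_zero _ hxi
      field_simp
      linear_combination (z ^ (e : ℕ)) * e4
    simp only [← e2]
    ring
  · exact ⟨0, 0, by simp⟩
  · rintro f g ⟨n, p, hp⟩ ⟨m, q, hq⟩
    refine ⟨n + m, p * sI i I ^ m + q * sI i I ^ n, ?_⟩
    rw [map_add, map_mul, map_mul, ← hp, ← hq, map_pow, map_pow]
    ring
  · rintro c f ⟨n, p, hp⟩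
    refine ⟨n, c • p, ?_⟩
    rw [map_smul, ← hp, smul_mul_assoc]

/-- the chart is a localization of the polynomial ring -/
lemma chart_loc {I : Finset (Fin 6)} {i : Fin 6} (hi : i ∈ I) :
    letI : Algebra MP (U I) := (cm hi).toRingHom.toAlgebra
    IsLocalization.Away (sI i I) (U I) := by
  let _ : Algebra MP (U I) := (cm hi).toRingHom.toAlgebra
  have halg : ∀ p : MP, ((algebraMap MP (U I) p : U I) : K) = aeval (tau6 i) p := cm_val hi
  refine (isLocalization_iff (Submonoid.powers (sI i I)) (U I)).2 ⟨?_, ?_, ?_⟩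
  · rintro ⟨_, n, rfl⟩
    have hmem : (∏ j ∈ I, (x i / x j)) ∈ U I := Subalgebra.prod_mem _ fun j hj =>
      E_le_U I (div_mem hj i)
    have hu : IsUnit (algebraMap MP (U I) (sI i I)) := by
      refine IsUnit.of_mul_eq_one ⟨_, hmem⟩ (Subtype.ext ?_)
      simp only [MulMemClass.coe_mul, OneMemClass.coe_one, halg, aeval_sI]
      rw [← Finset.prod_mul_distrib]
      apply Finset.prod_eq_one
      intro j _
      have h1 := x_ne i
      have h2 := x_ne j
      field_simp
    simp only [map_pow]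
    exact hu.pow n
  · intro u
    obtain ⟨n, p, h⟩ := surj_chart i I (mem_U.1 u.2)
    refine ⟨(p, ⟨sI i I ^ n, n, rfl⟩), Subtype.ext ?_⟩
    simp only [MulMemClass.coe_mul, SubmonoidClass.coe_pow, halg, map_pow]
    exact h
  · intro p q h
    refine ⟨1, ?_⟩
    have h1 : aeval (tau6 i) p = aeval (tau6 i) q := by
      rw [← halg, ← halg, h]
    have h2 : Function.Injective (aeval (tau6 i) : MP →ₐ[ℂ] K) := algInd_tau i
    rw [h2 h1]

lemma smooth_U {I : Finset (Fin 6)} (hI : I.Nonempty) : Algebra.Smooth ℂ (U I) := by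
  obtain ⟨i, hi⟩ := hI
  let _ : Algebra MP (U I) := (cm hi).toRingHom.toAlgebra
  haveI : IsScalarTower ℂ MP (U I) := IsScalarTower.of_algebraMap_eq fun c =>
    ((cm hi).commutes c).symm
  haveI := chart_loc hi
  haveI : Algebra.Smooth MP (U I) := Algebra.Smooth.of_isLocalization_Away (sI i I)
  haveI : Algebra.Smooth ℂ MP := ⟨inferInstance, inferInstance⟩
  exact Algebra.Smooth.comp ℂ MP (U I)

lemma basis_U {I : Finset (Fin 6)} {i : Fin 6} (hi : i ∈ I) :
    ∃ b : Module.Basis (Fin 6) (U I) Ω[(U I)⁄ℂ],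
      ∀ j, b j = D ℂ (U I) ⟨tau6 i j, tau6_mem hi j⟩ := by
  let _ : Algebra MP (U I) := (cm hi).toRingHom.toAlgebra
  haveI : IsScalarTower ℂ MP (U I) := IsScalarTower.of_algebraMap_eq fun c =>
    ((cm hi).commutes c).symm
  haveI := chart_loc hi
  refine ⟨(mvPolynomialBasis ℂ (Fin 6)).ofIsLocalizedModule (U I) (Submonoid.powers (sI i I))
    (KaehlerDifferential.map ℂ ℂ MP (U I)), fun j => ?_⟩
  rw [Module.Basis.ofIsLocalizedModule_apply, mvPolynomialBasis_apply, KaehlerDifferential.map_D]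
  congr 1
  change cm hi (X j) = _
  rw [cm, aeval_X]

end Pool.Agent.H907R3
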