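import Pool.Agent.H907R3.Defs

set_option autoImplicit false

namespace Pool.Agent.H907R3

open KaehlerDifferential

section

variable {A B C : Type} [CommRing A] [CommRing B] [CommRing C] [Algebra ℂ A] [Algebra ℂ B]
  [Algebra ℂ C]

/-- construction of the pull-back of differential forms -/
noncomputable def fM (p : ℕ) (f : A →ₐ[ℂ] B) :
    (⋀[A]^p Ω[A⁄ℂ]) →+ (⋀[B]^p Ω[B⁄ℂ]) :=
  letI : Algebra A B := f.toRingHom.toAlgebra
  haveI : IsScalarTower ℂ A B := IsScalarTower.of_algebraMap_eq fun c => (f.commutes c).symm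
  (formLin A B p).toAddMonoidHom

/-- the form `dg₁ ∧ ⋯ ∧ dg_p` -/
noncomputable def gen (p : ℕ) (g : Fin p → A) : ⋀[A]^p Ω[A⁄ℂ] :=
  exteriorPower.ιMulti A p (fun a => D ℂ A (g a))

lemma fM_smul (p : ℕ) (f : A →ₐ[ℂ] B) (a : A) (ω : ⋀[A]^p Ω[A⁄ℂ]) :
    fM p f (a • ω) = f a • fM p f ω := by
  let _ : Algebra A B := f.toRingHom.toAlgebra
  have _ : IsScalarTower ℂ A B := IsScalarTower.of_algebraMap_eq fun c => (f.commutes c).symm
  have h := (formLin A B p).map_smul a ω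
  refine Eq.trans h ?_
  rw [← IsScalarTower.algebraMap_smul B a]
  rfl

lemma fM_gen (p : ℕ) (f : A →ₐ[ℂ] B) (g : Fin p → A) :
    fM p f (gen p g) = gen p (fun a => f (g a)) := by
  let _ : Algebra A B := f.toRingHom.toAlgebra
  have _ : IsScalarTower ℂ A B := IsScalarTower.of_algebraMap_eq fun c => (f.commutes c).symm
  have h := exteriorPower.alternatingMapLinearEquiv_apply_ιMulti
    (formAlt A B p) (fun a => D ℂ A (g a))
  refine Eq.trans h ?_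
  change exteriorPower.ιMulti B p (fun a => KaehlerDifferential.map ℂ ℂ A B (D ℂ A (g a))) = _
  simp only [KaehlerDifferential.map_D]
  rfl

lemma gen_closure (p : ℕ) :
    AddSubgroup.closure {ω : ⋀[A]^p Ω[A⁄ℂ] | ∃ (a : A) (g : Fin p → A), ω = a • gen p g} = ⊤ := by
  have h := exteriorPower.ιMulti_span_of_span (R := A) (n := p) (M := Ω[A⁄ℂ])
    (s := Set.range (D ℂ A)) (span_range_derivation ℂ A)
  rw [eq_top_iff]
  intro ω hω0
  clear hω0
  have hω : ω ∈ (⊤ : Submodule A (⋀[A]^p Ω[A⁄ℂ])) := Submodule.mem_top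
  rw [← h] at hω
  induction hω using Submodule.span_induction with
  | mem x hx =>
    obtain ⟨v, hv, rfl⟩ := hx
    have hv' : ∀ a, ∃ b, D ℂ A b = v a := fun a => hv ⟨a, rfl⟩
    choose g hg using hv'
    apply AddSubgroup.subset_closure
    refine ⟨1, g, ?_⟩
    rw [one_smul, gen]
    congr 1
    funext a
    exact (hg a).symm
  | zero => exact AddSubgroup.zero_mem _
  | add x y _ _ hx hy => exact AddSubgroup.add_mem _ hx hy
  | smul a x hx0 hx =>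
    clear h hx0
    induction hx using AddSubgroup.closure_induction with
    | mem x hx =>
      obtain ⟨b, g, rfl⟩ := hx
      apply AddSubgroup.subset_closure
      exact ⟨a * b, g, by rw [smul_smul]⟩
    | zero => rw [smul_zero]; exact AddSubgroup.zero_mem _
    | add x y _ _ hx hy => rw [smul_add]; exact AddSubgroup.add_mem _ hx hy
    | neg x _ hx => rw [smul_neg]; exact AddSubgroup.neg_mem _ hx

lemma form_ext {F : Type} [AddCommGroup F] {p : ℕ} (φ ψ : (⋀[A]^p Ω[A⁄ℂ]) →+ F)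
    (h : ∀ (a : A) (g : Fin p → A), φ (a • gen p g) = ψ (a • gen p g)) (ω : ⋀[A]^p Ω[A⁄ℂ]) :
    φ ω = ψ ω := by
  have : φ = ψ := by
    refine AddMonoidHom.eq_of_eqOn_dense (gen_closure p) ?_
    rintro _ ⟨a, g, rfl⟩
    exact h a g
  rw [this]

lemma form_mem {F : Type} [AddCommGroup F] {p : ℕ} (φ : (⋀[A]^p Ω[A⁄ℂ]) →+ F) (W : AddSubgroup F)
    (h : ∀ (a : A) (g : Fin p → A), φ (a • gen p g) ∈ W) (ω : ⋀[A]^p Ω[A⁄ℂ]) : φ ω ∈ W := by
  have h1 : (⊤ : AddSubgroup (⋀[A]^p Ω[A⁄ℂ])) ≤ W.comap φ := by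
    rw [← gen_closure, AddSubgroup.closure_le]
    rintro _ ⟨a, g, rfl⟩
    exact h a g
  exact h1 (AddSubgroup.mem_top ω)

lemma fM_comp (p : ℕ) (f : A →ₐ[ℂ] B) (g : B →ₐ[ℂ] C) (ω : ⋀[A]^p Ω[A⁄ℂ]) :
    fM p g (fM p f ω) = fM p (g.comp f) ω := by
  refine form_ext ((fM p g).comp (fM p f)) (fM p (g.comp f)) ?_ ω
  intro a h
  simp only [AddMonoidHom.comp_apply, fM_smul, fM_gen]
  rfl

lemma fM_id (p : ℕ) (ω : ⋀[A]^p Ω[A⁄ℂ]) : fM p (AlgHom.id ℂ A) ω = ω := by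
  refine form_ext (fM p (AlgHom.id ℂ A)) (AddMonoidHom.id _) ?_ ω
  intro a h
  simp only [fM_smul, fM_gen]
  rfl

/-- the pull-back is unique -/
lemma formMap_eq (p : ℕ) (f : A →ₐ[ℂ] B) : formMap p f = fM p f := by
  refine DFunLike.ext (F := (⋀[A]^p Ω[A⁄ℂ]) →+ (⋀[B]^p Ω[B⁄ℂ])) _ _ fun ω => ?_
  refine form_ext (F := ⋀[B]^p Ω[B⁄ℂ]) (formMap p f) (fM p f) ?_ ω
  intro a g
  rw [fM_smul, fM_gen]
  exact formMap_spec p f a g

/-- the pull-back to a field, in the exterior algebra -/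
noncomputable def J (p : ℕ) (f : A →ₐ[ℂ] B) :
    (⋀[A]^p Ω[A⁄ℂ]) →+ ExteriorAlgebra B Ω[B⁄ℂ] :=
  (Submodule.subtype (⋀[B]^p Ω[B⁄ℂ])).toAddMonoidHom.comp (fM p f)

lemma J_gen (p : ℕ) (f : A →ₐ[ℂ] B) (a : A) (g : Fin p → A) :
    J p f (a • gen p g) = f a • ExteriorAlgebra.ιMulti B p (fun i => D ℂ B (f (g i))) := by
  rw [J, AddMonoidHom.comp_apply, fM_smul, fM_gen]
  rfl

lemma J_comp (p : ℕ) (f : A →ₐ[ℂ] B) (g : B →ₐ[ℂ] C) (ω : ⋀[A]^p Ω[A⁄ℂ]) :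
    J p g (fM p f ω) = J p (g.comp f) ω := by
  rw [J, AddMonoidHom.comp_apply, fM_comp]
  rfl

end

end Pool.Agent.H907R3
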