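import Pool.Agent.H907R3.Chart
import Pool.Agent.H907R3.FormMap

set_option autoImplicit false

namespace Pool.Agent.H907R3

open MvPolynomial KaehlerDifferential

/-- the index set of the cube: the six charts and the vertex -/
abbrev NN : Type := Option (Fin 6)

/-- the degrees that occur in the coordinate ring of `X_α` -/
def Dg (α : Finset NN) : Set ℤ := if none ∈ α then {0} else G0

/-- the charts -/
def er (α : Finset NN) : Finset (Fin 6) := Finset.eraseNone α

lemma mem_er {α : Finset NN} {k : Fin 6} : k ∈ er α ↔ some k ∈ α := Finset.mem_eraseNone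

lemma er_mono {α β : Finset NN} (h : α ⊆ β) : er α ⊆ er β := by
  intro k hk
  rw [mem_er] at *
  exact h hk

lemma zero_mem_Dg (α : Finset NN) : (0 : ℤ) ∈ Dg α := by
  rw [Dg]
  split_ifs
  · rfl
  · exact zero_mem_G0

lemma Dg_nonneg (α : Finset NN) : ∀ d ∈ Dg α, 0 ≤ d := by
  intro d hd
  rw [Dg] at hd
  split_ifs at hd
  · rw [show d = 0 from hd]
  · exact hd.1

lemma Dg_sub (α : Finset NN) : Dg α ⊆ G0 := by
  rw [Dg]
  split_ifs
  · exact zero_sub_G0
  · exact Set.Subset.refl _

/-- the coordinate ring of `X_α` -/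
noncomputable def sub (α : Finset NN) : Subalgebra ℂ K where
  carrier := V (er α) (Dg α)
  mul_mem' ha hb := V_mul (Finset.Subset.refl _) (Finset.Subset.refl _) (by
    rw [Dg]
    split_ifs
    · rintro a rfl b rfl; rfl
    · exact G0_add) ha hb
  add_mem' ha hb := Submodule.add_mem _ ha hb
  algebraMap_mem' r := by
    rw [Algebra.algebraMap_eq_smul_one]
    exact Submodule.smul_mem _ _ (one_mem_V (zero_mem_Dg α))

lemma mem_sub {α : Finset NN} {f : K} : f ∈ sub α ↔ f ∈ V (er α) (Dg α) := Iff.rfl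

lemma sub_eq_U {α : Finset NN} (h : none ∉ α) : sub α = U (er α) := by
  ext f
  rw [mem_sub, mem_U, Dg, if_neg h]

lemma sub_eq_E {α : Finset NN} (h : none ∈ α) : sub α = E (er α) := by
  ext f
  rw [mem_sub, mem_E, Dg, if_pos h]

lemma mem_V0 {α : Finset NN} (h : none ∈ α) {f : K} (hf : f ∈ sub α) : f ∈ V (er α) {0} := by
  rw [sub_eq_E h] at hf
  exact hf

lemma mem_VG {α : Finset NN} (h : none ∉ α) {f : K} (hf : f ∈ sub α) : f ∈ V (er α) G0 := by
  rw [sub_eq_U h] at hf
  exact hf

/-- restriction -/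
noncomputable def Tm (β : Finset NN) : K →ₗ[ℂ] K := if none ∈ β then pr else LinearMap.id

lemma Tm_pos {β : Finset NN} (h : none ∈ β) : Tm β = pr := if_pos h

lemma Tm_neg {β : Finset NN} (h : none ∉ β) : Tm β = LinearMap.id := if_neg h

lemma Tm_mem {α β : Finset NN} (h : α ⊆ β) {f : K} (hf : f ∈ sub α) : Tm β f ∈ sub β := by
  rw [mem_sub] at *
  by_cases hb : none ∈ β
  · rw [Tm_pos hb, Dg, if_pos hb]
    exact V_mono (er_mono h) (Set.Subset.refl _) (pr_mem hf)
  · have ha : none ∉ α := fun h' => hb (h h')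
    rw [Tm_neg hb, Dg, if_neg hb]
    rw [Dg, if_neg ha] at hf
    exact V_mono (er_mono h) (Set.Subset.refl _) hf

lemma pr_one : pr 1 = 1 := pr_zero_deg (I := ∅) (one_mem_V rfl)

lemma Tm_one (β : Finset NN) : Tm β 1 = 1 := by
  rw [Tm]
  split_ifs
  · exact pr_one
  · rfl

lemma Tm_mul {α : Finset NN} (β : Finset NN) {f g : K} (hf : f ∈ sub α) (hg : g ∈ sub α) :
    Tm β (f * g) = Tm β f * Tm β g := by
  rw [Tm]
  split_ifs
  · exact pr_mul (Dg_nonneg α) (Dg_nonneg α) hf hg
  · rfl

/-- the coordinate ring of `X_α` as a type -/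
def AA (α : Finset NN) : Type := sub α

noncomputable instance (α : Finset NN) : CommRing (AA α) :=
  inferInstanceAs (CommRing (sub α))

noncomputable instance (α : Finset NN) : Algebra ℂ (AA α) :=
  inferInstanceAs (Algebra ℂ (sub α))

instance (α : Finset NN) : IsDomain (AA α) :=
  inferInstanceAs (IsDomain (sub α))

/-- the embedding in the function field -/
noncomputable def emb (α : Finset NN) : AA α →ₐ[ℂ] K := (sub α).val

lemma emb_mem (α : Finset NN) (f : AA α) : emb α f ∈ sub α := Subtype.property (p := (· ∈ sub α)) f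

lemma emb_injective (α : Finset NN) : Function.Injective (emb α) := Subtype.val_injective

/-- the element of the coordinate ring given by a function -/
noncomputable def mkA {α : Finset NN} {f : K} (hf : f ∈ sub α) : AA α := ⟨f, hf⟩

lemma emb_mk {α : Finset NN} {f : K} (hf : f ∈ sub α) : emb α (mkA hf) = f := rfl

/-- algebra maps between the coordinate rings given by linear maps on the function field -/
noncomputable def homA {α β : Finset NN} (t : K →ₗ[ℂ] K) (h1 : t 1 = 1)
    (hm : ∀ f ∈ sub α, ∀ g ∈ sub α, t (f * g) = t f * t g) (ht : ∀ f ∈ sub α, t f ∈ sub β) :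
    AA α →ₐ[ℂ] AA β where
  toFun f := mkA (ht _ (emb_mem α f))
  map_one' := emb_injective β (by rw [emb_mk, map_one (emb α), h1, map_one (emb β)])
  map_mul' f g := emb_injective β (by
    rw [map_mul (emb β), emb_mk, emb_mk, emb_mk, map_mul, hm _ (emb_mem α f) _ (emb_mem α g)])
  map_zero' := emb_injective β (by rw [emb_mk, map_zero, map_zero, map_zero])
  map_add' f g := emb_injective β (by
    rw [map_add (emb β), emb_mk, emb_mk, emb_mk, map_add, map_add])
  commutes' r := by
    apply emb_injective β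
    rw [emb_mk, AlgHom.commutes, AlgHom.commutes, Algebra.algebraMap_eq_smul_one, map_smul, h1]

lemma emb_homA {α β : Finset NN} (t : K →ₗ[ℂ] K) (h1 : t 1 = 1)
    (hm : ∀ f ∈ sub α, ∀ g ∈ sub α, t (f * g) = t f * t g) (ht : ∀ f ∈ sub α, t f ∈ sub β)
    (f : AA α) : emb β (homA t h1 hm ht f) = t (emb α f) := rfl

/-- the restriction maps of the diagram -/
noncomputable def rs {α β : Finset NN} (h : α ⊆ β) : AA α →ₐ[ℂ] AA β :=
  homA (Tm β) (Tm_one β) (fun _ hf _ hg => Tm_mul β hf hg) (fun _ hf => Tm_mem h hf)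

lemma emb_rs {α β : Finset NN} (h : α ⊆ β) (f : AA α) : emb β (rs h f) = Tm β (emb α f) :=
  emb_homA _ _ _ _ f

lemma rs_rs {α β γ : Finset NN} (h₁ : α ⊆ β) (h₂ : β ⊆ γ) :
    (rs h₂).comp (rs h₁) = rs (h₁.trans h₂) := by
  apply AlgHom.ext
  intro f
  apply emb_injective
  rw [AlgHom.comp_apply, emb_rs, emb_rs, emb_rs]
  by_cases hγ : none ∈ γ
  · by_cases hβ : none ∈ β
    · rw [Tm_pos hγ, Tm_pos hβ, pr_zero_deg (pr_mem (mem_sub.1 (emb_mem α f)))]
    · rw [Tm_neg hβ]
      rfl
  · have hβ : none ∉ β := fun h' => hγ (h₂ h')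
    rw [Tm_neg hβ]
    rfl

lemma rs_self (α : Finset NN) : rs (Finset.Subset.refl α) = AlgHom.id ℂ (AA α) := by
  apply AlgHom.ext
  intro f
  apply emb_injective
  rw [emb_rs]
  by_cases hα : none ∈ α
  · rw [Tm_pos hα]
    exact pr_zero_deg (mem_V0 hα (emb_mem α f))
  · rw [Tm_neg hα]
    rfl

/-- the cubical diagram -/
noncomputable def DD : CubicalDiagram (AA ∅) where
  N := NN
  A α := AA α
  res h := rs h
  res_self := rs_self
  res_res := rs_rs
  aug := AlgEquiv.refl

section Smooth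

/-- a retract of a smooth algebra is smooth -/
lemma smooth_retract {A B : Type} [CommRing A] [CommRing B] [Algebra ℂ A] [Algebra ℂ B]
    (hA : Algebra.Smooth ℂ A) (ι : B →ₐ[ℂ] A) (π : A →ₐ[ℂ] B) (h : π.comp ι = AlgHom.id ℂ B) :
    Algebra.Smooth ℂ B := by
  have h1 : Algebra.FormallySmooth ℂ B := by
    apply Algebra.FormallySmooth.of_comp_surjective
    intro C _ _ I hI f
    obtain ⟨g, hg⟩ := Algebra.FormallySmooth.comp_surjective ℂ A I hI (f.comp π)
    refine ⟨g.comp ι, ?_⟩
    have hg' : (Ideal.Quotient.mkₐ ℂ I).comp g = f.comp π := hg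
    change (Ideal.Quotient.mkₐ ℂ I).comp (g.comp ι) = f
    rw [← AlgHom.comp_assoc, hg', AlgHom.comp_assoc, h, AlgHom.comp_id]
  have hs : Function.Surjective π := fun b => ⟨ι b, congrArg (fun f => f b) h⟩
  have h3 : Algebra.FiniteType ℂ A := inferInstance
  have h2 : Algebra.FiniteType ℂ B := Algebra.FiniteType.of_surjective π hs
  exact ⟨h1, (Algebra.FinitePresentation.of_finiteType).1 h2⟩

lemma smooth_base {B : Type} [CommRing B] [Algebra ℂ B]
    (h : Function.Bijective (Algebra.ofId ℂ B)) : Algebra.Smooth ℂ B := by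
  have : Algebra.Smooth ℂ ℂ := ⟨inferInstance, inferInstance⟩
  exact Algebra.Smooth.of_equiv (AlgEquiv.ofBijective (Algebra.ofId ℂ B) h)

lemma E_empty {f : K} (hf : f ∈ V ∅ {0}) : ∃ c : ℂ, algebraMap ℂ K c = f := by
  refine V_induction (fun f => ∃ c : ℂ, algebraMap ℂ K c = f) ?_ ?_ ?_ ?_ hf
  · rintro ⟨a, e⟩ ⟨h1, h2⟩
    have h3 : ∀ k, 0 ≤ a k := fun k => h1 k (Finset.notMem_empty k)
    have h4 : ∑ k, a k + ((e : ℕ) : ℤ) = 0 := h2
    have h5 : 0 ≤ ∑ k, a k := Finset.sum_nonneg fun k _ => h3 k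
    have h6 : ∑ k, a k = 0 := by omega
    have h7 : (e : ℕ) = 0 := by omega
    have h8 : a = 0 := by
      funext k
      exact (Finset.sum_eq_zero_iff_of_nonneg (fun k _ => h3 k)).1 h6 k (Finset.mem_univ k)
    refine ⟨1, ?_⟩
    rw [map_one, nf, h7, h8, mon_zero]
  · exact ⟨0, map_zero _⟩
  · rintro f g ⟨c, rfl⟩ ⟨d, rfl⟩
    exact ⟨c + d, map_add _ _ _⟩
  · rintro c f ⟨d, rfl⟩
    exact ⟨c * d, by rw [map_mul, Algebra.smul_def]⟩

/-- the structures on the charts -/
lemma smooth_AU {α : Finset NN} (hn : none ∉ α) (h : (er α).Nonempty) :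
    Algebra.Smooth ℂ (AA α) := by
  change Algebra.Smooth ℂ (sub α)
  rw [sub_eq_U hn]
  exact smooth_U h

lemma er_nonempty {α : Finset NN} (hα : none ∉ α) (h : α.Nonempty) : (er α).Nonempty := by
  obtain ⟨a, ha⟩ := h
  cases a with
  | none => exact absurd ha hα
  | some k => exact ⟨k, mem_er.2 ha⟩

lemma sub_le {α β : Finset NN} (h : er β ⊆ er α) (hb : none ∈ β) : sub β ≤ sub α := by
  intro f hf
  have h1 := mem_V0 hb hf
  rw [mem_sub]
  refine V_mono h ?_ h1
  rintro _ rfl
  exact zero_mem_Dg α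

/-- the inclusion of the functions of degree zero -/
noncomputable def inc {α β : Finset NN} (h : er β ⊆ er α) (hb : none ∈ β) : AA β →ₐ[ℂ] AA α :=
  homA LinearMap.id rfl (fun _ _ _ _ => rfl) (fun _ hf => sub_le h hb hf)

lemma emb_inc {α β : Finset NN} (h : er β ⊆ er α) (hb : none ∈ β) (f : AA β) :
    emb α (inc h hb f) = emb β f := emb_homA LinearMap.id rfl _ _ f

lemma rs_inc {α β : Finset NN} (h : er β ⊆ er α) (hb : none ∈ β) (h' : α ⊆ β) :
    (rs h').comp (inc h hb) = AlgHom.id ℂ (AA β) := by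
  apply AlgHom.ext
  intro f
  apply emb_injective
  rw [AlgHom.comp_apply, emb_rs, emb_inc, Tm_pos hb]
  exact pr_zero_deg (mem_V0 hb (emb_mem β f))

lemma smooth_AA (α : Finset NN) (hα : α.Nonempty) : Algebra.Smooth ℂ (AA α) := by
  by_cases hn : none ∈ α
  · by_cases he : (er α).Nonempty
    · -- a retract of the chart
      have hβ : none ∉ α.erase none := Finset.notMem_erase none α
      have hβα : α.erase none ⊆ α := Finset.erase_subset none α
      have herr : er (α.erase none) = er α := by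
        ext k
        rw [mem_er, mem_er, Finset.mem_erase]
        simp
      exact smooth_retract (smooth_AU hβ (herr ▸ he)) (inc herr.symm.le hn) (rs hβα)
        (rs_inc herr.symm.le hn hβα)
    · have he' : er α = ∅ := Finset.not_nonempty_iff_eq_empty.1 he
      apply smooth_base
      constructor
      · exact (algebraMap ℂ (AA α)).injective
      · intro f
        have hf := mem_V0 hn (emb_mem α f)
        rw [he'] at hf
        obtain ⟨c, hc⟩ := E_empty hf
        exact ⟨c, emb_injective α hc⟩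
  · exact smooth_AU hn (er_nonempty hn hα)

end Smooth

end Pool.Agent.H907R3
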