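import Pool.Agent.H907R3.FormAux

set_option autoImplicit false

namespace Pool.Agent.H907R3

open KaehlerDifferential

section Forms

variable (A : Type) [CommRing A] [Algebra ℂ A] (p : ℕ)

/-- The `A`-module `Ω_{A/ℂ}` of Kähler differentials. -/
def Om : Type := Ω[A⁄ℂ]

noncomputable instance instOm1 : AddCommGroup (Om A) := (inferInstance : AddCommGroup Ω[A⁄ℂ])

noncomputable instance instOm2 : Module A (Om A) := (inferInstance : Module A Ω[A⁄ℂ])

/-- The universal derivation `d : A → Ω_{A/ℂ}`. -/
noncomputable def dOm (a : A) : Om A := D ℂ A a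

/-- The exterior algebra of `Ω_{A/ℂ}`. -/
def EA : Type := ExteriorAlgebra A (Om A)

noncomputable instance instEA1 : Ring (EA A) :=
  (inferInstance : Ring (ExteriorAlgebra A (Om A)))

noncomputable instance instEA2 : Algebra A (EA A) :=
  (inferInstance : Algebra A (ExteriorAlgebra A (Om A)))

/-- The submodule `⋀^p Ω_{A/ℂ}` of the exterior algebra. -/
noncomputable def formsSub : Submodule A (EA A) := ⋀[A]^p (Om A)

/-- The `A`-module `⋀^p Ω_{A/ℂ}` of differential forms of degree `p`. -/
def Forms : Type := formsSub A p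

noncomputable instance instForms1 : AddCommGroup (Forms A p) := (formsSub A p).addCommGroup

noncomputable instance instForms2 : Module A (Forms A p) := (formsSub A p).module

/-- The exterior product `dg₁ ∧ ⋯ ∧ dg_p` in the exterior algebra. -/
noncomputable def wedge (g : Fin p → A) : EA A :=
  ExteriorAlgebra.ιMulti A p (fun i => dOm A (g i))

lemma wedge_mem (g : Fin p → A) : wedge A p g ∈ formsSub A p :=
  ExteriorAlgebra.ιMulti_range A p ⟨_, rfl⟩

/-- The form `dg₁ ∧ ⋯ ∧ dg_p` of degree `p`. -/
noncomputable def dForm (g : Fin p → A) : Forms A p := ⟨wedge A p g, wedge_mem A p g⟩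

section

variable {A B : Type} [CommRing A] [CommRing B] [Algebra ℂ A] [Algebra ℂ B]

lemma exists_formMap (p : ℕ) (f : A →ₐ[ℂ] B) :
    ∃ φ : Forms A p →+ Forms B p, ∀ (a : A) (g : Fin p → A),
      φ (a • dForm A p g) = f a • dForm B p (fun i => f (g i)) := by
  let _ : Algebra A B := f.toRingHom.toAlgebra
  have _ : IsScalarTower ℂ A B := IsScalarTower.of_algebraMap_eq fun c => (f.commutes c).symm
  refine ⟨(formLin A B p).toAddMonoidHom, fun a g => ?_⟩
  have h := (formLin A B p).map_smul a (exteriorPower.ιMulti A p (fun i => D ℂ A (g i)))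
  refine Eq.trans h ?_
  rw [← IsScalarTower.algebraMap_smul B a]
  have h2 : formLin A B p (exteriorPower.ιMulti A p (fun i => D ℂ A (g i))) =
      exteriorPower.ιMulti B p (fun i => D ℂ B (f (g i))) := by
    refine Eq.trans (exteriorPower.alternatingMapLinearEquiv_apply_ιMulti
      (formAlt A B p) (fun a => D ℂ A (g a))) ?_
    change exteriorPower.ιMulti B p
      (fun a => KaehlerDifferential.map ℂ ℂ A B (D ℂ A (g a))) = _
    simp only [KaehlerDifferential.map_D]
    rfl
  rw [h2]
  rfl

/-- Pull-back of differential forms of degree `p` along a homomorphism `f : A → B` of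
`ℂ`-algebras, that is along `Spec B → Spec A`: the additive map
`⋀^p Ω_{A/ℂ} → ⋀^p Ω_{B/ℂ}`, `a dg₁ ∧ ⋯ ∧ dg_p ↦ f(a) d(f g₁) ∧ ⋯ ∧ d(f g_p)`. It is unique
because the forms `a dg₁ ∧ ⋯ ∧ dg_p` generate the group `⋀^p Ω_{A/ℂ}`. -/
noncomputable def formMap (p : ℕ) (f : A →ₐ[ℂ] B) : Forms A p →+ Forms B p :=
  (exists_formMap p f).choose

lemma formMap_spec (p : ℕ) (f : A →ₐ[ℂ] B) (a : A) (g : Fin p → A) :
    formMap p f (a • dForm A p g) = f a • dForm B p (fun i => f (g i)) :=
  (exists_formMap p f).choose_spec a g

end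

end Forms

section Cube

variable {N : Type} [DecidableEq N]

/-- The set of the entries of a tuple. -/
def img {n : ℕ} (k : Fin n → N) : Finset N := Finset.univ.image k

lemma img_face {n : ℕ} (k : Fin (n + 1) → N) (j : Fin (n + 1)) :
    img (k ∘ j.succAbove) ⊆ img k := by
  intro a ha
  simp only [img, Finset.mem_image, Finset.mem_univ, true_and, Function.comp_apply] at ha ⊢
  obtain ⟨i, rfl⟩ := ha
  exact ⟨_, rfl⟩

/-- The coboundary of the cochain complex of a cubical diagram of abelian groups: `M` is a
covariant functor on the partially ordered set of the finite subsets of `N`, a cochain on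
`n`-tuples assigns to each `k = (k₁, …, k_n)` an element of `M {k₁, …, k_n}`, and
`(d c)(k₁, …, k_{n+1}) = ∑ⱼ (-1)^j c(k₁, …, k̂ⱼ, …, k_{n+1})`. This is the cochain complex of the
cosimplicial abelian group associated with the cubical diagram. -/
def coboundary (M : Finset N → Type) [∀ α, AddCommGroup (M α)]
    (φ : ∀ {α β : Finset N}, α ⊆ β → M α →+ M β) {n : ℕ} (c : ∀ k : Fin n → N, M (img k)) :
    ∀ k : Fin (n + 1) → N, M (img k) :=
  fun k => ∑ j : Fin (n + 1), (-1 : ℤ) ^ (j : ℕ) • φ (img_face k j) (c (k ∘ j.succAbove))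

/-- Exactness of the complex of cochains of the cubical diagram `M` at the spot of the cochains
on `(i + 1)`-tuples. For `i ≥ 1` this is the vanishing of the `i`-th cohomology group of the
(non-augmented) complex, which starts with the cochains on `1`-tuples in degree `0`. -/
def CohomologyVanishes (M : Finset N → Type) [∀ α, AddCommGroup (M α)]
    (φ : ∀ {α β : Finset N}, α ⊆ β → M α →+ M β) (i : ℕ) : Prop :=
  ∀ c : ∀ k : Fin (i + 1) → N, M (img k), coboundary M φ c = 0 →
    ∃ b : ∀ k : Fin i → N, M (img k), coboundary M φ b = c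

/-- Exactness of the augmented complex of cochains of the cubical diagram `M`, which starts with
the cochains on `0`-tuples (the elements of `M ∅`). -/
def AugmentedExact (M : Finset N → Type) [∀ α, AddCommGroup (M α)]
    (φ : ∀ {α β : Finset N}, α ⊆ β → M α →+ M β) : Prop :=
  (∀ c : ∀ k : Fin 0 → N, M (img k), coboundary M φ c = 0 → c = 0) ∧
    ∀ i : ℕ, CohomologyVanishes M φ i

end Cube

/-- A cubical diagram of affine schemes over `X = Spec R`: a contravariant functor
`α ↦ X_α = Spec (A α)` on the partially ordered set of the subsets of a finite set `N`, with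
`X_∅ = X`. -/
structure CubicalDiagram (R : Type) [CommRing R] [Algebra ℂ R] where
  /-- the index set of the cube -/
  N : Type
  [fintype : Fintype N]
  [deceq : DecidableEq N]
  /-- the coordinate ring of `X_α` -/
  A : Finset N → Type
  [ring : ∀ α, CommRing (A α)]
  [alg : ∀ α, Algebra ℂ (A α)]
  /-- the morphism `X_β → X_α` for `α ⊆ β` -/
  res : ∀ {α β : Finset N}, α ⊆ β → (A α →ₐ[ℂ] A β)
  res_self : ∀ α, res (Finset.Subset.refl α) = AlgHom.id ℂ (A α)
  res_res : ∀ {α β γ : Finset N} (h₁ : α ⊆ β) (h₂ : β ⊆ γ),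
    (res h₂).comp (res h₁) = res (h₁.trans h₂)
  /-- the identification `X_∅ = X` -/
  aug : R ≃ₐ[ℂ] A ∅

attribute [instance] CubicalDiagram.fintype CubicalDiagram.deceq
  CubicalDiagram.ring CubicalDiagram.alg

namespace CubicalDiagram

variable {R : Type} [CommRing R] [Algebra ℂ R] (D : CubicalDiagram R)

/-- The structure morphism `X_α → X`. -/
def str (α : Finset D.N) : R →ₐ[ℂ] D.A α :=
  (D.res (Finset.empty_subset α)).comp (D.aug : R →ₐ[ℂ] D.A ∅)

lemma res_str {α β : Finset D.N} (h : α ⊆ β) : (D.res h).comp (D.str α) = D.str β := by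
  rw [str, ← AlgHom.comp_assoc, D.res_res]
  rfl

/-- For a `V`-valued point `x` of `X`, the set `X_α(V)_x` of the `V`-valued points of `X_α`
lying over `x`. -/
def Lift {V : Type} [CommRing V] [Algebra ℂ V] (x : R →ₐ[ℂ] V) (α : Finset D.N) : Type :=
  {y : D.A α →ₐ[ℂ] V // y.comp (D.str α) = x}

/-- The map `X_β(V)_x → X_α(V)_x` for `α ⊆ β`. -/
def liftMap {V : Type} [CommRing V] [Algebra ℂ V] (x : R →ₐ[ℂ] V) {α β : Finset D.N}
    (h : α ⊆ β) (y : D.Lift x β) : D.Lift x α :=
  ⟨y.1.comp (D.res h), by rw [AlgHom.comp_assoc, D.res_str]; exact y.2⟩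

/-- For an abelian group `G`, the map from the `G`-valued functions on `X_α(V)_x` to those on
`X_β(V)_x`. -/
def funMap {V : Type} [CommRing V] [Algebra ℂ V] (x : R →ₐ[ℂ] V) (G : Type) [AddCommGroup G]
    {α β : Finset D.N} (h : α ⊆ β) : (D.Lift x α → G) →+ (D.Lift x β → G) where
  toFun g y := g (D.liftMap x h y)
  map_zero' := rfl
  map_add' _ _ := rfl

/-- Cohomological descent of the cubical diagram `X_•` over `X`, stated on the points of the
rh-topology, that is on valuation rings `V` (Goodwillie and Lichtenbaum): for every `V`-valued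
point `x` of `X` the cubical set formed by the sets `X_α(V)_x` is acyclic, that is, for every
abelian group `G` the augmented cochain complex of the `G`-valued functions on these sets is
exact. Affine open covers and abstract blow-up squares have this property. -/
def IsDescent : Prop :=
  ∀ (V : Type) [CommRing V] [IsDomain V] [ValuationRing V] [Algebra ℂ V] (x : R →ₐ[ℂ] V)
    (G : Type) [AddCommGroup G],
    AugmentedExact (fun α => (D.Lift x α → G)) (fun h => D.funMap x G h)

end CubicalDiagram

/-- A smooth affine cubical hyperresolution of the affine complex variety `X = Spec R`: a cubical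
diagram of cohomological descent with `X_α` smooth (of finite type) over `ℂ` for `α ≠ ∅`. By
Du Bois, Guillen, Navarro Aznar, Pascual-Gainza and Puerta, the graded piece `Ω̲^p_X` of the
Du Bois complex of `X` is the derived direct image of the `Ω^p_{X_α}`, `α ≠ ∅`. -/
structure CubicalHyperresolution (R : Type) [CommRing R] [Algebra ℂ R] extends
    CubicalDiagram R where
  smooth : ∀ α : Finset toCubicalDiagram.N, α.Nonempty → Algebra.Smooth ℂ (A α)
  descent : toCubicalDiagram.IsDescent

namespace CubicalHyperresolution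

variable {R : Type} [CommRing R] [Algebra ℂ R] (D : CubicalHyperresolution R)

/-- For `i ≥ 1`: the vanishing of the cohomology sheaf `ℋ^i(Ω̲^p_X)` of the Du Bois complex,
computed with the hyperresolution `D`. As `X` and the `X_α` are affine, the global sections of
this coherent sheaf are the `i`-th cohomology group of the cochain complex of the diagram of the
modules `Ω^p_{A α/ℂ}`, `α ≠ ∅`. -/
def DuBoisVanishes (p i : ℕ) : Prop :=
  CohomologyVanishes (fun α => Forms (D.A α) p) (fun h => formMap p (D.res h)) i

/-- `X` is pre-`m`-Du Bois: `ℋ^i(Ω̲^p_X) = 0` for all `i > 0` and all `0 ≤ p ≤ m` (computed with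
the hyperresolution `D`). -/
def IsPreDuBois (m : ℕ) : Prop :=
  ∀ i > 0, ∀ p ≤ m, D.DuBoisVanishes p i

end CubicalHyperresolution

end Pool.Agent.H907R3
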