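import Pool.Agent.H907R3.Cube

set_option autoImplicit false

namespace Pool.Agent.H907R3

section Ext

variable {A B F : Type} [CommRing A] [CommRing B] [CommRing F] [Algebra ℂ A] [Algebra ℂ B]
  [Algebra ℂ F]

/-- extension of a homomorphism to a ring between `A` and `A[1/s]` -/
lemma exists_ext (ρ : A →ₐ[ℂ] B) (hρ : Function.Injective ρ) (s : A)
    (hB : ∀ b : B, ∃ (n : ℕ) (a : A), b * ρ s ^ n = ρ a)
    (y : A →ₐ[ℂ] F) (w : F) (hw : y s * w = 1) : ∃ y' : B →ₐ[ℂ] F, y'.comp ρ = y := by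
  choose n a ha using hB
  let g : B → F := fun b => y (a b) * w ^ n b
  have key : ∀ (b : B) (m : ℕ) (c : A), b * ρ s ^ m = ρ c → g b = y c * w ^ m := by
    intro b m c hc
    have h1 : ρ (a b * s ^ m) = ρ (c * s ^ n b) := by
      rw [map_mul, map_mul, ← ha b, ← hc, map_pow, map_pow]
      ring
    have h2 := congrArg y (hρ h1)
    simp only [map_mul, map_pow] at h2
    have h3 : ∀ l : ℕ, (y s) ^ l * w ^ l = 1 := fun l => by rw [← mul_pow, hw, one_pow]
    calc g b = y (a b) * w ^ n b * (y s ^ m * w ^ m) := by rw [h3, mul_one]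
      _ = (y (a b) * y s ^ m) * w ^ n b * w ^ m := by ring
      _ = (y c * y s ^ n b) * w ^ n b * w ^ m := by rw [h2]
      _ = y c * w ^ m * (y s ^ n b * w ^ n b) := by ring
      _ = y c * w ^ m := by rw [h3, mul_one]
  have h3 : ∀ l : ℕ, (y s) ^ l * w ^ l = 1 := fun l => by rw [← mul_pow, hw, one_pow]
  refine ⟨{
    toFun := g
    map_one' := ?_
    map_mul' := ?_
    map_zero' := ?_
    map_add' := ?_
    commutes' := ?_ }, ?_⟩
  · rw [key 1 0 1 (by simp)]
    simp
  · intro b c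
    rw [key (b * c) (n b + n c) (a b * a c) (by rw [map_mul, ← ha, ← ha]; ring)]
    simp only [g, map_mul]
    ring
  · rw [key 0 0 0 (by simp)]
    simp
  · intro b c
    rw [key (b + c) (n b + n c) (a b * s ^ n c + a c * s ^ n b)
      (by rw [map_add, map_mul, map_mul, ← ha, ← ha, map_pow, map_pow]; ring)]
    simp only [g, map_add, map_mul, map_pow]
    calc (y (a b) * y s ^ n c + y (a c) * y s ^ n b) * w ^ (n b + n c)
        = y (a b) * w ^ n b * (y s ^ n c * w ^ n c) + y (a c) * w ^ n c *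
          (y s ^ n b * w ^ n b) := by ring
      _ = _ := by rw [h3, h3, mul_one, mul_one]
  · intro r
    change g (algebraMap ℂ B r) = algebraMap ℂ F r
    rw [key _ 0 (algebraMap ℂ A r) (by simp)]
    simp
  · apply AlgHom.ext
    intro c
    change g (ρ c) = y c
    rw [key (ρ c) 0 c (by simp)]
    simp

lemma unique_ext [IsDomain F] (ρ : A →ₐ[ℂ] B) (s : A)
    (hB : ∀ b : B, ∃ (n : ℕ) (a : A), b * ρ s ^ n = ρ a)
    (y' y'' : B →ₐ[ℂ] F) (h : y'.comp ρ = y''.comp ρ) (hs : y' (ρ s) ≠ 0) : y' = y'' := by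
  apply AlgHom.ext
  intro b
  obtain ⟨n, a, ha⟩ := hB b
  have h0 : ∀ c, y' (ρ c) = y'' (ρ c) := fun c => congrArg (fun f => f c) h
  have h1 := congrArg y' ha
  have h2 := congrArg y'' ha
  rw [map_mul, map_pow] at h1 h2
  rw [← h0, ← h0, ← h1] at h2
  exact (mul_right_cancel₀ (pow_ne_zero n hs) h2).symm

/-- a homomorphism to the fraction field with values in a subring -/
lemma exists_restrict {V : Type} [CommRing V] [IsDomain V] [Algebra ℂ V]
    (y : B →ₐ[ℂ] FractionRing V) (hy : ∀ b, ∃ v : V, algebraMap V (FractionRing V) v = y b) :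
    ∃ y' : B →ₐ[ℂ] V, ∀ b, algebraMap V (FractionRing V) (y' b) = y b := by
  choose g hg using hy
  have hinj : Function.Injective (algebraMap V (FractionRing V)) :=
    IsFractionRing.injective V (FractionRing V)
  refine ⟨{
    toFun := g
    map_one' := ?_
    map_mul' := ?_
    map_zero' := ?_
    map_add' := ?_
    commutes' := ?_ }, hg⟩
  · apply hinj; rw [hg, map_one, map_one]
  · intro a b; apply hinj; rw [hg, map_mul, map_mul, hg, hg]
  · apply hinj; rw [hg, map_zero, map_zero]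
  · intro a b; apply hinj; rw [hg, map_add, map_add, hg, hg]
  · intro r
    change g (algebraMap ℂ B r) = _
    apply hinj
    rw [hg, AlgHom.commutes, ← IsScalarTower.algebraMap_apply]

end Ext

lemma mon_pow (s : Fin 6 → ℤ) (n : ℕ) : mon s 0 ^ n = mon ((n : ℤ) • s) 0 := by
  induction n with
  | zero => simp [mon_zero]
  | succ n ih =>
    rw [pow_succ, ih, mon_mul]
    congr 1
    rw [Nat.cast_succ, add_smul, one_smul]

lemma clear_denom {I J : Finset (Fin 6)} {i : Fin 6} (hJ : J ⊆ insert i I) {s : Fin 6 → ℤ}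
    (hi : 1 ≤ s i) (hs : ∀ l ∉ I, 0 ≤ s l) (hd : ∑ l, s l ∈ G0) {b : K} (hb : b ∈ V J G0) :
    ∃ n : ℕ, b * mon s 0 ^ n ∈ V I G0 := by
  have hsm : mon s 0 ∈ V I G0 := mon_mem hs (by simpa using hd)
  have hpow : ∀ n : ℕ, mon s 0 ^ n ∈ V I G0 := by
    intro n
    exact Subalgebra.pow_mem (U I) hsm n
  refine V_induction (fun b => ∃ n : ℕ, b * mon s 0 ^ n ∈ V I G0) ?_ ?_ ?_ ?_ hb
  · rintro ⟨a, e⟩ ⟨h1, h2⟩
    have h1' : ∀ k ∉ J, 0 ≤ a k := h1
    have h2' : ∑ k, a k + ((e : ℕ) : ℤ) ∈ G0 := h2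
    refine ⟨(a i).natAbs, ?_⟩
    rw [nf, mon_pow, mon_mul]
    apply mon_mem
    · intro l hl
      have h3 := hs l hl
      change 0 ≤ a l + (((a i).natAbs : ℕ) : ℤ) * s l
      by_cases hli : l = i
      · rw [hli]
        have h4 : (((a i).natAbs : ℕ) : ℤ) ≤ ((a i).natAbs : ℤ) * s i :=
          le_mul_of_one_le_right (Int.natCast_nonneg _) hi
        omega
      · have h5 : 0 ≤ a l := h1' l (fun h => by
          rcases Finset.mem_insert.1 (hJ h) with h | h
          · exact hli h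
          · exact hl h)
        have h6 : 0 ≤ (((a i).natAbs : ℕ) : ℤ) * s l := mul_nonneg (Int.natCast_nonneg _) h3
        omega
    · have h7 : ∑ k, (a + (((a i).natAbs : ℕ) : ℤ) • s) k + ((((e : ℕ) + 0 : ℕ) : ℕ) : ℤ) =
          (∑ k, a k + ((e : ℕ) : ℤ)) + (((a i).natAbs : ℕ) : ℤ) * ∑ k, s k := by
        simp only [Pi.add_apply, Pi.smul_apply, smul_eq_mul, Finset.sum_add_distrib,
          ← Finset.mul_sum]
        push_cast
        ring
      rw [h7]
      refine G0_add _ h2' _ ⟨mul_nonneg (Int.natCast_nonneg _) hd.1, ?_⟩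
      exact Dvd.dvd.mul_left hd.2 _
  · exact ⟨0, by rw [zero_mul]; exact Submodule.zero_mem _⟩
  · rintro f g ⟨n, hn⟩ ⟨m, hm⟩
    refine ⟨n + m, ?_⟩
    have e : (f + g) * mon s 0 ^ (n + m) = (f * mon s 0 ^ n) * mon s 0 ^ m +
      (g * mon s 0 ^ m) * mon s 0 ^ n := by ring
    rw [e]
    exact Submodule.add_mem _ (Subalgebra.mul_mem (U I) hn (hpow m))
      (Subalgebra.mul_mem (U I) hm (hpow n))
  · rintro c f ⟨n, hn⟩
    refine ⟨n, ?_⟩
    rw [smul_mul_assoc]
    exact Submodule.smul_mem _ _ hn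

lemma mon_cube (i : Fin 6) : mon (Pi.single i 3) 0 = x i ^ 3 := by
  rw [mon_single]
  rfl

/-- the cubes of the coordinates -/
noncomputable def TT (k : Fin 6) : AA ∅ :=
  mkA (f := x k ^ 3) (cube_mem_sub' k)
where
  cube_mem_sub' (k : Fin 6) : x k ^ 3 ∈ sub ∅ := by
    rw [mem_sub]
    refine V_mono (Finset.empty_subset _) ?_ (cube_mem k)
    rintro _ rfl
    rw [Dg, if_neg (Finset.notMem_empty _)]
    exact ⟨by norm_num, dvd_refl _⟩

lemma emb_TT (k : Fin 6) : emb ∅ (TT k) = x k ^ 3 := rfl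

section Val

variable {V : Type} [CommRing V] [IsDomain V] [Algebra ℂ V]

lemma DD_str (α : Finset NN) : DD.str α = rs (Finset.empty_subset α) := rfl

lemma bij_of (x : AA ∅ →ₐ[ℂ] V) {α β : Finset NN} (h : α ⊆ β)
    (H : ∀ y : AA α →ₐ[ℂ] V, y.comp (rs (Finset.empty_subset α)) = x →
      ∃ y' : AA β →ₐ[ℂ] V, y'.comp (rs h) = y ∧
        ∀ y'' : AA β →ₐ[ℂ] V, y''.comp (rs h) = y → y'' = y') :
    Function.Bijective (DD.liftMap x h) := by
  constructor
  · intro p q he
    let y₁ : AA β →ₐ[ℂ] V := p.1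
    let y₂ : AA β →ₐ[ℂ] V := q.1
    have h₁ : y₁.comp (rs (Finset.empty_subset β)) = x := p.2
    have he' : y₁.comp (rs h) = y₂.comp (rs h) := congrArg Subtype.val he
    have h₃ : (y₁.comp (rs h)).comp (rs (Finset.empty_subset α)) = x := by
      rw [AlgHom.comp_assoc, rs_rs]
      exact h₁
    obtain ⟨y', _, hu⟩ := H (y₁.comp (rs h)) h₃
    apply Subtype.ext
    change y₁ = y₂
    rw [hu y₁ rfl, hu y₂ he'.symm]
  · rintro ⟨y, hy⟩
    obtain ⟨y', hy', _⟩ := H y hy
    refine ⟨⟨y', ?_⟩, Subtype.ext hy'⟩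
    change y'.comp (rs (Finset.empty_subset β)) = x
    rw [← rs_rs (Finset.empty_subset α) h, ← AlgHom.comp_assoc, hy']
    exact hy

lemma bij_refl (x : AA ∅ →ₐ[ℂ] V) {α : Finset NN} (h : α ⊆ α) :
    Function.Bijective (DD.liftMap x h) := by
  apply bij_of
  intro y _
  have e : rs h = AlgHom.id ℂ (AA α) := rs_self α
  refine ⟨y, by rw [e, AlgHom.comp_id], fun y'' hy'' => by rw [← hy'', e, AlgHom.comp_id]⟩

/-- the case in which the point lies over the vertex -/
lemma bij_none (x : AA ∅ →ₐ[ℂ] V)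
    (hx : ∀ f : AA ∅, emb ∅ f ∈ Pool.Agent.H907R3.V ∅ Gp → x f = 0)
    (hT : ∀ k, x (TT k) = 0) {α : Finset NN} (hα : none ∉ α) (h : α ⊆ insert none α) :
    Function.Bijective (DD.liftMap x h) := by
  apply bij_of
  intro y hy
  have hb : none ∈ insert none α := Finset.mem_insert_self _ _
  have her : er (insert none α) = er α := by
    ext k
    rw [mem_er, mem_er, Finset.mem_insert]
    simp
  have hkill : ∀ f : AA α, emb α f ∈ Pool.Agent.H907R3.V (er α) Gp → y f = 0 := by
    intro f hf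
    by_cases hne : (er α).Nonempty
    · obtain ⟨i, hi⟩ := hne
      have hg : emb α f * (Pool.Agent.H907R3.x i ^ 3)⁻¹ ∈ sub α := by
        rw [sub_eq_U hα]
        refine V_mul (Finset.Subset.refl _) (Finset.Subset.refl _) ?_ hf
          (Γ' := {-3}) ?_
        · rintro a ⟨ha, ha'⟩ b rfl
          refine ⟨?_, ?_⟩ <;> omega
        · have h3 : (Pool.Agent.H907R3.x i ^ 3)⁻¹ = mon (Pi.single i (-3)) 0 := by
            rw [mon_single, zpow_neg]
            rfl
          rw [h3]
          apply mon_mem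
          · intro l hl
            rw [Pi.single_eq_of_ne]
            rintro rfl
            exact hl hi
          · rw [Finset.sum_pi_single']
            simp
      have e : f = rs (Finset.empty_subset α) (TT i) * mkA hg := by
        apply emb_injective
        rw [map_mul, emb_rs, Tm_neg hα, emb_mk, emb_TT]
        have := x_ne i
        simp only [LinearMap.id_apply]
        field_simp
      rw [e, map_mul]
      have e2 : y (rs (Finset.empty_subset α) (TT i)) = x (TT i) :=
        congrArg (fun φ => φ (TT i)) hy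
      rw [e2, hT, zero_mul]
    · have hα0 : α = ∅ := by
        rw [Finset.eq_empty_iff_forall_notMem]
        intro a ha
        cases a with
        | none => exact hα ha
        | some k => exact hne ⟨k, mem_er.2 ha⟩
      subst hα0
      have e2 : y = x := by
        rw [← hy, rs_self, AlgHom.comp_id]
      rw [e2]
      exact hx f hf
  refine ⟨y.comp (inc her.le hb), ?_, ?_⟩
  · apply AlgHom.ext
    intro f
    rw [AlgHom.comp_apply, AlgHom.comp_apply, ← sub_eq_zero, ← map_sub]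
    apply hkill
    rw [map_sub, emb_inc, emb_rs, Tm_pos hb, ← neg_sub]
    exact Submodule.neg_mem _ (V_mono (Finset.Subset.refl _)
      (fun a (ha : a ∈ G0 \ {0}) => (⟨lt_of_le_of_ne ha.1.1 (Ne.symm ha.2), ha.1.2⟩ : a ∈ Gp))
      (sub_pr_mem (mem_VG hα (emb_mem α f))))
  · intro y'' hy''
    rw [← hy'', AlgHom.comp_assoc, rs_inc, AlgHom.comp_id]

end Val

end Pool.Agent.H907R3
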