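import Pool.Agent.H907R3.Descent

set_option autoImplicit false

namespace Pool.Agent.H907R3

section Val

variable {F : Type} [CommRing F] [IsDomain F] [Algebra ℂ F]

lemma rs_TT_zero {α : Finset NN} (hα : none ∈ α) (k : Fin 6) :
    rs (Finset.empty_subset α) (TT k) = 0 := by
  apply emb_injective
  rw [emb_rs, Tm_pos hα, emb_TT, pr_pos (by simp) (cube_mem k), map_zero]

lemma emb_rs_TT {α : Finset NN} (hα : none ∉ α) (k : Fin 6) :
    emb α (rs (Finset.empty_subset α) (TT k)) = x k ^ 3 := by
  rw [emb_rs, Tm_neg hα, emb_TT]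
  rfl

lemma clear_A {α β : Finset NN} (h : α ⊆ β) (hβ : none ∉ β) {i : Fin 6}
    (hJ : er β ⊆ insert i (er α)) {s : Fin 6 → ℤ} (hi : 1 ≤ s i) (hs : ∀ l ∉ er α, 0 ≤ s l)
    (hd : ∑ l, s l ∈ G0) (a : AA α) (ha : emb α a = mon s 0) (b : AA β) :
    ∃ (n : ℕ) (c : AA α), b * rs h a ^ n = rs h c := by
  obtain ⟨n, hn⟩ := clear_denom hJ hi hs hd (mem_VG hβ (emb_mem β b))
  have hα : none ∉ α := fun h' => hβ (h h')
  have hn' : emb β b * mon s 0 ^ n ∈ sub α := by
    rw [sub_eq_U hα]
    exact hn
  refine ⟨n, mkA hn', ?_⟩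
  apply emb_injective
  rw [map_mul, map_pow, emb_rs, emb_rs, Tm_neg hβ, emb_mk, ha]
  rfl

lemma mem_range_of_pow {V : Type} [CommRing V] [IsDomain V] [ValuationRing V]
    {t : FractionRing V} {n : ℕ} (hn : 0 < n) {v : V}
    (h : algebraMap V (FractionRing V) v = t ^ n) :
    ∃ u : V, algebraMap V (FractionRing V) u = t := by
  apply IsIntegrallyClosed.exists_algebraMap_eq_of_isIntegral_pow hn
  rw [← h]
  exact isIntegral_algebraMap

/-- extension of a point to the dominating chart -/
lemma exists_chart {V : Type} [CommRing V] [IsDomain V] [ValuationRing V] [Algebra ℂ V]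
    (y : AA ∅ →ₐ[ℂ] V) (i : Fin 6) (hi0 : y (TT i) ≠ 0) (hdiv : ∀ k, y (TT i) ∣ y (TT k))
    {β : Finset NN} (hβ : none ∉ β) (he : er β = {i}) (h : ∅ ⊆ β) :
    ∃ y' : AA β →ₐ[ℂ] V, y'.comp (rs h) = y := by
  have hinj : Function.Injective (algebraMap V (FractionRing V)) :=
    IsFractionRing.injective V (FractionRing V)
  let y₀ : AA ∅ →ₐ[ℂ] FractionRing V := (IsScalarTower.toAlgHom ℂ V (FractionRing V)).comp y
  have hy₀ : ∀ a, y₀ a = algebraMap V (FractionRing V) (y a) := fun a => rfl
  have hne : y₀ (TT i) ≠ 0 := by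
    rw [hy₀]
    intro h0
    exact hi0 (hinj (by rw [h0, map_zero]))
  have hrsinj : Function.Injective (rs h) := by
    intro a b hab
    apply emb_injective
    have h1 := congrArg (emb β) hab
    rw [emb_rs, emb_rs, Tm_neg hβ] at h1
    exact h1
  have hJ : er β ⊆ insert i (er ∅) := by
    rw [he]
    intro k hk
    rw [Finset.mem_singleton] at hk
    rw [hk]
    exact Finset.mem_insert_self _ _
  obtain ⟨y₁, hy₁⟩ := exists_ext (rs h) hrsinj (TT i)
    (clear_A h hβ (i := i) (s := Pi.single i 3) hJ (by rw [Pi.single_eq_same]; norm_num)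
      (fun l _ => by rw [Pi.single_apply]; split_ifs <;> norm_num)
      (by
        rw [Finset.sum_pi_single']
        simp only [Finset.mem_univ, if_true]
        exact ⟨by norm_num, dvd_refl _⟩) (TT i) (by rw [emb_TT, mon_cube]))
    y₀ (y₀ (TT i))⁻¹ (mul_inv_cancel₀ hne)
  have hy₁' : ∀ a, y₁ (rs h a) = algebraMap V (FractionRing V) (y a) :=
    fun a => congrArg (fun φ => φ a) hy₁
  have hiβ : i ∈ er β := by rw [he]; exact Finset.mem_singleton_self i
  -- the values of the coordinates
  have htm : ∀ j, x j / x i ∈ sub β := fun j => by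
    rw [sub_eq_U hβ]
    exact E_le_U _ (div_mem hiβ j)
  have hzm : z / x i ∈ sub β := by
    rw [sub_eq_U hβ]
    exact E_le_U _ (zdiv_mem hiβ)
  have ht : ∀ j, ∃ v : V, algebraMap V (FractionRing V) v = y₁ (mkA (htm j)) := by
    intro j
    obtain ⟨c, hc⟩ := hdiv j
    apply mem_range_of_pow (n := 3) (by norm_num) (v := c)
    have e : mkA (htm j) ^ 3 * rs h (TT i) = rs h (TT j) := by
      apply emb_injective
      rw [map_mul, map_pow, emb_rs_TT hβ, emb_rs_TT hβ, emb_mk]
      have := x_ne i
      field_simp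
    have e2 := congrArg y₁ e
    rw [map_mul, map_pow, hy₁', hy₁', hc, map_mul] at e2
    have h3 : algebraMap V (FractionRing V) (y (TT i)) ≠ 0 := hne
    apply mul_right_cancel₀ h3
    rw [e2]
    ring
  have hz : ∃ v : V, algebraMap V (FractionRing V) v = y₁ (mkA hzm) := by
    choose v hv using ht
    apply mem_range_of_pow (n := 2) (by norm_num) (v := -(v 0 * v 3 + v 1 * v 4 + v 2 * v 5))
    have e : mkA hzm ^ 2 = -(mkA (htm 0) * mkA (htm 3) + mkA (htm 1) * mkA (htm 4) +
        mkA (htm 2) * mkA (htm 5)) := by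
      apply emb_injective
      simp only [map_neg, map_add, map_mul, map_pow, emb_mk]
      rw [div_pow, z_sq]
      have := x_ne i
      field_simp
    rw [← map_pow, e]
    simp only [map_neg, map_add, map_mul, hv]
  have htau : ∀ j, tau6 i j ∈ sub β := fun j => by
    rw [sub_eq_U hβ]
    exact tau6_mem hiβ j
  have hvals : ∀ j, ∃ v : V, algebraMap V (FractionRing V) v = y₁ (mkA (htau j)) := by
    intro j
    by_cases h1 : j = i
    · subst h1
      refine ⟨y (TT j), ?_⟩
      rw [← hy₁']
      congr 1
      apply emb_injective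
      rw [emb_rs_TT hβ, emb_mk, tau6_self]
    · by_cases h2 : j = par i
      · obtain ⟨v, hv⟩ := hz
        refine ⟨v, ?_⟩
        rw [hv]
        congr 1
        apply emb_injective
        rw [emb_mk, emb_mk, h2, tau6_par]
      · obtain ⟨v, hv⟩ := ht j
        refine ⟨v, ?_⟩
        rw [hv]
        congr 1
        apply emb_injective
        rw [emb_mk, emb_mk, tau6_ne h1 h2]
  choose v hv using hvals
  have hall : ∀ b : AA β, ∃ u : V, algebraMap V (FractionRing V) u = y₁ b := by
    intro b
    have hb := mem_VG hβ (emb_mem β b)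
    rw [he] at hb
    obtain ⟨n, p, hp⟩ := surj_chart i {i} hb
    have h1 : MvPolynomial.aeval (tau6 i) (sI i {i}) = (1 : K) := by
      rw [aeval_sI, Finset.prod_singleton, div_self (x_ne i)]
    rw [h1, one_pow, mul_one] at hp
    have h2 : b = MvPolynomial.aeval (fun j => (mkA (htau j) : AA β)) p := by
      apply emb_injective
      rw [hp]
      have h3 : (emb β).comp (MvPolynomial.aeval (fun j => (mkA (htau j) : AA β))) =
          MvPolynomial.aeval (tau6 i) := by
        apply MvPolynomial.algHom_ext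
        intro j
        rw [AlgHom.comp_apply, MvPolynomial.aeval_X, MvPolynomial.aeval_X, emb_mk]
      exact (congrArg (fun φ => φ p) h3).symm
    refine ⟨MvPolynomial.aeval v p, ?_⟩
    have h4 : (IsScalarTower.toAlgHom ℂ V (FractionRing V)).comp (MvPolynomial.aeval v) =
        y₁.comp (MvPolynomial.aeval (fun j => (mkA (htau j) : AA β))) := by
      apply MvPolynomial.algHom_ext
      intro j
      rw [AlgHom.comp_apply, AlgHom.comp_apply, MvPolynomial.aeval_X, MvPolynomial.aeval_X]
      exact hv j
    rw [h2]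
    exact congrArg (fun φ => φ p) h4
  obtain ⟨y', hy'⟩ := exists_restrict y₁ hall
  refine ⟨y', ?_⟩
  apply AlgHom.ext
  intro a
  apply hinj
  rw [AlgHom.comp_apply, hy', hy₁']

lemma bij_some {V : Type} [CommRing V] [IsDomain V] [ValuationRing V] [Algebra ℂ V]
    (x : AA ∅ →ₐ[ℂ] V) (i : Fin 6) (hi0 : x (TT i) ≠ 0) (hdiv : ∀ k, x (TT i) ∣ x (TT k))
    {α β : Finset NN} (h : α ⊆ β) (hβ : β = insert (some i) α) :
    Function.Bijective (DD.liftMap x h) := by
  by_cases hi : some i ∈ α
  · rw [Finset.insert_eq_of_mem hi] at hβ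
    subst hβ
    exact bij_refl x h
  apply bij_of
  intro y hy
  have hy' : ∀ a, y (rs (Finset.empty_subset α) a) = x a := fun a => congrArg (fun φ => φ a) hy
  by_cases hα : none ∈ α
  · exfalso
    apply hi0
    rw [← hy', rs_TT_zero hα, map_zero]
  have hnβ : none ∉ β := by
    rw [hβ, Finset.mem_insert]
    simp [hα]
  have hJ : er β ⊆ insert i (er α) := by
    intro k hk
    rw [mem_er, hβ, Finset.mem_insert] at hk
    rcases hk with hk | hk
    · rw [Option.some.injEq] at hk
      rw [hk]
      exact Finset.mem_insert_self _ _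
    · exact Finset.mem_insert_of_mem (mem_er.2 hk)
  by_cases hne : (er α).Nonempty
  · obtain ⟨k, hk⟩ := hne
    have hki : k ≠ i := by
      rintro rfl
      exact hi (mem_er.1 hk)
    let s : Fin 6 → ℤ := Pi.single i 3 + Pi.single k (-3)
    have hs1 : 1 ≤ s i := by
      simp only [s, Pi.add_apply, Pi.single_eq_same, Pi.single_eq_of_ne (Ne.symm hki)]
      norm_num
    have hs2 : ∀ l ∉ er α, 0 ≤ s l := by
      intro l hl
      have hlk : l ≠ k := by
        rintro rfl
        exact hl hk
      simp only [s, Pi.add_apply, Pi.single_eq_of_ne hlk, Pi.single_apply]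
      split_ifs <;> norm_num
    have hs3 : ∑ l, s l ∈ G0 := by
      simp only [s, Pi.add_apply, Finset.sum_add_distrib]
      rw [Finset.sum_pi_single', Finset.sum_pi_single']
      simp only [Finset.mem_univ, if_true]
      norm_num
      exact zero_mem_G0
    have hsm : mon s 0 ∈ sub α := by
      rw [sub_eq_U hα]
      exact mon_mem hs2 (by simpa using hs3)
    have hval : mon s 0 * Pool.Agent.H907R3.x k ^ 3 = Pool.Agent.H907R3.x i ^ 3 := by
      rw [← mon_cube, ← mon_cube, mon_mul]
      congr 1
      simp only [s, add_assoc, ← Pi.single_add]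
      norm_num
    have hrel : rs (Finset.empty_subset α) (TT i) = mkA hsm * rs (Finset.empty_subset α) (TT k) := by
      apply emb_injective
      rw [map_mul, emb_rs_TT hα, emb_rs_TT hα, emb_mk, hval]
    obtain ⟨c, hc⟩ := hdiv k
    have hw : y (mkA hsm) * c = 1 := by
      have h1 := congrArg y hrel
      rw [map_mul, hy', hy', hc] at h1
      have h2 : x (TT i) * (y (mkA hsm) * c) = x (TT i) * 1 := by
        rw [mul_one]
        calc x (TT i) * (y (mkA hsm) * c) = y (mkA hsm) * (x (TT i) * c) := by ring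
          _ = x (TT i) := h1.symm
      exact mul_left_cancel₀ hi0 h2
    have hrsinj : Function.Injective (rs h) := by
      intro a b hab
      apply emb_injective
      have h1 := congrArg (emb β) hab
      rw [emb_rs, emb_rs, Tm_neg hnβ] at h1
      exact h1
    have hB := clear_A h hnβ hJ hs1 hs2 hs3 (mkA hsm) rfl
    obtain ⟨y₁, hy₁⟩ := exists_ext (rs h) hrsinj (mkA hsm) hB y c hw
    refine ⟨y₁, hy₁, ?_⟩
    intro y₂ hy₂
    refine unique_ext (rs h) (mkA hsm) hB y₂ y₁ (by rw [hy₁, hy₂]) ?_
    have h1 : y₂ (rs h (mkA hsm)) = y (mkA hsm) := congrArg (fun φ => φ (mkA hsm)) hy₂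
    rw [h1]
    intro h0
    rw [h0, zero_mul] at hw
    exact zero_ne_one hw
  · have hα0 : α = ∅ := by
      rw [Finset.eq_empty_iff_forall_notMem]
      intro a ha
      cases a with
      | none => exact hα ha
      | some k => exact hne ⟨k, mem_er.2 ha⟩
    subst hα0
    have hyx : y = x := by
      rw [← hy, rs_self, AlgHom.comp_id]
    subst hyx
    have her : er β = {i} := by
      ext k
      rw [mem_er, hβ, Finset.mem_insert, Finset.mem_singleton, Option.some.injEq]
      simp
    obtain ⟨y₁, hy₁⟩ := exists_chart y i hi0 hdiv hnβ her h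
    refine ⟨y₁, hy₁, ?_⟩
    intro y₂ hy₂
    refine unique_ext (rs h) (TT i) (clear_A h hnβ (i := i) (s := Pi.single i 3) hJ
      (by rw [Pi.single_eq_same]; norm_num)
      (fun l _ => by rw [Pi.single_apply]; split_ifs <;> norm_num)
      (by
        rw [Finset.sum_pi_single']
        simp only [Finset.mem_univ, if_true]
        exact ⟨by norm_num, dvd_refl _⟩) (TT i) (by rw [emb_TT, mon_cube])) y₂ y₁
        (by rw [hy₁, hy₂]) ?_
    have h1 : y₂ (rs h (TT i)) = y (TT i) := congrArg (fun φ => φ (TT i)) hy₂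
    rw [h1]
    exact hi0

/-- points that kill the cubes of the coordinates -/
lemma kill_pos (y : AA ∅ →ₐ[ℂ] F) (hT : ∀ k, y (TT k) = 0) (f : AA ∅)
    (hf : emb ∅ f ∈ V ∅ Gp) : y f = 0 := by
  have hn : none ∉ (∅ : Finset NN) := Finset.notMem_empty _
  have her : er ∅ = ∅ := by
    ext k
    rw [mem_er]
    simp
  have key : ∃ h : emb ∅ f ∈ sub ∅, y (mkA h) = 0 := by
    refine V_induction (fun g => ∃ h : g ∈ sub ∅, y (mkA h) = 0) ?_ ?_ ?_ ?_ hf
    · rintro ⟨a, e⟩ ⟨h1, h2⟩
      have h1' : ∀ k, 0 ≤ a k := fun k => h1 k (Finset.notMem_empty k)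
      have h2' : ∑ k, a k + ((e : ℕ) : ℤ) ∈ Gp := h2
      have hmem : nf (a, e) ∈ sub ∅ := by
        rw [sub_eq_U hn, her]
        exact mon_mem h1 ⟨h2'.1.le, h2'.2⟩
      refine ⟨hmem, ?_⟩
      obtain ⟨k, hk⟩ : ∃ k, 0 < a k := by
        by_contra hc
        push Not at hc
        have h3 : ∀ k, a k = 0 := fun k => le_antisymm (hc k) (h1' k)
        have h4 : ∑ k, a k = 0 := Finset.sum_eq_zero fun k _ => h3 k
        rw [h4, zero_add] at h2'
        obtain ⟨h5, h6⟩ := h2'
        have h7 : (e : ℕ) < 2 := e.2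
        omega
      have hg : mon ((3 : ℤ) • a + Pi.single k (-3)) (3 * e) ∈ sub ∅ := by
        rw [sub_eq_U hn, her]
        apply mon_mem
        · intro l _
          rw [Pi.add_apply, Pi.smul_apply, smul_eq_mul, Pi.single_apply]
          have := h1' l
          split_ifs with hlk
          · subst hlk
            omega
          · omega
        · simp only [Pi.add_apply, Pi.smul_apply, smul_eq_mul, Finset.sum_add_distrib,
            ← Finset.mul_sum]
          rw [Finset.sum_pi_single']
          simp only [Finset.mem_univ, if_true]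
          obtain ⟨h5, h6⟩ := h2'
          refine ⟨?_, ?_⟩
          · push_cast
            omega
          · push_cast
            omega
      have hrel : (mkA hmem : AA ∅) ^ 3 = TT k * mkA hg := by
        apply emb_injective
        rw [map_pow, map_mul, emb_TT, emb_mk, emb_mk, ← mon_cube, mon_mul, nf, pow_succ, pow_two,
          mon_mul, mon_mul]
        congr 1
        · have : (Pi.single k (-3) : Fin 6 → ℤ) = - Pi.single k 3 := by
            rw [← Pi.single_neg]
          rw [this]
          funext l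
          simp only [Pi.add_apply, Pi.smul_apply, Pi.neg_apply, smul_eq_mul]
          ring
        · dsimp only
          omega
      have h8 := congrArg y hrel
      rw [map_pow, map_mul, hT, zero_mul] at h8
      exact pow_eq_zero_iff (by norm_num) |>.1 h8
    · exact ⟨Subalgebra.zero_mem _, map_zero y⟩
    · rintro g g' ⟨h, hh⟩ ⟨h', hh'⟩
      refine ⟨Subalgebra.add_mem _ h h', ?_⟩
      have e : mkA (Subalgebra.add_mem _ h h') = (mkA h : AA ∅) + mkA h' := rfl
      rw [e, map_add, hh, hh', add_zero]
    · rintro c g ⟨h, hh⟩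
      refine ⟨Subalgebra.smul_mem _ h c, ?_⟩
      have e : mkA (Subalgebra.smul_mem _ h c) = c • (mkA h : AA ∅) := rfl
      rw [e, map_smul, hh, smul_zero]
  obtain ⟨_, h⟩ := key
  exact h

end Val

lemma exists_dominating {V : Type} [CommRing V] [IsDomain V] [ValuationRing V] (f : Fin 6 → V)
    (s : Finset (Fin 6)) (hs : s.Nonempty) : ∃ i ∈ s, ∀ k ∈ s, f i ∣ f k := by
  induction hs using Finset.Nonempty.cons_induction with
  | singleton a => exact ⟨a, Finset.mem_singleton_self a, fun k hk => by
      rw [Finset.mem_singleton.1 hk]⟩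
  | cons a s ha hs ih =>
    obtain ⟨i, hi, hk⟩ := ih
    rcases ValuationRing.dvd_total (f a) (f i) with h | h
    · refine ⟨a, Finset.mem_cons_self a s, fun k hk' => ?_⟩
      rcases Finset.mem_cons.1 hk' with rfl | hk''
      · exact dvd_refl _
      · exact h.trans (hk k hk'')
    · refine ⟨i, Finset.mem_cons_of_mem hi, fun k hk' => ?_⟩
      rcases Finset.mem_cons.1 hk' with rfl | hk''
      · exact h
      · exact hk k hk''

lemma funMap_bij {V : Type} [CommRing V] [Algebra ℂ V] (x : AA ∅ →ₐ[ℂ] V) (G : Type)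
    [AddCommGroup G] {α β : Finset NN} (h : α ⊆ β) (hb : Function.Bijective (DD.liftMap x h)) :
    Function.Bijective (DD.funMap x G h) := by
  constructor
  · intro g g' hg
    funext y
    obtain ⟨y', rfl⟩ := hb.2 y
    exact congrFun hg y'
  · intro m
    choose r hr using hb.2
    refine ⟨fun y => m (r y), ?_⟩
    funext y
    change m (r (DD.liftMap x h y)) = m y
    congr 1
    exact hb.1 (hr _)

/-- the cubical diagram is of cohomological descent -/
theorem descent : DD.IsDescent := by
  intro V _ _ _ _ x G _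
  have hcomp : ∀ {α β γ : Finset NN} (h₁ : α ⊆ β) (h₂ : β ⊆ γ) (m : DD.Lift x α → G),
      DD.funMap x G h₂ (DD.funMap x G h₁ m) = DD.funMap x G (h₁.trans h₂) m := by
    intro α β γ h₁ h₂ m
    funext y
    change m (DD.liftMap x h₁ (DD.liftMap x h₂ y)) = m (DD.liftMap x (h₁.trans h₂) y)
    congr 1
    apply Subtype.ext
    let y' : AA γ →ₐ[ℂ] V := y.1
    change (y'.comp (rs h₂)).comp (rs h₁) = y'.comp (rs (h₁.trans h₂))
    rw [AlgHom.comp_assoc, rs_rs]
  have hcase : ∀ (j : NN) {α β : Finset NN}, α ⊆ β → β ⊆ insert j α →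
      β = α ∨ β = insert j α := by
    intro j α β h h'
    by_cases hj : j ∈ β
    · right
      exact Finset.Subset.antisymm h' (Finset.insert_subset hj h)
    · left
      refine Finset.Subset.antisymm (fun a ha => ?_) h
      rcases Finset.mem_insert.1 (h' ha) with rfl | h''
      · exact absurd ha hj
      · exact h''
  by_cases hT : ∀ k, x (TT k) = 0
  · refine augmentedExact_of_bijective _ _ hcomp none ?_
    intro α β h h'
    apply funMap_bij
    rcases hcase none h h' with e | e
    · subst e
      exact bij_refl x h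
    · by_cases hn : none ∈ α
      · rw [Finset.insert_eq_of_mem hn] at e
        subst e
        exact bij_refl x h
      · subst e
        exact bij_none x (fun f hf => kill_pos x hT f hf) hT hn h
  · push Not at hT
    obtain ⟨k₀, hk₀⟩ := hT
    obtain ⟨i, _, hi⟩ := exists_dominating (fun k => x (TT k)) Finset.univ ⟨0, Finset.mem_univ _⟩
    have hi0 : x (TT i) ≠ 0 := by
      intro h0
      obtain ⟨c, hc⟩ := hi k₀ (Finset.mem_univ _)
      simp only [h0, zero_mul] at hc
      exact hk₀ hc
    refine augmentedExact_of_bijective _ _ hcomp (some i) ?_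
    intro α β h h'
    apply funMap_bij
    rcases hcase (some i) h h' with e | e
    · subst e
      exact bij_refl x h
    · exact bij_some x i hi0 (fun k => hi k (Finset.mem_univ _)) h e

end Pool.Agent.H907R3
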