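import Mathlib

set_option autoImplicit false

namespace Pool.Agent.H907R3

open ExteriorAlgebra

section Generic

variable {R : Type} [CommRing R] {n : ℕ}

/-- the basis of the exterior algebra of `R^n` -/
noncomputable def bL : Module.Basis (Finset (Fin n)) R (ExteriorAlgebra R (Fin n → R)) :=
  (Pi.basisFun R (Fin n)).ExteriorAlgebra

/-- the exterior monomials -/
noncomputable def eM (p : ℕ) (k : Fin p → Fin n) : ExteriorAlgebra R (Fin n → R) :=
  ExteriorAlgebra.ιMulti R p (fun a => (Pi.single (k a) 1 : Fin n → R))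

lemma eM_zero (k : Fin 0 → Fin n) : (eM 0 k : ExteriorAlgebra R (Fin n → R)) = 1 := by
  rw [eM, ιMulti_zero_apply]

lemma eM_succ (p : ℕ) (k : Fin (p + 1) → Fin n) :
    (eM (p + 1) k : ExteriorAlgebra R (Fin n → R)) =
      ι R (Pi.single (k 0) 1) * eM p (Fin.tail k) := by
  rw [eM, ιMulti_succ_apply]
  rfl

lemma eM_cons (p : ℕ) (l : Fin n) (k : Fin p → Fin n) :
    (ι R (Pi.single l 1) * eM p k : ExteriorAlgebra R (Fin n → R)) = eM (p + 1) (Fin.cons l k) := by
  rw [eM_succ]
  simp

lemma bL_empty : (bL ∅ : ExteriorAlgebra R (Fin n → R)) = 1 := by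
  rw [bL, ExteriorAlgebra.basis_apply_ofCard (n := 0) _ Finset.card_empty,
    ExteriorAlgebra.ιMulti_family, ιMulti_zero_apply]

lemma bL_singleton (k : Fin n) : (bL {k} : ExteriorAlgebra R (Fin n → R)) =
    ι R (Pi.single k 1) := by
  rw [bL, ExteriorAlgebra.basis_apply_ofCard (n := 1) _ (Finset.card_singleton k),
    ExteriorAlgebra.ιMulti_family, ιMulti_succ_apply, ιMulti_zero_apply, mul_one]
  congr 1
  simp only [Function.comp_apply, Pi.basisFun_apply]
  congr 1
  have h := (Set.powersetCard.mem_range_ofFinEmbEquiv_symm_iff_mem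
    (Set.powersetCard.ofCard (Finset.card_singleton k))
    ((Set.powersetCard.ofFinEmbEquiv.symm
      (Set.powersetCard.ofCard (Finset.card_singleton k))) 0)).1 ⟨0, rfl⟩
  have h2 : (Set.powersetCard.ofFinEmbEquiv.symm
      (Set.powersetCard.ofCard (Finset.card_singleton k))) 0 ∈ ({k} : Finset (Fin n)) := h
  exact Finset.mem_singleton.1 h2

lemma bL_mul (k : Fin n) (s : Finset (Fin n)) :
    (bL {k} * bL s : ExteriorAlgebra R (Fin n → R)) = 0 ∨
      ∃ (u : ℤˣ) (t : Finset (Fin n)),
        (bL {k} * bL s : ExteriorAlgebra R (Fin n → R)) = u • bL t := by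
  let s' : Set.powersetCard (Fin n) s.card := Set.powersetCard.ofCard rfl
  let k' : Set.powersetCard (Fin n) 1 := Set.powersetCard.ofCard (Finset.card_singleton k)
  by_cases h : Disjoint k'.val s'.val
  · right
    exact ⟨_, _, ExteriorAlgebra.basis_mul_of_disjoint (Pi.basisFun R (Fin n)) k' s' h⟩
  · left
    exact ExteriorAlgebra.basis_mul_of_not_disjoint (Pi.basisFun R (Fin n)) k' s' h

/-- application of an additive map to all coefficients -/
noncomputable def ext (g : R →+ R) :
    ExteriorAlgebra R (Fin n → R) →+ ExteriorAlgebra R (Fin n → R) where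
  toFun ω := ∑ s, g (bL.repr ω s) • bL s
  map_zero' := by simp
  map_add' a b := by simp [add_smul, Finset.sum_add_distrib]

lemma ext_smul_bL (g : R →+ R) (f : R) (s : Finset (Fin n)) :
    ext g (f • bL s) = g f • (bL s : ExteriorAlgebra R (Fin n → R)) := by
  change ∑ t, g (bL.repr (f • bL s) t) • bL t = _
  rw [Finset.sum_eq_single s]
  · simp
  · intro t _ ht
    simp [Finsupp.single_apply, ht.symm]
  · simp

lemma sum_bL (ω : ExteriorAlgebra R (Fin n → R)) : ∑ s, bL.repr ω s • bL s = ω :=
  bL.sum_repr ω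

lemma ext_mul (g : R →+ R) (k : Fin n) (ω : ExteriorAlgebra R (Fin n → R)) :
    ext g (ι R (Pi.single k 1) * ω) = ι R (Pi.single k 1) * ext g ω := by
  rw [← sum_bL ω, Finset.mul_sum, map_sum, map_sum, Finset.mul_sum]
  refine Finset.sum_congr rfl fun s _ => ?_
  rw [ext_smul_bL, mul_smul_comm, mul_smul_comm, ← bL_singleton]
  rcases bL_mul (R := R) k s with h | ⟨u, t, h⟩
  · rw [h, smul_zero, smul_zero, map_zero]
  · rw [h]
    rcases Int.units_eq_one_or u with rfl | rfl
    · rw [one_smul, ext_smul_bL]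
    · simp only [Units.neg_smul, one_smul, smul_neg, map_neg, ext_smul_bL]

lemma ext_eM (g : R →+ R) (f : R) (p : ℕ) (k : Fin p → Fin n) :
    ext g (f • eM p k) = g f • (eM p k : ExteriorAlgebra R (Fin n → R)) := by
  induction p with
  | zero => rw [eM_zero, ← bL_empty, ext_smul_bL]
  | succ p ih => rw [eM_succ, ← mul_smul_comm, ext_mul, ih, mul_smul_comm]

/-- the full exterior monomial is not zero -/
lemma eM_ne_zero [Nontrivial R] :
    (eM n id : ExteriorAlgebra R (Fin n → R)) ≠ 0 := by
  have h := (ExteriorAlgebra.basis_apply_powersetCard (Pi.basisFun R (Fin n))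
    (Set.powersetCard.ofCard (n := n) (s := (Finset.univ : Finset (Fin n))) (by simp)))
  have h1 : (eM n id : ExteriorAlgebra R (Fin n → R)) = bL Finset.univ := by
    rw [bL]
    refine Eq.trans ?_ h.symm
    rw [eM, ExteriorAlgebra.ιMulti_family]
    congr 1
    funext a
    simp only [id, Function.comp_apply, Pi.basisFun_apply]
    congr 1
    have h2 := Finset.orderEmbOfFin_unique (s := (Finset.univ : Finset (Fin n))) (by simp)
      (f := fun a : Fin n => a) (fun _ => Finset.mem_univ _) strictMono_id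
    have h3 := congrFun h2 a
    exact h3
  rw [h1]
  exact bL.ne_zero _

end Generic

section Kernel

variable {k : Type} [Field k] {M Ω : Type} [AddCommGroup M] [Module k M]
  [AddCommGroup Ω] [Module k Ω]

lemma exists_comp_eq (f : M →ₗ[k] Ω) (g : M →ₗ[k] M) (h : LinearMap.ker f ≤ LinearMap.ker g) :
    ∃ s : Ω →ₗ[k] M, ∀ m, s (f m) = g m := by
  obtain ⟨r, hr⟩ := LinearMap.exists_leftInverse_of_injective
    ((LinearMap.ker f).liftQ f le_rfl) (by rw [Submodule.ker_liftQ_eq_bot]; exact le_rfl)
  refine ⟨((LinearMap.ker f).liftQ g h) ∘ₗ r, fun m => ?_⟩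
  have h1 := congrArg (fun φ => φ (Submodule.Quotient.mk m)) hr
  simp only [LinearMap.comp_apply, LinearMap.id_apply] at h1
  change ((LinearMap.ker f).liftQ g h) (r (f m)) = g m
  have h2 : r (f m) = Submodule.Quotient.mk m := h1
  rw [h2, Submodule.liftQ_apply]

variable (f : M →ₗ[k] Ω) (gr : M) (l : Module.Dual k M)

/-- contraction -/
noncomputable def ctrG : ExteriorAlgebra k M →ₗ[k] ExteriorAlgebra k M :=
  CliffordAlgebra.contractLeft (Q := (0 : QuadraticForm k M)) l

lemma ctrG_mul (a : M) (b : ExteriorAlgebra k M) :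
    ctrG l (ι k a * b) = l a • b - ι k a * ctrG l b :=
  CliffordAlgebra.contractLeft_ι_mul (Q := (0 : QuadraticForm k M)) l a b

lemma ctrG_algebraMap (r : k) : ctrG l (algebraMap k (ExteriorAlgebra k M) r) = 0 :=
  CliffordAlgebra.contractLeft_algebraMap (Q := (0 : QuadraticForm k M)) l r

lemma ctrG_one : ctrG l (1 : ExteriorAlgebra k M) = 0 :=
  CliffordAlgebra.contractLeft_one (Q := (0 : QuadraticForm k M)) l

lemma swap (a b : M) : (ι k a * ι k b : ExteriorAlgebra k M) = -(ι k b * ι k a) := by
  rw [eq_neg_iff_add_eq_zero]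
  exact ι_add_mul_swap a b

/-- the kernel of the map of exterior algebras induced by a linear map with kernel of
dimension one -/
lemma map_eq_zero_iff (hf : f gr = 0) (hl : l gr = 1)
    (hk : ∀ m, f m = 0 → ∃ c : k, m = c • gr) (ω : ExteriorAlgebra k M) :
    ExteriorAlgebra.map f ω = 0 ↔ ι k gr * ω = 0 := by
  obtain ⟨s, hs⟩ := exists_comp_eq f (LinearMap.id - l.smulRight gr) (by
    intro m hm
    obtain ⟨c, rfl⟩ := hk m hm
    simp [hl])
  have key : ∀ ω : ExteriorAlgebra k M, ExteriorAlgebra.map s (ExteriorAlgebra.map f ω) =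
      ctrG l (ι k gr * ω) := by
    intro ω
    induction ω using CliffordAlgebra.left_induction with
    | algebraMap r =>
      rw [ctrG_mul, hl, one_smul, ctrG_algebraMap, mul_zero, sub_zero]
      simp
    | add a b ha hb => rw [map_add, map_add, ha, hb, mul_add, map_add]
    | ι_mul ω m hω =>
      change ExteriorAlgebra.map s (ExteriorAlgebra.map f (ι k m * ω)) =
        ctrG l (ι k gr * (ι k m * ω))
      rw [map_mul, map_mul, hω, map_apply_ι, map_apply_ι, hs]
      simp only [ctrG_mul, hl, one_smul, LinearMap.sub_apply, LinearMap.id_apply,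
        LinearMap.smulRight_apply, map_sub, map_smul]
      simp only [mul_sub, sub_mul, smul_mul_assoc, mul_smul_comm]
      have e1 : ι k gr * (ι k gr * ctrG l ω) = 0 := by
        rw [← mul_assoc, ι_sq_zero, zero_mul]
      have e2 : ι k m * (ι k gr * ctrG l ω) = - (ι k gr * (ι k m * ctrG l ω)) := by
        rw [← mul_assoc, swap, neg_mul, mul_assoc]
      rw [e1, e2, smul_zero]
      abel
  constructor
  · intro h
    have h1 := key ω
    rw [h, map_zero] at h1
    rw [ctrG_mul, hl, one_smul] at h1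
    have h2 : ω = ι k gr * ctrG l ω := (sub_eq_zero.1 h1.symm)
    rw [h2, ← mul_assoc, ι_sq_zero, zero_mul]
  · intro h
    have h1 := ctrG_mul l gr ω
    rw [h, map_zero, hl, one_smul] at h1
    have h2 : ω = ι k gr * ctrG l ω := (sub_eq_zero.1 h1.symm)
    rw [h2, map_mul, map_apply_ι, hf, map_zero, zero_mul]

end Kernel

end Pool.Agent.H907R3
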