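import Mathlib

set_option autoImplicit false

namespace Pool.Agent.H907R3

open MvPolynomial KaehlerDifferential

/-- polynomials in six variables `z = X 0`, `x₁ = X 1`, …, `x₅ = X 5` -/
abbrev MP : Type := MvPolynomial (Fin 6) ℂ

/-- rational functions in six variables -/
abbrev K : Type := FractionRing MP

/-- the variable `X k` in `K` -/
noncomputable def v (k : Fin 6) : K := algebraMap MP K (X k)

/-- the function `x₀ = -(z² + x₁ x₄ + x₂ x₅) / x₃` -/
noncomputable def x0 : K := -(v 0 ^ 2 + v 1 * v 4 + v 2 * v 5) / v 3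

/-- the coordinates `x₀, …, x₅` -/
noncomputable def x : Fin 6 → K := ![x0, v 1, v 2, v 3, v 4, v 5]

/-- the coordinate `z` -/
noncomputable def z : K := v 0

/-- the coordinates `x₀, …, x₅, z` -/
noncomputable def y : Fin 7 → K := ![x0, v 1, v 2, v 3, v 4, v 5, v 0]

/-- the gradient of `z² + x₀x₃ + x₁x₄ + x₂x₅` -/
noncomputable def grad : Fin 7 → K := ![v 3, v 4, v 5, x0, v 1, v 2, 2 * v 0]

lemma v_ne (k : Fin 6) : v k ≠ 0 := by
  intro h
  have : (X k : MP) = 0 := by
    apply IsFractionRing.injective MP K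
    rw [map_zero]
    exact h
  exact X_ne_zero k this

lemma quad : v 0 ^ 2 + x0 * v 3 + v 1 * v 4 + v 2 * v 5 = 0 := by
  unfold x0
  have := v_ne 3
  field_simp
  ring

lemma x0_ne : x0 ≠ 0 := by
  intro h
  have h1 := quad
  rw [h] at h1
  have h2 : (X 0 ^ 2 + X 1 * X 4 + X 2 * X 5 : MP) = 0 := by
    apply IsFractionRing.injective MP K
    simp only [map_add, map_mul, map_pow, map_zero]
    simpa [v] using h1
  have h3 := congrArg (eval (fun i : Fin 6 => if i = 0 then (1 : ℂ) else 0)) h2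
  simp at h3

lemma li_D : LinearIndependent K (fun k : Fin 6 => D ℂ K (v k)) := by
  have h1 : LinearIndependent MP (fun k : Fin 6 => D ℂ MP (X k : MP)) := by
    have := (mvPolynomialBasis ℂ (Fin 6)).linearIndependent
    convert this using 1
    funext k
    rw [mvPolynomialBasis_apply]
  have h2 := h1.of_isLocalizedModule (Rₛ := K) (nonZeroDivisors MP) (KaehlerDifferential.map ℂ ℂ MP K)
  have e : (fun k : Fin 6 => D ℂ K (v k)) =
      (KaehlerDifferential.map ℂ ℂ MP K) ∘ fun k : Fin 6 => D ℂ MP (X k : MP) := by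
    funext k
    simp [v]
  rw [e]
  exact h2

lemma y_ne (k : Fin 7) : y k ≠ 0 := by
  fin_cases k
  · exact x0_ne
  · exact v_ne 1
  · exact v_ne 2
  · exact v_ne 3
  · exact v_ne 4
  · exact v_ne 5
  · exact v_ne 0

/-- the differential of `x₀` -/
lemma D_x0 : v 3 • D ℂ K x0 + x0 • D ℂ K (v 3) + v 4 • D ℂ K (v 1) + v 1 • D ℂ K (v 4) +
    v 5 • D ℂ K (v 2) + v 2 • D ℂ K (v 5) + (2 * v 0) • D ℂ K (v 0) = 0 := by
  have h := congrArg (D ℂ K) quad
  simp only [map_add, Derivation.leibniz, Derivation.leibniz_pow, map_zero] at h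
  rw [← h]
  simp only [mul_smul, ← Nat.cast_smul_eq_nsmul K]
  norm_num
  abel

/-- the only relation between the differentials of `x₀, …, x₅, z` -/
lemma rel_D (f : Fin 7 → K) (hf : ∑ k, f k • D ℂ K (y k) = 0) :
    ∃ c : K, ∀ k, f k = c * grad k := by
  have h3 := v_ne 3
  have hx : D ℂ K x0 = (-(v 3)⁻¹) • (x0 • D ℂ K (v 3) + v 4 • D ℂ K (v 1) + v 1 • D ℂ K (v 4) +
    v 5 • D ℂ K (v 2) + v 2 • D ℂ K (v 5) + (2 * v 0) • D ℂ K (v 0)) := by
    have h := D_x0
    have h' : v 3 • D ℂ K x0 = -(x0 • D ℂ K (v 3) + v 4 • D ℂ K (v 1) + v 1 • D ℂ K (v 4) +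
      v 5 • D ℂ K (v 2) + v 2 • D ℂ K (v 5) + (2 * v 0) • D ℂ K (v 0)) := by
      rw [eq_neg_iff_add_eq_zero, ← h]
      abel
    rw [neg_smul, ← smul_neg, ← h', smul_smul, inv_mul_cancel₀ h3, one_smul]
  have hli := Fintype.linearIndependent_iff.1 li_D
  let c := f 0 * (v 3)⁻¹
  have key := hli ![f 6 - c * (2 * v 0), f 1 - c * v 4, f 2 - c * v 5, f 3 - c * x0, f 4 - c * v 1,
    f 5 - c * v 2] (by
      rw [← hf]
      simp only [Fin.sum_univ_succ, Fin.sum_univ_zero]
      simp [y, hx, c]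
      simp only [sub_smul, smul_smul, mul_assoc]
      abel)
  refine ⟨c, fun k => ?_⟩
  have k0 := key 0
  have k1 := key 1
  have k2 := key 2
  have k3 := key 3
  have k4 := key 4
  have k5 := key 5
  simp at k0 k1 k2 k3 k4 k5
  fin_cases k
  · simp [grad, c, h3]
  · simpa [grad] using sub_eq_zero.1 k1
  · simpa [grad] using sub_eq_zero.1 k2
  · simpa [grad] using sub_eq_zero.1 k3
  · simpa [grad] using sub_eq_zero.1 k4
  · simpa [grad] using sub_eq_zero.1 k5
  · simpa [grad] using sub_eq_zero.1 k0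

end Pool.Agent.H907R3
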