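import Mathlib

set_option autoImplicit false

namespace Pool.Agent.H907R3

open KaehlerDifferential

section Linear

variable (A B : Type) [CommRing A] [CommRing B] [Algebra ℂ A] [Algebra ℂ B] [Algebra A B]
  [IsScalarTower ℂ A B] (p : ℕ)

/-- for an `A`-algebra `B`, the map `(da₁, …, da_p) ↦ da₁ ∧ ⋯ ∧ da_p` to the `p`-forms of `B` -/
noncomputable def formMulti : MultilinearMap A (fun _ : Fin p => Ω[A⁄ℂ]) (⋀[B]^p Ω[B⁄ℂ]) :=
  ((exteriorPower.ιMulti B p (M := Ω[B⁄ℂ])).toMultilinearMap.restrictScalars A).compLinearMap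
    (fun _ => KaehlerDifferential.map ℂ ℂ A B)

lemma formMulti_apply (v : Fin p → Ω[A⁄ℂ]) : formMulti A B p v =
    exteriorPower.ιMulti B p (fun i => KaehlerDifferential.map ℂ ℂ A B (v i)) := rfl

lemma formMulti_eq_zero (v : Fin p → Ω[A⁄ℂ]) (i j : Fin p) (hv : v i = v j) (hij : i ≠ j) :
    formMulti A B p v = 0 := by
  rw [formMulti_apply]
  exact (exteriorPower.ιMulti B p (M := Ω[B⁄ℂ])).map_eq_zero_of_eq
    (fun k => KaehlerDifferential.map ℂ ℂ A B (v k)) (by simp only [hv]) hij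

/-- the alternating map `(da₁, …, da_p) ↦ da₁ ∧ ⋯ ∧ da_p` -/
noncomputable def formAlt : Ω[A⁄ℂ] [⋀^Fin p]→ₗ[A] (⋀[B]^p Ω[B⁄ℂ]) :=
  { formMulti A B p with map_eq_zero_of_eq' := formMulti_eq_zero A B p }

/-- the induced `A`-linear map `⋀^p Ω_{A/ℂ} → ⋀^p Ω_{B/ℂ}` -/
noncomputable def formLin : (⋀[A]^p Ω[A⁄ℂ]) →ₗ[A] (⋀[B]^p Ω[B⁄ℂ]) :=
  exteriorPower.alternatingMapLinearEquiv (formAlt A B p)

end Linear

end Pool.Agent.H907R3
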