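import Pool.Agent.H907R3.Cube

set_option autoImplicit false

namespace Pool.Agent.H907R3

open ExteriorAlgebra KaehlerDifferential

lemma D_prod (s : Finset (Fin 6)) (f : Fin 6 → K) (hf : ∀ k, f k ≠ 0) :
    D ℂ K (∏ k ∈ s, f k) = ∑ k ∈ s, ((∏ k ∈ s, f k) * (f k)⁻¹) • D ℂ K (f k) := by
  induction s using Finset.induction_on with
  | empty => simp
  | insert b s hb ih =>
    rw [Finset.prod_insert hb, Derivation.leibniz, ih, Finset.sum_insert hb, add_comm]
    congr 1
    · congr 1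
      have := hf b
      field_simp
    · rw [Finset.smul_sum]
      refine Finset.sum_congr rfl fun k _ => ?_
      rw [smul_smul, mul_assoc]

lemma D_mon (a : Fin 6 → ℤ) (e : ℕ) :
    D ℂ K (mon a e) = ∑ k, ((a k : K) * (mon a e * (x k)⁻¹)) • D ℂ K (x k) +
      ((e : K) * (mon a e * z⁻¹)) • D ℂ K z := by
  have hz := z_ne
  rw [mon, Derivation.leibniz, D_prod _ _ (fun k => zpow_ne_zero _ (x_ne k)), add_comm]
  congr 1
  · rw [Finset.smul_sum]
    refine Finset.sum_congr rfl fun k _ => ?_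
    rw [Derivation.leibniz_zpow, ← Int.cast_smul_eq_zsmul K, smul_smul, smul_smul, smul_smul]
    congr 1
    have hk := x_ne k
    rw [zpow_sub_one₀ hk]
    have := zpow_ne_zero (a k) hk
    field_simp
  · rw [Derivation.leibniz_pow, ← Nat.cast_smul_eq_nsmul K, smul_smul, smul_smul]
    congr 1
    rcases e with _ | e
    · simp
    · rw [Nat.add_sub_cancel]
      field_simp
      ring

lemma T_smul {p : ℕ} {I : Finset (Fin 6)} {Γ₁ Γ₂ Γ₃ : Set ℤ} (h : ∀ a ∈ Γ₁, ∀ b ∈ Γ₂, a + b ∈ Γ₃)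
    {c : K} (hc : c ∈ V I Γ₁) {t : Lam} (ht : t ∈ T p I Γ₂) : c • t ∈ T p I Γ₃ := by
  refine T_map (DistribSMul.toAddMonoidHom Lam c) _ (fun f hf k => ?_) ht
  change c • (f • eM p k : Lam) ∈ _
  rw [smul_smul]
  exact gen_mem (V_mul (Finset.Subset.refl I) (Finset.Subset.refl I) h hc hf) k

lemma W_smul {p : ℕ} {I : Finset (Fin 6)} {Γ₁ Γ₂ Γ₃ : Set ℤ} (h : ∀ a ∈ Γ₁, ∀ b ∈ Γ₂, a + b ∈ Γ₃)
    {c : K} (hc : c ∈ V I Γ₁) {w : LamO} (hw : w ∈ W p I Γ₂) : c • w ∈ W p I Γ₃ := by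
  obtain ⟨t, ht, rfl⟩ := mem_W.1 hw
  exact mem_W.2 ⟨c • t, T_smul h hc ht, map_smul _ _ _⟩

lemma W_dy {p : ℕ} {I : Finset (Fin 6)} {Γ : Set ℤ} (l : Fin 7) {w : LamO} (hw : w ∈ W p I Γ) :
    ι K (D ℂ K (y l)) * w ∈ W (p + 1) I Γ := by
  obtain ⟨t, ht, rfl⟩ := mem_W.1 hw
  refine mem_W.2 ⟨ι K (Pi.single l 1) * t, mul_mem_T l ht, ?_⟩
  rw [map_mul, Phi, ExteriorAlgebra.map_apply_ι, lin_single]

lemma W_mono {p : ℕ} {I J : Finset (Fin 6)} {Γ Γ' : Set ℤ} (hI : I ⊆ J) (hΓ : Γ ⊆ Γ') :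
    W p I Γ ≤ W p J Γ' := by
  intro w hw
  obtain ⟨t, ht, rfl⟩ := mem_W.1 hw
  exact mem_W.2 ⟨t, T_mono hI hΓ ht, rfl⟩

lemma W_D {p : ℕ} {I : Finset (Fin 6)} {Γ₁ Γ₂ Γ₃ : Set ℤ}
    (h : ∀ a ∈ Γ₁, ∀ b ∈ Γ₂, a + b - 1 ∈ Γ₃) {g : K} (hg : g ∈ V I Γ₁) {w : LamO}
    (hw : w ∈ W p I Γ₂) : ι K (D ℂ K g) * w ∈ W (p + 1) I Γ₃ := by
  refine V_induction (fun g => ι K (D ℂ K g) * w ∈ W (p + 1) I Γ₃) ?_ ?_ ?_ ?_ hg
  · rintro ⟨a, e⟩ ⟨h1, h2⟩
    have h1' : ∀ k ∉ I, 0 ≤ a k := h1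
    have h2' : ∑ k, a k + ((e : ℕ) : ℤ) ∈ Γ₁ := h2
    change ι K (D ℂ K (mon a e)) * w ∈ _
    rw [D_mon, map_add, map_sum, add_mul, Finset.sum_mul]
    refine AddSubgroup.add_mem _ (AddSubgroup.sum_mem _ fun k _ => ?_) ?_
    · rw [map_smul, smul_mul_assoc, ← y_castSucc]
      by_cases hk : a k = 0
      · rw [hk, Int.cast_zero, zero_mul, zero_smul]
        exact AddSubgroup.zero_mem _
      · refine W_smul (Γ₁ := {∑ k, a k + ((e : ℕ) : ℤ) - 1}) ?_ ?_ (W_dy k.castSucc hw)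
        · rintro _ rfl b hb
          have := h _ h2' b hb
          convert this using 1
          ring
        · have e1 : (a k : K) * (mon a e * (y k.castSucc)⁻¹) =
              ((a k : ℂ)) • mon (a + Pi.single k (-1)) e := by
            have h3 := mon_single k (-1)
            rw [zpow_neg_one] at h3
            rw [y_castSucc, ← h3, mon_mul, Algebra.smul_def, add_zero, map_intCast]
          rw [e1]
          refine Submodule.smul_mem _ _ (mon_mem ?_ ?_)
          · intro l hl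
            have h3 := h1' l hl
            rw [Pi.add_apply, Pi.single_apply]
            split_ifs with hlk
            · subst hlk
              omega
            · omega
          · simp only [Pi.add_apply, Finset.sum_add_distrib]
            rw [Finset.sum_pi_single']
            simp only [Finset.mem_univ, if_true, Set.mem_singleton_iff]
            ring
    · rw [map_smul, smul_mul_assoc, ← y_last]
      rcases e with ⟨e, he⟩
      rcases e with _ | e
      · simp only [Nat.cast_zero, zero_mul, zero_smul]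
        exact AddSubgroup.zero_mem _
      · have he0 : e = 0 := by omega
        subst he0
        refine W_smul (Γ₁ := {∑ k, a k}) ?_ ?_ (W_dy (Fin.last 6) hw)
        · rintro _ rfl b hb
          have := h _ h2' b hb
          convert this using 1
          push_cast
          ring
        · have e1 : ((0 + 1 : ℕ) : K) * (mon a (0 + 1) * (y (Fin.last 6))⁻¹) = mon a 0 := by
            have hz := z_ne
            rw [y_last, mon, mon, zero_add, pow_one, pow_zero, Nat.cast_one]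
            field_simp
          rw [e1]
          exact mon_mem h1' (by simp)
  · rw [map_zero, map_zero, zero_mul]
    exact AddSubgroup.zero_mem _
  · intro f g hf hg
    rw [map_add, map_add, add_mul]
    exact AddSubgroup.add_mem _ hf hg
  · intro c f hf
    have e1 : D ℂ K (c • f) = (algebraMap ℂ K c) • D ℂ K f := by
      rw [Derivation.map_smul, algebraMap_smul]
    rw [e1, map_smul, smul_mul_assoc]
    refine W_smul (Γ₁ := {0}) ?_ ?_ hf
    · rintro _ rfl b hb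
      rwa [zero_add]
    · rw [Algebra.algebraMap_eq_smul_one]
      exact Submodule.smul_mem _ _ (one_mem_V rfl)

/-- the exterior product of the differentials -/
noncomputable def mu (p : ℕ) (g : Fin p → K) : LamO :=
  ExteriorAlgebra.ιMulti K p (fun i => D ℂ K (g i))

lemma mu_succ (p : ℕ) (g : Fin (p + 1) → K) :
    mu (p + 1) g = ι K (D ℂ K (g 0)) * mu p (Fin.tail g) := by
  rw [mu, ιMulti_succ_apply]
  rfl

lemma mu_zero (g : Fin 0 → K) : mu 0 g = 1 := by
  rw [mu, ιMulti_zero_apply]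

lemma one_mem_W {I : Finset (Fin 6)} {Γ : Set ℤ} (h : (0 : ℤ) ∈ Γ) : (1 : LamO) ∈ W 0 I Γ := by
  refine mem_W.2 ⟨(1 : K) • eM 0 (fun a => Fin.elim0 a), ?_, ?_⟩
  · exact gen_mem (f := (1 : K)) (one_mem_V h) _
  · rw [one_smul, eM_zero, map_one]

/-- the degrees of the coefficients of the `p`-forms of degree `0, 3, …` -/
def GG0 (p : ℕ) : Set ℤ := sh (-(p : ℤ)) G0

/-- the degrees of the coefficients of the `p`-forms of degree `3, 6, …` -/
def GGp (p : ℕ) : Set ℤ := sh (-(p : ℤ)) Gp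

lemma mem_GG0 {p : ℕ} {a : ℤ} : a ∈ GG0 p ↔ 0 ≤ a + p ∧ (3 : ℤ) ∣ a + p := by
  change a - (-(p : ℤ)) ∈ G0 ↔ _
  rw [sub_neg_eq_add]
  exact Iff.rfl

lemma mem_GGp {p : ℕ} {a : ℤ} : a ∈ GGp p ↔ 0 < a + p ∧ (3 : ℤ) ∣ a + p := by
  change a - (-(p : ℤ)) ∈ Gp ↔ _
  rw [sub_neg_eq_add]
  exact Iff.rfl

lemma mu_mem {I : Finset (Fin 6)} (p : ℕ) (g : Fin p → K) (hg : ∀ i, g i ∈ V I G0) :
    mu p g ∈ W p I (GG0 p) := by
  induction p with
  | zero =>
    rw [mu_zero]
    exact one_mem_W (mem_GG0.2 (by simp))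
  | succ p ih =>
    rw [mu_succ]
    refine W_D ?_ (hg 0) (ih (Fin.tail g) fun i => hg i.succ)
    intro a ha b hb
    rw [mem_GG0] at hb ⊢
    have h1 : 0 ≤ a := ha.1
    have h2 : (3 : ℤ) ∣ a := ha.2
    push_cast
    omega

lemma Gsub : G0 \ {0} ⊆ Gp := by
  rintro a ⟨⟨h1, h2⟩, h3⟩
  have h4 : a ≠ 0 := h3
  exact ⟨by omega, h2⟩

lemma pr_mem_G0 {I : Finset (Fin 6)} {f : K} (hf : f ∈ V I G0) : pr f ∈ V I G0 :=
  V_mono (Finset.Subset.refl _) zero_sub_G0 (pr_mem hf)

lemma mu_sub_mem {I : Finset (Fin 6)} (p : ℕ) (g : Fin p → K) (hg : ∀ i, g i ∈ V I G0) :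
    mu p g - mu p (fun i => pr (g i)) ∈ W p I (GGp p) := by
  induction p with
  | zero =>
    rw [mu_zero, mu_zero, sub_self]
    exact AddSubgroup.zero_mem _
  | succ p ih =>
    have e : mu (p + 1) g - mu (p + 1) (fun i => pr (g i)) =
        ι K (D ℂ K (g 0 - pr (g 0))) * mu p (Fin.tail g) +
        ι K (D ℂ K (pr (g 0))) * (mu p (Fin.tail g) - mu p (fun i => pr (Fin.tail g i))) := by
      rw [mu_succ, mu_succ, map_sub, map_sub, sub_mul, mul_sub]
      have e2 : (Fin.tail fun i => pr (g i)) = fun i => pr (Fin.tail g i) := rfl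
      rw [e2]
      abel
    rw [e]
    refine AddSubgroup.add_mem _ ?_ ?_
    · refine W_D ?_ (V_mono (Finset.Subset.refl _) Gsub (sub_pr_mem (hg 0)))
        (mu_mem p (Fin.tail g) fun i => hg i.succ)
      intro a ha b hb
      rw [mem_GG0] at hb
      rw [mem_GGp]
      have h1 : 0 < a := ha.1
      have h2 : (3 : ℤ) ∣ a := ha.2
      push_cast
      omega
    · refine W_D ?_ (pr_mem (hg 0)) (ih (Fin.tail g) fun i => hg i.succ)
      rintro a rfl b hb
      rw [mem_GGp] at hb ⊢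
      push_cast
      omega

lemma mu_smul_sub_mem {I : Finset (Fin 6)} (p : ℕ) (a : K) (ha : a ∈ V I G0) (g : Fin p → K)
    (hg : ∀ i, g i ∈ V I G0) :
    a • mu p g - pr a • mu p (fun i => pr (g i)) ∈ W p I (GGp p) := by
  have e : a • mu p g - pr a • mu p (fun i => pr (g i)) = (a - pr a) • mu p g +
      pr a • (mu p g - mu p (fun i => pr (g i))) := by
    rw [sub_smul, smul_sub]
    abel
  rw [e]
  refine AddSubgroup.add_mem _ ?_ ?_
  · refine W_smul ?_ (V_mono (Finset.Subset.refl _) Gsub (sub_pr_mem ha)) (mu_mem p g hg)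
    intro a ha b hb
    rw [mem_GG0] at hb
    rw [mem_GGp]
    have h1 : 0 < a := ha.1
    have h2 : (3 : ℤ) ∣ a := ha.2
    omega
  · refine W_smul ?_ (pr_mem ha) (mu_sub_mem p g hg)
    rintro a rfl b hb
    rw [zero_add]
    exact hb

section

variable {A B : Type} [CommRing A] [CommRing B] [Algebra ℂ A] [Algebra ℂ B]

lemma J_smul (p : ℕ) (f : A →ₐ[ℂ] B) (c : A) (η : ⋀[A]^p Ω[A⁄ℂ]) :
    J p f (c • η) = f c • J p f η := by
  change ((fM p f (c • η) : ⋀[B]^p Ω[B⁄ℂ]) : ExteriorAlgebra B Ω[B⁄ℂ]) = _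
  rw [fM_smul]
  rfl

/-- elements of the kernel of the restriction to the exceptional divisor -/
lemma J_mem_of_ker {p : ℕ} {I : Finset (Fin 6)} (f : A →ₐ[ℂ] K) (π : A →ₐ[ℂ] B)
    (s : B →ₐ[ℂ] A) (hf : ∀ a, f a ∈ V I G0) (hs : ∀ a, f (s (π a)) = pr (f a))
    {ω : ⋀[A]^p Ω[A⁄ℂ]} (hω : fM p π ω = 0) : J p f ω ∈ W p I (GGp p) := by
  have h1 : (J p f - (J p f).comp (fM p (s.comp π))) ω ∈ W p I (GGp p) := by
    refine form_mem (J p f - (J p f).comp (fM p (s.comp π))) _ ?_ ω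
    intro a g
    rw [AddMonoidHom.sub_apply, AddMonoidHom.comp_apply, fM_smul, fM_gen, J_gen,
      J_gen]
    simp only [AlgHom.comp_apply, hs]
    exact mu_smul_sub_mem p (f a) (hf a) _ fun i => hf (g i)
  have h2 : fM p (s.comp π) ω = 0 := by
    rw [← fM_comp, hω, map_zero]
  rw [AddMonoidHom.sub_apply, AddMonoidHom.comp_apply, h2, map_zero, sub_zero] at h1
  exact h1

lemma J_injective_of_basis (p : ℕ) (f : A →ₐ[ℂ] K) (hf : Function.Injective f)
    (b : Module.Basis (Fin 6) A Ω[A⁄ℂ]) (g : Fin 6 → A) (hb : ∀ j, b j = D ℂ A (g j))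
    (hli : LinearIndependent K (fun j => D ℂ K (f (g j)))) : Function.Injective (J p f) := by
  rw [injective_iff_map_eq_zero]
  intro ω hω
  let B := b.exteriorPower p
  have hli' : LinearIndependent K
      (exteriorPower.ιMulti_family K p (fun j => D ℂ K (f (g j)))) :=
    exteriorPower.ιMulti_family_linearIndependent_field p hli
  have hB : ∀ s, J p f (B s) =
      ((exteriorPower.ιMulti_family K p (fun j => D ℂ K (f (g j))) s :
        ⋀[K]^p Ω[K⁄ℂ]) : LamO) := by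
    intro s
    have h1 : B s = (1 : A) • gen p (fun a => g (Set.powersetCard.ofFinEmbEquiv.symm s a)) := by
      rw [one_smul]
      change b.exteriorPower p s = _
      rw [exteriorPower.basis_apply, exteriorPower.ιMulti_family, gen]
      congr 1
      funext a
      exact hb _
    rw [h1, J_gen, map_one, one_smul]
    rfl
  have hsum : ω = ∑ s, B.repr ω s • B s := (B.sum_repr ω).symm
  have h2 : ∑ s, f (B.repr ω s) •
      exteriorPower.ιMulti_family K p (fun j => D ℂ K (f (g j))) s = 0 := by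
    apply Subtype.ext
    have h5 : J p f (∑ s, B.repr ω s • B s) = 0 := by rw [← hsum, hω]
    rw [map_sum] at h5
    simp only [J_smul, hB] at h5
    rw [Submodule.coe_zero, ← h5, Submodule.coe_sum]
    rfl
  have h3 := Fintype.linearIndependent_iff.1 hli' _ h2
  have h4 : ∀ s, B.repr ω s = 0 := fun s => hf (by rw [h3 s, map_zero])
  rw [hsum]
  simp only [h4, zero_smul, Finset.sum_const_zero]

end

/-- the map to the forms on the function field -/
noncomputable def JJ (p : ℕ) (α : Finset NN) : (⋀[AA α]^p Ω[AA α⁄ℂ]) →+ LamO :=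
  J p (emb α)

lemma JJ_gen (p : ℕ) (α : Finset NN) (a : AA α) (g : Fin p → AA α) :
    JJ p α (a • gen p g) = emb α a • mu p (fun i => emb α (g i)) := J_gen p (emb α) a g

lemma er_insert (α : Finset NN) : er (insert none α) = er α := by
  ext k
  rw [mem_er, mem_er, Finset.mem_insert]
  simp

/-- elements of the kernel of the restriction to the exceptional divisor -/
lemma JJ_mem {p : ℕ} {α β : Finset NN} (hα : none ∉ α) (hαβ : α ⊆ β) (hb : none ∈ β)
    (her : er β = er α) {ω : ⋀[AA α]^p Ω[AA α⁄ℂ]} (hω : fM p (rs hαβ) ω = 0) :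
    JJ p α ω ∈ W p (er α) (GGp p) := by
  refine J_mem_of_ker (emb α) (rs hαβ) (inc her.le hb) (fun a => mem_VG hα (emb_mem α a)) ?_ hω
  intro a
  rw [emb_inc, emb_rs, Tm_pos hb]

lemma JJ_rs (p : ℕ) {α β : Finset NN} (h : α ⊆ β) (hb : none ∉ β)
    (ω : ⋀[AA α]^p Ω[AA α⁄ℂ]) : JJ p β (fM p (rs h) ω) = JJ p α ω := by
  rw [JJ, J_comp]
  have : (emb β).comp (rs h) = emb α := by
    apply AlgHom.ext
    intro f
    rw [AlgHom.comp_apply, emb_rs, Tm_neg hb]
    rfl
  rw [this]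
  rfl

lemma JJ_injective (p : ℕ) {α : Finset NN} (hα : none ∉ α) (h : α.Nonempty) :
    Function.Injective (JJ p α) := by
  obtain ⟨i, hi⟩ := er_nonempty hα h
  have hg : ∀ S : Subalgebra ℂ K, S = U (er α) → ∀ h : ∀ j, tau6 i j ∈ S,
      ∃ b : Module.Basis (Fin 6) S Ω[S⁄ℂ], ∀ j, b j = D ℂ S ⟨tau6 i j, h j⟩ := by
    intro S hS h
    subst hS
    exact basis_U hi
  have hmem : ∀ j, tau6 i j ∈ sub α := by
    intro j
    rw [sub_eq_U hα]
    exact tau6_mem hi j
  obtain ⟨b, hb⟩ := hg (sub α) (sub_eq_U hα) hmem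
  exact J_injective_of_basis (A := AA α) p (emb α) (emb_injective α) b
    (fun j => mkA (hmem j)) hb (li_Dtau i)

end Pool.Agent.H907R3
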