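import Pool.Agent.H907R3.Ident

set_option autoImplicit false

namespace Pool.Agent.H907R3

open ExteriorAlgebra KaehlerDifferential

/-- the forms that vanish on the exceptional divisor -/
noncomputable def Kr (p : ℕ) (α : Finset NN) : AddSubgroup (⋀[AA α]^p Ω[AA α⁄ℂ]) where
  carrier := {ω | ∀ (β : Finset NN) (h : α ⊆ β), none ∈ β → fM p (rs h) ω = 0}
  zero_mem' := fun β h _ => map_zero _
  add_mem' := fun ha hb β h hn => by rw [map_add, ha β h hn, hb β h hn, add_zero]
  neg_mem' := fun ha β h hn => by rw [map_neg, ha β h hn, neg_zero]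

lemma mem_Kr {p : ℕ} {α : Finset NN} {ω : ⋀[AA α]^p Ω[AA α⁄ℂ]} :
    ω ∈ Kr p α ↔ ∀ (β : Finset NN) (h : α ⊆ β), none ∈ β → fM p (rs h) ω = 0 := Iff.rfl

/-- the image in the forms on the function field -/
noncomputable def KI (p : ℕ) (α : Finset NN) : AddSubgroup LamO := (Kr p α).map (JJ p α)

lemma D_y {i : Fin 6} (l : Fin 7) : D ℂ K (y l) = x i • D ℂ K (y l / x i) +
    (y l / (3 * x i ^ 3)) • D ℂ K (x i ^ 3) := by
  have hi := x_ne i
  have h1 : D ℂ K (y l) = D ℂ K (x i * (y l / x i)) := by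
    congr 1
    field_simp
  rw [h1, Derivation.leibniz, Derivation.leibniz_pow, ← Nat.cast_smul_eq_nsmul K, smul_smul,
    smul_smul]
  congr 2
  push_cast
  have h3 : (3 : K) ≠ 0 := three_ne_zero
  field_simp

lemma mu_expand {i : Fin 6} (p : ℕ) (k : Fin p → Fin 7) :
    mu p (fun a => y (k a)) = ∑ s : Finset (Fin p),
      (∏ a, (if a ∈ s then x i else y (k a) / (3 * x i ^ 3))) •
        mu p (fun a => if a ∈ s then y (k a) / x i else x i ^ 3) := by
  have h1 : mu p (fun a => y (k a)) = (ExteriorAlgebra.ιMulti K p).toMultilinearMap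
      ((fun a => x i • D ℂ K (y (k a) / x i)) +
        (fun a => (y (k a) / (3 * x i ^ 3)) • D ℂ K (x i ^ 3))) := by
    change ExteriorAlgebra.ιMulti K p _ = ExteriorAlgebra.ιMulti K p _
    congr 1
    funext a
    exact D_y (k a)
  rw [h1, MultilinearMap.map_add_univ]
  refine Finset.sum_congr rfl fun s _ => ?_
  have h2 : s.piecewise (fun a => x i • D ℂ K (y (k a) / x i))
      (fun a => (y (k a) / (3 * x i ^ 3)) • D ℂ K (x i ^ 3)) =
      fun a => (if a ∈ s then x i else y (k a) / (3 * x i ^ 3)) •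
        D ℂ K (if a ∈ s then y (k a) / x i else x i ^ 3) := by
    funext a
    by_cases ha : a ∈ s
    · simp [Finset.piecewise, ha]
    · simp [Finset.piecewise, ha]
  rw [h2, MultilinearMap.map_smul_univ]
  rfl

lemma y_mem (l : Fin 7) : y l ∈ V ∅ {1} := by
  refine Fin.lastCases ?_ (fun i => ?_) l
  · rw [y_last]
    exact z_mem
  · rw [y_castSucc]
    exact x_mem _

lemma xinv_pow_mem {I : Finset (Fin 6)} {i : Fin 6} (hi : i ∈ I) :
    (x i ^ 3)⁻¹ ∈ V I {-3} := by
  have h : (x i ^ 3)⁻¹ = mon (Pi.single i (-3)) 0 := by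
    rw [mon_single, zpow_neg]
    rfl
  rw [h]
  apply mon_mem
  · intro l hl
    rw [Pi.single_eq_of_ne]
    rintro rfl
    exact hl hi
  · rw [Finset.sum_pi_single']
    simp

lemma coef_mem {I : Finset (Fin 6)} {i : Fin 6} (hi : i ∈ I) (l : Fin 7) :
    y l / (3 * x i ^ 3) ∈ V I {-2} := by
  have e : y l / (3 * x i ^ 3) = (3 : ℂ)⁻¹ • (y l * (x i ^ 3)⁻¹) := by
    rw [Algebra.smul_def, map_inv₀, map_ofNat]
    have hi := x_ne i
    have h3 : (3 : K) ≠ 0 := three_ne_zero
    field_simp
  rw [e]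
  refine Submodule.smul_mem _ _ (V_mul (Finset.empty_subset I) (Finset.Subset.refl I) ?_
    (y_mem l) (xinv_pow_mem hi))
  rintro a rfl b rfl
  rfl

lemma prod_coef_mem {I : Finset (Fin 6)} {i : Fin 6} (hi : i ∈ I) {p : ℕ} (k : Fin p → Fin 7)
    (s t : Finset (Fin p)) :
    (∏ a ∈ t, (if a ∈ s then x i else y (k a) / (3 * x i ^ 3))) ∈
      V I {∑ a ∈ t, if a ∈ s then (1 : ℤ) else -2} := by
  induction t using Finset.induction_on with
  | empty =>
    rw [Finset.prod_empty, Finset.sum_empty]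
    exact one_mem_V rfl
  | insert b t hb ih =>
    rw [Finset.prod_insert hb, Finset.sum_insert hb]
    have h1 : (if b ∈ s then x i else y (k b) / (3 * x i ^ 3)) ∈
        V I {if b ∈ s then (1 : ℤ) else -2} := by
      split_ifs
      · exact V_mono (Finset.empty_subset I) (Set.Subset.refl _) (x_mem i)
      · exact coef_mem hi _
    refine V_mul (Finset.Subset.refl I) (Finset.Subset.refl I) ?_ h1 ih
    rintro a rfl b rfl
    rfl

lemma ydiv_mem {I : Finset (Fin 6)} {i : Fin 6} (hi : i ∈ I) (l : Fin 7) :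
    y l / x i ∈ V I {0} := by
  rw [div_eq_mul_inv]
  exact V_mul (Finset.empty_subset I) (Finset.Subset.refl I)
    (by rintro a rfl b rfl; rfl) (y_mem l) (x_inv_mem hi)

lemma mem_sub_of {α : Finset NN} (hα : none ∉ α) {f : K} (hf : f ∈ V (er α) G0) : f ∈ sub α := by
  rw [sub_eq_U hα]
  exact hf

lemma cube_mem_sub {α : Finset NN} (hα : none ∉ α) (i : Fin 6) : x i ^ 3 ∈ sub α :=
  mem_sub_of hα (V_mono (Finset.empty_subset _)
    (by rintro _ rfl; exact ⟨by norm_num, dvd_refl _⟩) (cube_mem i))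

lemma rs_zero_of_pos {α β : Finset NN} (h : α ⊆ β) (hb : none ∈ β) {f : K} (hf : f ∈ sub α)
    {I : Finset (Fin 6)} {Γ : Set ℤ} (hΓ : (0 : ℤ) ∉ Γ) (hf' : f ∈ V I Γ) :
    rs h (mkA hf) = 0 := by
  apply emb_injective
  rw [emb_rs, Tm_pos hb, emb_mk, pr_pos hΓ hf', map_zero]

lemma KI_gen {p : ℕ} {α : Finset NN} (hα : none ∉ α) {i : Fin 6} (hi : i ∈ er α) {f : K}
    (hf : f ∈ V (er α) (GGp p)) (k : Fin p → Fin 7) :
    f • mu p (fun a => y (k a)) ∈ KI p α := by
  rw [mu_expand (i := i), Finset.smul_sum]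
  refine AddSubgroup.sum_mem _ fun s _ => ?_
  rw [smul_smul]
  have hu : ∀ a, (if a ∈ s then y (k a) / x i else x i ^ 3) ∈ sub α := by
    intro a
    split_ifs
    · exact mem_sub_of hα (V_mono (Finset.Subset.refl _) zero_sub_G0 (ydiv_mem hi _))
    · exact cube_mem_sub hα i
  have hprod := prod_coef_mem hi k s Finset.univ
  by_cases h1 : ∃ a b, a ≠ b ∧ a ∉ s ∧ b ∉ s
  · obtain ⟨a, b, hab, ha, hb⟩ := h1
    have h0 : mu p (fun a => if a ∈ s then y (k a) / x i else x i ^ 3) = 0 := by
      rw [mu]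
      apply (ExteriorAlgebra.ιMulti K p).map_eq_zero_of_eq _ _ hab
      simp only [if_neg ha, if_neg hb]
    rw [h0, smul_zero]
    exact AddSubgroup.zero_mem _
  · push Not at h1
    by_cases h2 : ∃ a, a ∉ s
    · obtain ⟨a₀, ha₀⟩ := h2
      have h3 : ∀ a, a ∈ s ↔ a ≠ a₀ := by
        intro a
        constructor
        · rintro ha rfl
          exact ha₀ ha
        · intro ha
          by_contra hc
          exact hc (h1 a₀ a (Ne.symm ha) ha₀)
      have hsum : (∑ a, if a ∈ s then (1 : ℤ) else -2) = p - 3 := by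
        have h4 : ∀ a, (if a ∈ s then (1 : ℤ) else -2) = 1 + if a = a₀ then -3 else 0 := by
          intro a
          by_cases h : a = a₀
          · rw [if_neg (by rw [h3]; simpa using h), if_pos h]
            rfl
          · rw [if_pos ((h3 a).2 h), if_neg h]
            rfl
        simp only [h4, Finset.sum_add_distrib, Finset.sum_ite_eq', Finset.mem_univ, if_true]
        simp
        ring
      rw [hsum] at hprod
      have hC : f * (∏ a, (if a ∈ s then x i else y (k a) / (3 * x i ^ 3))) ∈ sub α := by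
        apply mem_sub_of hα
        refine V_mul (Finset.Subset.refl _) (Finset.Subset.refl _) ?_ hf hprod
        rintro a ha b rfl
        rw [mem_GGp] at ha
        refine ⟨?_, ?_⟩ <;> omega
      refine ⟨mkA hC • gen p (fun a => mkA (hu a)), ?_, ?_⟩
      · intro β h hb
        rw [fM_smul, fM_gen]
        have h5 : gen p (fun a => rs h (mkA (hu a))) = 0 := by
          rw [gen]
          apply AlternatingMap.map_coord_zero _ a₀
          have h6 : rs h (mkA (hu a₀)) = 0 := by
            refine rs_zero_of_pos h hb (hu a₀) (I := ∅) (Γ := {3}) (by simp) ?_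
            rw [if_neg ha₀]
            exact cube_mem i
          rw [h6, map_zero]
        rw [h5, smul_zero]
      · rw [JJ_gen]
        rfl
    · push Not at h2
      have hsum : (∑ a, if a ∈ s then (1 : ℤ) else -2) = p := by
        simp only [h2, if_true]
        simp
      rw [hsum] at hprod
      have hC' : f * (∏ a, (if a ∈ s then x i else y (k a) / (3 * x i ^ 3))) ∈ V (er α) Gp := by
        refine V_mul (Finset.Subset.refl _) (Finset.Subset.refl _) ?_ hf hprod
        rintro a ha b rfl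
        rw [mem_GGp] at ha
        exact ha
      have hC : f * (∏ a, (if a ∈ s then x i else y (k a) / (3 * x i ^ 3))) ∈ sub α :=
        mem_sub_of hα (V_mono (Finset.Subset.refl _)
          (fun a (ha : a ∈ Gp) => (⟨ha.1.le, ha.2⟩ : a ∈ G0)) hC')
      refine ⟨mkA hC • gen p (fun a => mkA (hu a)), ?_, ?_⟩
      · intro β h hb
        rw [fM_smul, rs_zero_of_pos h hb hC (fun h => lt_irrefl _ h.1) hC', zero_smul]
      · rw [JJ_gen]
        rfl

lemma W_le_KI {p : ℕ} {α : Finset NN} (hα : none ∉ α) (hne : α.Nonempty) :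
    W p (er α) (GGp p) ≤ KI p α := by
  obtain ⟨i, hi⟩ := er_nonempty hα hne
  intro w hw
  obtain ⟨t, ht, rfl⟩ := mem_W.1 hw
  refine T_map (Phi : Lam →+ LamO) (KI p α) (fun f hf k => ?_) ht
  change Phi (f • eM p k) ∈ _
  rw [map_smul, Phi_eM]
  exact KI_gen hα hi hf k

end Pool.Agent.H907R3
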