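import Pool.Agent.H907R3.Fld

set_option autoImplicit false

namespace Pool.Agent.H907R3

open MvPolynomial KaehlerDifferential

section

variable {σ : Type} [Fintype σ] [DecidableEq σ] (t : σ → K)

lemma D_aeval (f : MvPolynomial σ ℂ) :
    D ℂ K (aeval t f) = ∑ j, aeval t (pderiv j f) • D ℂ K (t j) := by
  induction f using MvPolynomial.induction_on with
  | C a => simp
  | add p q hp hq => simp only [map_add, hp, hq, add_smul, Finset.sum_add_distrib]
  | mul_X p n hp =>
    rw [map_mul, aeval_X, Derivation.leibniz, hp]
    simp only [pderiv_mul, map_add, map_mul, add_smul, Finset.sum_add_distrib, pderiv_X, aeval_X]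
    rw [add_comm, Finset.smul_sum]
    congr 1
    · refine Finset.sum_congr rfl fun j _ => ?_
      rw [smul_smul, mul_comm]
    · rw [Finset.sum_eq_single n]
      · simp
      · intro j _ hj
        rw [Pi.single_apply, if_neg hj.symm]
        simp
      · simp

omit [Fintype σ] [DecidableEq σ] in
lemma pderiv_totalDegree (f : MvPolynomial σ ℂ) (j : σ) (h : pderiv j f ≠ 0) :
    (pderiv j f).totalDegree < f.totalDegree := by
  obtain ⟨m, hm, hmd⟩ : ∃ m ∈ (pderiv j f).support, (pderiv j f).totalDegree = m.degree := by
    have := Finset.exists_mem_eq_sup (pderiv j f).support (support_nonempty.2 h)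
      (fun s => s.degree)
    obtain ⟨m, hm, h2⟩ := this
    refine ⟨m, hm, ?_⟩
    rw [← h2]
    rfl
  rw [hmd]
  rw [mem_support_iff, coeff_pderiv] at hm
  have h2 : m + Finsupp.single j 1 ∈ f.support := by
    rw [mem_support_iff]
    intro h0
    rw [h0] at hm
    simp at hm
  have h3 := le_totalDegree h2
  have h4 : (m + Finsupp.single j 1).degree = m.degree + 1 := by
    rw [map_add, Finsupp.degree_single]
  have h5 : ((m + Finsupp.single j 1).sum fun _ e => e) = (m + Finsupp.single j 1).degree := by
    rfl
  rw [h5, h4] at h3
  omega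

omit [Fintype σ] in
lemma eq_C_of_pderiv (f : MvPolynomial σ ℂ) (h : ∀ j, pderiv j f = 0) : f = C (coeff 0 f) := by
  ext m
  rw [coeff_C]
  split_ifs with hm
  · rw [← hm]
  · have : ∃ j, m j ≠ 0 := by
      by_contra hc
      push Not at hc
      exact hm (Finsupp.ext fun j => (hc j).symm)
    obtain ⟨j, hj⟩ := this
    have h1 := congrArg (coeff (m - Finsupp.single j 1)) (h j)
    rw [coeff_pderiv, coeff_zero] at h1
    have h2 : m - Finsupp.single j 1 + Finsupp.single j 1 = m := by
      apply tsub_add_cancel_of_le
      rw [Finsupp.single_le_iff]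
      omega
    rw [h2] at h1
    rcases mul_eq_zero.1 h1 with h3 | h3
    · exact h3
    · exfalso
      exact Nat.cast_add_one_ne_zero _ h3

/-- elements with linearly independent differentials are algebraically independent -/
lemma algInd (h : LinearIndependent K (fun j => D ℂ K (t j))) : AlgebraicIndependent ℂ t := by
  rw [algebraicIndependent_iff]
  intro f
  induction hn : f.totalDegree using Nat.strong_induction_on generalizing f with
  | _ n ih =>
    intro hf
    have h1 := D_aeval t f
    rw [hf, map_zero] at h1
    have h2 := Fintype.linearIndependent_iff.1 h _ h1.symm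
    have h3 : ∀ j, pderiv j f = 0 := by
      intro j
      by_contra hc
      exact hc (ih _ (hn ▸ pderiv_totalDegree f j hc) (pderiv j f) rfl (h2 j))
    have h4 := eq_C_of_pderiv f h3
    rw [h4] at hf ⊢
    rw [aeval_C] at hf
    have : coeff 0 f = 0 := by
      apply (algebraMap ℂ K).injective
      rw [hf, map_zero]
    rw [this, map_zero]

end

end Pool.Agent.H907R3
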