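import Pool.Agent.H907R3.Vsp

set_option autoImplicit false

namespace Pool.Agent.H907R3

open MvPolynomial KaehlerDifferential

/-- the partner of an index: the pairs are `(0,3)`, `(1,4)`, `(2,5)` -/
def par : Fin 6 → Fin 6 := ![3, 4, 5, 0, 1, 2]

lemma par_par (i : Fin 6) : par (par i) = i := by revert i; decide

lemma par_ne (i : Fin 6) : par i ≠ i := by revert i; decide

lemma grad_castSucc (i : Fin 6) : grad i.castSucc = x (par i) := by
  fin_cases i <;> rfl

/-- the local coordinates at the chart `i` -/
noncomputable def tau6 (i j : Fin 6) : K :=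
  if j = i then x i ^ 3 else if j = par i then z / x i else x j / x i

lemma D_div (a b : K) (hb : b ≠ 0) :
    D ℂ K (a / b) = b⁻¹ • D ℂ K a - (a * b⁻¹ ^ 2) • D ℂ K b := by
  have h : D ℂ K (a / b * b) = D ℂ K a := by rw [div_mul_cancel₀ _ hb]
  rw [Derivation.leibniz] at h
  rw [← h, smul_add, smul_smul, smul_smul, inv_mul_cancel₀ hb, one_smul]
  have e : b⁻¹ * (a / b) = a * b⁻¹ ^ 2 := by field_simp
  rw [e]
  abel

lemma li_Dtau (i : Fin 6) : LinearIndependent K (fun j => D ℂ K (tau6 i j)) := by
  rw [Fintype.linearIndependent_iff]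
  intro α hα
  let w : Fin 6 → K := fun j => if j = par i then z else x j
  let c : Fin 6 → K := fun j => if j = i then 3 * x i ^ 2 * α i else -(α j * w j * (x i)⁻¹ ^ 2)
  let d : Fin 6 → K := fun j => if j = par i then α (par i) * (x i)⁻¹ else 0
  let g : Fin 6 → K := fun j => if j = i then 0 else if j = par i then 0 else α j * (x i)⁻¹
  have hpi : par i ≠ i := par_ne i
  have hterm : ∀ j, α j • D ℂ K (tau6 i j) = g j • D ℂ K (x j) + c j • D ℂ K (x i) +
      d j • D ℂ K z := by
    intro j
    simp only [tau6, g, c, d, w]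
    split_ifs with h1 h2 h2
    · exact absurd (h1 ▸ h2) hpi.symm
    · subst h1
      rw [Derivation.leibniz_pow]
      simp only [zero_smul, zero_add, add_zero]
      rw [← Nat.cast_smul_eq_nsmul K, smul_smul, smul_smul]
      congr 1
      push_cast
      ring
    · subst h2
      rw [D_div _ _ (x_ne i), zero_smul, zero_add, smul_sub, smul_smul, smul_smul, neg_smul]
      rw [add_comm, sub_eq_add_neg]
      congr 2
      ring_nf
    · rw [D_div _ _ (x_ne i), zero_smul, add_zero, smul_sub, smul_smul, smul_smul, neg_smul,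
        sub_eq_add_neg]
      congr 2
      ring_nf
  have hf : ∑ k, (Fin.snoc (α := fun _ => K) (fun j => g j + if j = i then ∑ j, c j else 0)
      (∑ j, d j) : Fin 7 → K) k • D ℂ K (y k) = 0 := by
    rw [Fin.sum_univ_castSucc]
    simp only [Fin.snoc_castSucc, Fin.snoc_last, y_castSucc, y_last, add_smul,
      Finset.sum_add_distrib]
    rw [← hα]
    simp only [hterm, Finset.sum_add_distrib, ← Finset.sum_smul]
    congr 2
    rw [Finset.sum_eq_single i]
    · rw [if_pos rfl]
    · intro j _ hj
      rw [if_neg hj, zero_smul]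
    · simp
  obtain ⟨r, hr⟩ := rel_D _ hf
  have h1 := hr (par i).castSucc
  rw [Fin.snoc_castSucc, grad_castSucc, par_par, if_neg hpi] at h1
  have hr0 : r = 0 := by
    simp only [g, if_neg hpi, if_true, add_zero] at h1
    rcases mul_eq_zero.1 h1.symm with h | h
    · exact h
    · exact absurd h (x_ne i)
  subst hr0
  have h2 := hr (Fin.last 6)
  rw [Fin.snoc_last, zero_mul] at h2
  have hd : α (par i) = 0 := by
    simp only [d, Finset.sum_ite_eq', Finset.mem_univ, if_true] at h2
    rcases mul_eq_zero.1 h2 with h | h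
    · exact h
    · exact absurd h (inv_ne_zero (x_ne i))
  have h3 : ∀ j, j ≠ i → j ≠ par i → α j = 0 := by
    intro j hj hj'
    have := hr j.castSucc
    rw [Fin.snoc_castSucc, zero_mul] at this
    simp only [g, if_neg hj, if_neg hj', add_zero] at this
    rcases mul_eq_zero.1 this with h | h
    · exact h
    · exact absurd h (inv_ne_zero (x_ne i))
  have h4 : α i = 0 := by
    have := hr i.castSucc
    rw [Fin.snoc_castSucc, zero_mul] at this
    simp only [g, if_true, zero_add] at this
    rw [Finset.sum_eq_single i] at this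
    · simp only [c, if_true] at this
      have h5 : (3 : K) * x i ^ 2 ≠ 0 := mul_ne_zero three_ne_zero (pow_ne_zero _ (x_ne i))
      rcases mul_eq_zero.1 this with h | h
      · exact absurd h h5
      · exact h
    · intro j _ hj
      simp only [c, if_neg hj]
      by_cases hj' : j = par i
      · rw [hj', hd]; ring
      · rw [h3 j hj hj']; ring
    · simp
  intro j
  by_cases hj : j = i
  · rw [hj, h4]
  · by_cases hj' : j = par i
    · rw [hj', hd]
    · exact h3 j hj hj'

lemma algInd_tau (i : Fin 6) : AlgebraicIndependent ℂ (tau6 i) := algInd _ (li_Dtau i)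

end Pool.Agent.H907R3
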