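import Pool.Agent.H907R3.Cech
import Pool.Agent.H907R3.Tau
import Pool.Agent.H907R3.ExtG

set_option autoImplicit false

namespace Pool.Agent.H907R3

open ExteriorAlgebra KaehlerDifferential

open Classical in
/-- an index with nonnegative exponent -/
noncomputable def jj (i : Idx) : Fin 6 := if h : ∃ k, 0 ≤ i.1 k then h.choose else 0

lemma jj_spec {i : Idx} (h : -5 < deg i) : 0 ≤ i.1 (jj i) := by
  have : ∃ k, 0 ≤ i.1 k := by
    by_contra hc
    push Not at hc
    have h1 : ∑ k, i.1 k ≤ ∑ k : Fin 6, (-1 : ℤ) :=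
      Finset.sum_le_sum fun k _ => by have := hc k; omega
    have h2 : ((i.2 : ℕ) : ℤ) ≤ 1 := by have := i.2.isLt; omega
    rw [deg] at h
    simp at h1
    omega
  rw [jj, dif_pos this]
  exact this.choose_spec

/-- the projections used in the contraction -/
noncomputable def pj (j : Fin 6) : K →+ K := (proj {i | jj i = j}).toAddMonoidHom

lemma pj_mem {Γ : Set ℤ} (hΓ : ∀ d ∈ Γ, -5 < d) {j : Fin 6} {I : Finset (Fin 6)} {f : K}
    (hf : f ∈ V (insert j I) Γ) : pj j f ∈ V I Γ := by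
  have h : ∀ i ∈ S (insert j I) Γ, i ∈ {i | jj i = j} → i ∈ S I Γ := by
    intro i hi hj
    refine ⟨fun k hk => ?_, hi.2⟩
    by_cases hkj : k = j
    · have h1 := jj_spec (hΓ _ hi.2)
      rw [(show jj i = j from hj)] at h1
      rw [hkj]
      exact h1
    · apply hi.1
      simp [hkj, hk]
  exact proj_mem h hf

open Classical in
lemma sum_pj {Γ : Set ℤ} {I : Finset (Fin 6)} {f : K} (hf : f ∈ V I Γ) : ∑ j, pj j f = f := by
  refine V_induction (fun f => ∑ j, pj j f = f) ?_ ?_ ?_ ?_ hf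
  · intro i _
    have h : ∀ j, pj j (nf i) = if j = jj i then nf i else 0 := by
      intro j
      change proj {i | jj i = j} (nf i) = _
      rw [proj_nf]
      by_cases hj : jj i = j
      · rw [if_pos (show i ∈ {i | jj i = j} from hj), if_pos hj.symm]
      · rw [if_neg (show i ∉ {i | jj i = j} from hj), if_neg (fun h => hj h.symm)]
    simp only [h, Finset.sum_ite_eq', Finset.mem_univ, if_true]
  · simp
  · intro f g hf hg
    simp only [map_add, Finset.sum_add_distrib, hf, hg]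
  · intro c f hf
    have h : ∀ j, pj j (c • f) = c • pj j f := fun j => map_smul (proj {i | jj i = j}) c f
    simp only [h, ← Finset.smul_sum, hf]

/-- the exterior algebra of the trivial bundle with the frame `dx₀, …, dx₅, dz` -/
abbrev Lam : Type := ExteriorAlgebra K (Fin 7 → K)

/-- shift of degrees -/
def sh (d : ℤ) (Γ : Set ℤ) : Set ℤ := {a | a - d ∈ Γ}

/-- the forms of degree `p` on the ambient space with coefficients in `V I Γ` -/
noncomputable def T (p : ℕ) (I : Finset (Fin 6)) (Γ : Set ℤ) : AddSubgroup Lam :=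
  AddSubgroup.closure {ω | ∃ f ∈ V I Γ, ∃ k : Fin p → Fin 7, ω = f • eM p k}

lemma gen_mem {p : ℕ} {I : Finset (Fin 6)} {Γ : Set ℤ} {f : K} (hf : f ∈ V I Γ)
    (k : Fin p → Fin 7) : (f • eM p k : Lam) ∈ T p I Γ :=
  AddSubgroup.subset_closure ⟨f, hf, k, rfl⟩

/-- an additive map that maps the generators to a subgroup -/
lemma T_map {F : Type} [AddCommGroup F] {p : ℕ} {I : Finset (Fin 6)} {Γ : Set ℤ} (φ : Lam →+ F)
    (W : AddSubgroup F) (h : ∀ f ∈ V I Γ, ∀ k : Fin p → Fin 7, φ (f • eM p k) ∈ W) {ω : Lam}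
    (hω : ω ∈ T p I Γ) : φ ω ∈ W := by
  have : T p I Γ ≤ W.comap φ := by
    rw [T, AddSubgroup.closure_le]
    rintro _ ⟨f, hf, k, rfl⟩
    exact h f hf k
  exact this hω

/-- two additive maps that agree on the generators -/
lemma T_eq {F : Type} [AddCommGroup F] {p : ℕ} {I : Finset (Fin 6)} {Γ : Set ℤ} (φ ψ : Lam →+ F)
    (h : ∀ f ∈ V I Γ, ∀ k : Fin p → Fin 7, φ (f • eM p k) = ψ (f • eM p k)) {ω : Lam}
    (hω : ω ∈ T p I Γ) : φ ω = ψ ω := by
  have h1 : (φ - ψ) ω ∈ (⊥ : AddSubgroup F) := by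
    refine T_map (φ - ψ) ⊥ (fun f hf k => ?_) hω
    rw [AddSubgroup.mem_bot, AddMonoidHom.sub_apply, h f hf k, sub_self]
  rw [AddSubgroup.mem_bot, AddMonoidHom.sub_apply, sub_eq_zero] at h1
  exact h1

lemma T_mono {p : ℕ} {I J : Finset (Fin 6)} {Γ Γ' : Set ℤ} (hI : I ⊆ J) (hΓ : Γ ⊆ Γ') :
    T p I Γ ≤ T p J Γ' := by
  intro ω hω
  exact T_map (AddMonoidHom.id _) (T p J Γ') (fun f hf k => gen_mem (V_mono hI hΓ hf) k) hω

lemma T_ext {p : ℕ} {I J : Finset (Fin 6)} {Γ Γ' : Set ℤ} (g : K →+ K)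
    (h : ∀ f ∈ V I Γ, g f ∈ V J Γ') {ω : Lam} (hω : ω ∈ T p I Γ) : ext g ω ∈ T p J Γ' := by
  refine T_map (ext g) _ (fun f hf k => ?_) hω
  rw [ext_eM]
  exact gen_mem (h f hf) k

lemma HV_T (p : ℕ) {Γ : Set ℤ} (hΓ : ∀ d ∈ Γ, -5 < d) (n : ℕ) : HV (fun I => T p I Γ) n := by
  refine HV_of_contraction _ (fun j => ext (pj j)) ?_ ?_ n
  · intro j I ω hω
    exact T_ext (pj j) (fun f hf => pj_mem hΓ hf) hω
  · intro I ω hω
    have h1 := T_eq (∑ j, ext (pj j)) (AddMonoidHom.id Lam) (I := I) (Γ := Γ) (p := p) (by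
      intro f hf k
      rw [AddMonoidHom.finsetSum_apply]
      simp only [ext_eM, ← Finset.sum_smul, sum_pj hf]
      rfl) hω
    rw [AddMonoidHom.finsetSum_apply] at h1
    exact h1

lemma x_mem (k : Fin 6) : x k ∈ V ∅ {1} := by
  have h := mon_single k 1
  rw [zpow_one] at h
  rw [← h]
  apply mon_mem
  · intro l _
    rw [Pi.single_apply]
    split_ifs <;> norm_num
  · rw [Finset.sum_pi_single']
    simp

lemma x_inv_mem {I : Finset (Fin 6)} {k : Fin 6} (hk : k ∈ I) : (x k)⁻¹ ∈ V I {-1} := by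
  have h := mon_single k (-1)
  rw [zpow_neg_one] at h
  rw [← h]
  apply mon_mem
  · intro l hl
    rw [Pi.single_eq_of_ne]
    rintro rfl
    exact hl hk
  · rw [Finset.sum_pi_single']
    simp

lemma z_mem : z ∈ V ∅ {1} := by
  rw [← mon_z]
  apply mon_mem
  · intro l _
    exact le_rfl
  · simp

lemma grad_last : grad (Fin.last 6) = (2 : ℂ) • z := by
  have : grad (Fin.last 6) = 2 * z := rfl
  rw [this, Algebra.smul_def, map_ofNat]

lemma grad_mem (l : Fin 7) : grad l ∈ V ∅ {1} := by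
  refine Fin.lastCases ?_ (fun i => ?_) l
  · rw [grad_last]
    exact Submodule.smul_mem _ _ z_mem
  · rw [grad_castSucc]
    exact x_mem _

lemma mul_mem_T {p : ℕ} {I : Finset (Fin 6)} {Γ : Set ℤ} (l : Fin 7) {ω : Lam}
    (hω : ω ∈ T p I Γ) : (ι K (Pi.single l 1) * ω : Lam) ∈ T (p + 1) I Γ := by
  refine T_map (AddMonoidHom.mulLeft (ι K (Pi.single l 1))) _ (fun f hf k => ?_) hω
  rw [AddMonoidHom.coe_mulLeft, mul_smul_comm, eM_cons]
  exact gen_mem hf _

/-- the differential of the equation -/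
noncomputable def gr : Lam := ι K grad

lemma gr_eq : gr = ∑ l, grad l • ι K (Pi.single l 1) := by
  rw [gr]
  simp only [← map_smul, ← map_sum]
  congr 1
  funext a
  simp [Finset.sum_apply, Pi.single_apply]

lemma gr_gr (ω : Lam) : gr * (gr * ω) = 0 := by
  rw [← mul_assoc, gr, ι_sq_zero, zero_mul]

lemma gr_mem {p : ℕ} {I : Finset (Fin 6)} {Γ Γ' : Set ℤ} (h : ∀ d ∈ Γ, d + 1 ∈ Γ') {ω : Lam}
    (hω : ω ∈ T p I Γ) : gr * ω ∈ T (p + 1) I Γ' := by
  refine T_map (AddMonoidHom.mulLeft gr) _ (fun f hf k => ?_) hω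
  rw [AddMonoidHom.coe_mulLeft, gr_eq, Finset.sum_mul]
  refine AddSubgroup.sum_mem _ fun l _ => ?_
  rw [smul_mul_assoc, mul_smul_comm, eM_cons, smul_smul]
  refine gen_mem ?_ _
  refine V_mul (Finset.empty_subset I) (Finset.Subset.refl I) ?_ (grad_mem l) hf
  rintro a rfl b hb
  rw [add_comm]
  exact h b hb

/-- the linear form used for the contraction -/
noncomputable def dl (i : Fin 6) : Module.Dual K (Fin 7 → K) :=
  (x i)⁻¹ • LinearMap.proj (par i).castSucc

lemma dl_grad (i : Fin 6) : dl i grad = 1 := by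
  simp only [dl, LinearMap.smul_apply, LinearMap.proj_apply, smul_eq_mul, grad_castSucc, par_par]
  exact inv_mul_cancel₀ (x_ne i)

/-- the contraction -/
noncomputable def ctr (i : Fin 6) : Lam →ₗ[K] Lam := ctrG (dl i)

lemma ctr_gr (i : Fin 6) (ω : Lam) : ctr i (gr * ω) = ω - gr * ctr i ω := by
  rw [ctr, gr, ctrG_mul, dl_grad, one_smul]

lemma ctr_mem {p : ℕ} {I J : Finset (Fin 6)} {Γ Γ' : Set ℤ} {i : Fin 6} (hIJ : insert i I ⊆ J)
    (h : ∀ d ∈ Γ, d - 1 ∈ Γ') {ω : Lam} (hω : ω ∈ T (p + 1) I Γ) : ctr i ω ∈ T p J Γ' := by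
  induction p generalizing ω with
  | zero =>
    refine T_map (ctr i).toAddMonoidHom _ (fun f hf k => ?_) hω
    change ctr i (f • eM 1 k) ∈ _
    rw [map_smul, eM_succ, ctr, ctrG_mul, eM_zero, ctrG_one, mul_zero, sub_zero, smul_smul,
      ← eM_zero (fun a => Fin.elim0 a)]
    refine gen_mem ?_ _
    rw [dl, LinearMap.smul_apply, LinearMap.proj_apply, Pi.single_apply]
    split_ifs
    · rw [smul_eq_mul, mul_one]
      refine V_mul ((Finset.subset_insert i I).trans hIJ) (Finset.Subset.refl J) ?_ hf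
        (x_inv_mem (hIJ (Finset.mem_insert_self i I)))
      rintro a ha b rfl
      exact h a ha
    · rw [smul_zero, mul_zero]
      exact Submodule.zero_mem _
  | succ p ih =>
    refine T_map (ctr i).toAddMonoidHom _ (fun f hf k => ?_) hω
    change ctr i (f • eM (p + 2) k) ∈ _
    rw [eM_succ, ← mul_smul_comm, ctr, ctrG_mul, smul_smul]
    refine AddSubgroup.sub_mem _ ?_ ?_
    · refine gen_mem ?_ _
      rw [dl, LinearMap.smul_apply, LinearMap.proj_apply, Pi.single_apply]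
      split_ifs
      · rw [smul_eq_mul, mul_one]
        refine V_mul (Finset.Subset.refl J) ((Finset.subset_insert i I).trans hIJ) ?_
          (x_inv_mem (hIJ (Finset.mem_insert_self i I))) hf
        rintro a rfl b hb
        rw [add_comm]
        exact h b hb
      · rw [smul_zero, zero_mul]
        exact Submodule.zero_mem _
    · refine mul_mem_T _ ?_
      exact ih (gen_mem hf _)

/-- the kernel of the multiplication by `gr` -/
noncomputable def Z (p : ℕ) (I : Finset (Fin 6)) (Γ : Set ℤ) : AddSubgroup Lam :=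
  T p I Γ ⊓ (AddMonoidHom.mulLeft gr).ker

lemma mem_Z {p : ℕ} {I : Finset (Fin 6)} {Γ : Set ℤ} {ω : Lam} :
    ω ∈ Z p I Γ ↔ ω ∈ T p I Γ ∧ gr * ω = 0 := Iff.rfl

lemma HV_Z (p : ℕ) {Γ : Set ℤ} (hΓ : ∀ d ∈ Γ, (p : ℤ) - 5 < d) (n : ℕ) :
    HV (fun I => Z p I Γ) n := by
  induction p generalizing Γ n with
  | zero =>
    have h0 : ∀ I, ∀ ω ∈ Z 0 I Γ, ω = 0 := by
      intro I ω hω
      rw [mem_Z] at hω
      have h1 := ctr_gr 0 ω
      rw [hω.2, map_zero] at h1
      have h2 : ctr 0 ω ∈ (⊥ : AddSubgroup Lam) := by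
        refine T_map (ctr 0).toAddMonoidHom ⊥ (fun f hf k => ?_) hω.1
        change ctr 0 (f • eM 0 k) ∈ _
        rw [map_smul, eM_zero, ctr, ctrG_one, smul_zero]
        exact AddSubgroup.zero_mem _
      rw [AddSubgroup.mem_bot] at h2
      rw [h2, mul_zero, sub_zero] at h1
      exact h1.symm
    intro c hc _
    refine ⟨0, fun k => AddSubgroup.zero_mem _, ?_⟩
    funext k
    rw [h0 _ _ (hc k)]
    simp [dd]
  | succ p ih =>
    have hΓ' : ∀ d ∈ sh (-1) Γ, (p : ℤ) - 5 < d := by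
      intro d hd
      have := hΓ _ hd
      push_cast at this
      omega
    refine HV_ses (AddMonoidHom.mulLeft gr) (fun I => T p I (sh (-1) Γ))
      (fun I => Z p I (sh (-1) Γ)) _ (fun hIJ => T_mono hIJ (Set.Subset.refl _)) ?_ ?_ ?_ n
      (HV_T p (fun d hd => by have := hΓ' d hd; omega) n) (ih hΓ' (n + 1))
    · intro I _ t
      exact mem_Z
    · intro I t ht
      rw [mem_Z]
      refine ⟨gr_mem ?_ ht, gr_gr t⟩
      intro d hd
      have h1 : d - (-1) ∈ Γ := hd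
      rw [sub_neg_eq_add] at h1
      exact h1
    · rintro I ⟨i, hi⟩ w hw
      rw [mem_Z] at hw
      refine ⟨ctr i w, ctr_mem (by rw [Finset.insert_eq_of_mem hi]) ?_ hw.1, ?_⟩
      · intro d hd
        change d - 1 - (-1) ∈ Γ
        rw [sub_neg_eq_add, sub_add_cancel]
        exact hd
      · have h1 := ctr_gr i w
        rw [hw.2, map_zero] at h1
        exact (sub_eq_zero.1 h1.symm).symm

/-- the map from the ambient frame to the differentials -/
noncomputable def lin : (Fin 7 → K) →ₗ[K] Ω[K⁄ℂ] := Fintype.linearCombination K (fun k => D ℂ K (y k))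

lemma lin_apply (f : Fin 7 → K) : lin f = ∑ k, f k • D ℂ K (y k) := rfl

lemma lin_single (k : Fin 7) : lin (Pi.single k 1) = D ℂ K (y k) := by
  rw [lin_apply, Finset.sum_eq_single k]
  · rw [Pi.single_eq_same, one_smul]
  · intro j _ hj
    rw [Pi.single_eq_of_ne hj, zero_smul]
  · simp

lemma lin_grad : lin grad = 0 := by
  rw [lin_apply, ← D_x0]
  simp only [Fin.sum_univ_succ, Fin.sum_univ_zero]
  simp [grad, y]
  abel

/-- the exterior algebra of the differentials of `K` -/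
abbrev LamO : Type := ExteriorAlgebra K Ω[K⁄ℂ]

/-- the map to the differential forms -/
noncomputable def Phi : Lam →ₐ[K] LamO := ExteriorAlgebra.map lin

lemma Phi_eq_zero_iff (ω : Lam) : Phi ω = 0 ↔ gr * ω = 0 := by
  refine map_eq_zero_iff lin grad (dl 0) lin_grad (dl_grad 0) ?_ ω
  intro m hm
  obtain ⟨c, hc⟩ := rel_D m hm
  exact ⟨c, funext hc⟩

lemma Phi_eM (p : ℕ) (k : Fin p → Fin 7) :
    Phi (eM p k) = ExteriorAlgebra.ιMulti K p (fun a => D ℂ K (y (k a))) := by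
  rw [Phi, eM, ExteriorAlgebra.map_apply_ιMulti]
  congr 1
  funext a
  exact lin_single _

/-- the forms with coefficients in `V I Γ` on the cone -/
noncomputable def W (p : ℕ) (I : Finset (Fin 6)) (Γ : Set ℤ) : AddSubgroup LamO :=
  (T p I Γ).map (Phi : Lam →+ LamO)

lemma mem_W {p : ℕ} {I : Finset (Fin 6)} {Γ : Set ℤ} {ω : LamO} :
    ω ∈ W p I Γ ↔ ∃ t ∈ T p I Γ, Phi t = ω := Iff.rfl

lemma W_gen {p : ℕ} {I : Finset (Fin 6)} {Γ : Set ℤ} {f : K} (hf : f ∈ V I Γ)
    (k : Fin p → Fin 7) :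
    f • ExteriorAlgebra.ιMulti K p (fun a => D ℂ K (y (k a))) ∈ W p I Γ := by
  rw [mem_W]
  refine ⟨f • eM p k, gen_mem hf k, ?_⟩
  rw [map_smul, Phi_eM]

lemma HV_W (p : ℕ) {Γ : Set ℤ} (hΓ : ∀ d ∈ Γ, (p : ℤ) - 5 < d) (n : ℕ) :
    HV (fun I => W p I Γ) n := by
  refine HV_ses (Phi : Lam →+ LamO) (fun I => T p I Γ) (fun I => Z p I Γ) _
    (fun hIJ => T_mono hIJ (Set.Subset.refl _)) ?_ ?_ ?_ n
    (HV_T p (fun d hd => by have := hΓ d hd; omega) n) (HV_Z p hΓ (n + 1))
  · intro I _ t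
    rw [mem_Z]
    exact and_congr_right fun _ => (Phi_eq_zero_iff t).symm
  · intro I t ht
    exact ⟨t, ht, rfl⟩
  · intro I _ w hw
    exact hw

end Pool.Agent.H907R3
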