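import Pool.Agent.H907R3.Indep

set_option autoImplicit false

namespace Pool.Agent.H907R3

open MvPolynomial KaehlerDifferential

lemma y_castSucc (k : Fin 6) : y k.castSucc = x k := by
  fin_cases k <;> rfl

lemma y_last : y (Fin.last 6) = z := rfl

lemma x_ne (k : Fin 6) : x k ≠ 0 := by
  rw [← y_castSucc]
  exact y_ne _

lemma z_ne : z ≠ 0 := v_ne 0

lemma z_sq : z ^ 2 = -(x 0 * x 3 + x 1 * x 4 + x 2 * x 5) := by
  have h := quad
  have e : x 0 * x 3 + x 1 * x 4 + x 2 * x 5 = x0 * v 3 + v 1 * v 4 + v 2 * v 5 := rfl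
  have e2 : z = v 0 := rfl
  rw [e, e2]
  linear_combination h

lemma li_Dx : LinearIndependent K (fun k : Fin 6 => D ℂ K (x k)) := by
  rw [Fintype.linearIndependent_iff]
  intro f hf
  obtain ⟨c, hc⟩ := rel_D (Fin.snoc (α := fun _ => K) f 0) (by
    rw [Fin.sum_univ_castSucc]
    simp only [Fin.snoc_castSucc, Fin.snoc_last, y_castSucc, zero_smul, add_zero]
    exact hf)
  have h6 := hc (Fin.last 6)
  rw [Fin.snoc_last] at h6
  have hg : grad (Fin.last 6) = 2 * v 0 := rfl
  rw [hg] at h6
  have hc0 : c = 0 := by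
    rcases mul_eq_zero.1 h6.symm with h | h
    · exact h
    · exact absurd h (mul_ne_zero two_ne_zero (v_ne 0))
  intro k
  have := hc k.castSucc
  rw [Fin.snoc_castSucc, hc0, zero_mul] at this
  exact this

lemma algInd_x : AlgebraicIndependent ℂ x := algInd x li_Dx

/-- the automorphism `z ↦ -z` of `K` -/
noncomputable def negMP : MP →ₐ[ℂ] MP :=
  aeval (fun k : Fin 6 => if k = 0 then -X 0 else X k)

lemma negMP_negMP (p : MP) : negMP (negMP p) = p := by
  have : negMP.comp negMP = AlgHom.id ℂ MP := by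
    apply MvPolynomial.algHom_ext
    intro k
    simp only [AlgHom.comp_apply, negMP, aeval_X, AlgHom.id_apply]
    split_ifs with h
    · subst h
      simp
    · simp [h]
  exact congrArg (fun f => f p) this

lemma negMP_inj : Function.Injective (((algebraMap MP K).comp (negMP : MP →+* MP))) := by
  intro a b h
  have h1 : negMP a = negMP b := IsFractionRing.injective MP K h
  rw [← negMP_negMP a, h1, negMP_negMP]

noncomputable def tau : K →+* K := IsFractionRing.lift (A := MP) negMP_inj

lemma tau_alg (p : MP) : tau (algebraMap MP K p) = algebraMap MP K (negMP p) :=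
  IsFractionRing.lift_algebraMap negMP_inj p

lemma tau_v (k : Fin 6) : tau (v k) = if k = 0 then - v 0 else v k := by
  rw [v, tau_alg, negMP, aeval_X]
  split_ifs with h
  · rw [map_neg]
    rfl
  · rfl

lemma tau_z : tau z = -z := by
  rw [z, tau_v, if_pos rfl]

lemma tau_x (k : Fin 6) : tau (x k) = x k := by
  have h1 : tau (v 1) = v 1 := by rw [tau_v]; rfl
  have h2 : tau (v 2) = v 2 := by rw [tau_v]; rfl
  have h3 : tau (v 3) = v 3 := by rw [tau_v]; rfl
  have h4 : tau (v 4) = v 4 := by rw [tau_v]; rfl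
  have h5 : tau (v 5) = v 5 := by rw [tau_v]; rfl
  have h0 : tau (v 0) = -v 0 := by rw [tau_v]; rfl
  fin_cases k
  · change tau x0 = x0
    rw [x0]
    simp only [map_div₀, map_neg, map_add, map_mul, map_pow, h0, h1, h2, h3, h4, h5]
    ring
  · exact h1
  · exact h2
  · exact h3
  · exact h4
  · exact h5

lemma tau_C (c : ℂ) : tau (algebraMap ℂ K c) = algebraMap ℂ K c := by
  rw [IsScalarTower.algebraMap_apply ℂ MP K, tau_alg]
  congr 1
  exact negMP.commutes c

lemma tau_aeval (P : MP) : tau (aeval x P) = aeval x P := by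
  induction P using MvPolynomial.induction_on with
  | C a => rw [aeval_C, tau_C]
  | add p q hp hq => rw [map_add, map_add, hp, hq]
  | mul_X p n hp => rw [map_mul, map_mul, hp, aeval_X, tau_x]

lemma zpart (P Q : MP) (h : aeval x P + z * aeval x Q = 0) : P = 0 ∧ Q = 0 := by
  have h1 := congrArg tau h
  rw [map_add, map_mul, tau_z, tau_aeval, tau_aeval, map_zero] at h1
  have hP : aeval x P = 0 := by
    have : 2 * aeval x P = 0 := by linear_combination h + h1
    rcases mul_eq_zero.1 this with h | h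
    · exact absurd h two_ne_zero
    · exact h
  have hQ : aeval x Q = 0 := by
    rw [hP, zero_add] at h
    rcases mul_eq_zero.1 h with h | h
    · exact absurd h z_ne
    · exact h
  have hx := algebraicIndependent_iff.1 algInd_x
  exact ⟨hx P hP, hx Q hQ⟩

/-- the monomial `x^a z^e` -/
noncomputable def mon (a : Fin 6 → ℤ) (e : ℕ) : K := (∏ k, x k ^ a k) * z ^ e

lemma mon_mul (a b : Fin 6 → ℤ) (e e' : ℕ) : mon a e * mon b e' = mon (a + b) (e + e') := by
  simp only [mon, Pi.add_apply, zpow_add₀ (x_ne _), Finset.prod_mul_distrib, pow_add]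
  ring

lemma mon_zero : mon 0 0 = 1 := by simp [mon]

lemma mon_ne (a : Fin 6 → ℤ) (e : ℕ) : mon a e ≠ 0 :=
  mul_ne_zero (Finset.prod_ne_zero_iff.2 fun k _ => zpow_ne_zero _ (x_ne k)) (pow_ne_zero _ z_ne)

lemma mon_single (k : Fin 6) (n : ℤ) : mon (Pi.single k n) 0 = x k ^ n := by
  rw [mon, pow_zero, mul_one, Finset.prod_eq_single k]
  · rw [Pi.single_eq_same]
  · intro j _ hj
    rw [Pi.single_eq_of_ne hj, zpow_zero]
  · simp

lemma mon_z : mon 0 1 = z := by simp [mon]

/-- the index set of the normal form monomials -/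
abbrev Idx : Type := (Fin 6 → ℤ) × Fin 2

noncomputable def nf (i : Idx) : K := mon i.1 i.2

lemma li_nf : LinearIndependent ℂ nf := by
  classical
  rw [linearIndependent_iff']
  intro s g hg
  -- a big shift
  obtain ⟨N, hN⟩ : ∃ N : ℤ, ∀ i ∈ s, ∀ k, 0 ≤ i.1 k + N := by
    refine ⟨∑ i ∈ s, ∑ k, |i.1 k|, fun i hi k => ?_⟩
    have h1 : |i.1 k| ≤ ∑ k, |i.1 k| :=
      Finset.single_le_sum (f := fun k => |i.1 k|) (fun _ _ => abs_nonneg _) (Finset.mem_univ k)
    have h2 : ∑ k, |i.1 k| ≤ ∑ i ∈ s, ∑ k, |i.1 k| :=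
      Finset.single_le_sum (f := fun i : Idx => ∑ k, |i.1 k|)
        (fun _ _ => Finset.sum_nonneg fun _ _ => abs_nonneg _) hi
    have h3 := neg_abs_le (i.1 k)
    linarith
  let m : Idx → (Fin 6 →₀ ℕ) := fun i => Finsupp.equivFunOnFinite.symm fun k => (i.1 k + N).toNat
  have hm : ∀ i ∈ s, ∀ j ∈ s, m i = m j → i.1 = j.1 := by
    intro i hi j hj hij
    funext k
    have := congrArg (fun f : Fin 6 →₀ ℕ => f k) hij
    simp only [m, Finsupp.equivFunOnFinite_symm_apply_apply] at this
    have h1 := hN i hi k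
    have h2 := hN j hj k
    omega
  have hmon : ∀ i ∈ s, ∀ c : ℂ, aeval x (monomial (m i) c) = c • mon (i.1 + fun _ => N) 0 := by
    intro i hi c
    rw [aeval_monomial, Algebra.smul_def, mon, pow_zero, mul_one, Finsupp.prod_fintype _ _ (by simp)]
    congr 1
    refine Finset.prod_congr rfl fun k _ => ?_
    rw [← zpow_natCast]
    congr 1
    simp only [m, Finsupp.equivFunOnFinite_symm_apply_apply, Pi.add_apply]
    exact Int.toNat_of_nonneg (hN i hi k)
  let P : MP := ∑ i ∈ s with i.2 = 0, monomial (m i) (g i)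
  let Q : MP := ∑ i ∈ s with i.2 = 1, monomial (m i) (g i)
  have key : aeval x P + z * aeval x Q = 0 := by
    have h1 : mon (fun _ => N) 0 * ∑ i ∈ s, g i • nf i = 0 := by rw [hg, mul_zero]
    rw [← h1, Finset.mul_sum]
    have h2 : s = (s.filter fun i => i.2 = 0) ∪ (s.filter fun i => i.2 = 1) := by
      ext i
      simp only [Finset.mem_union, Finset.mem_filter]
      constructor
      · intro hi
        rcases i with ⟨a, e⟩
        fin_cases e
        · exact Or.inl ⟨hi, rfl⟩
        · exact Or.inr ⟨hi, rfl⟩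
      · rintro (h | h) <;> exact h.1
    have hd : Disjoint (s.filter fun i => i.2 = 0) (s.filter fun i => i.2 = 1) := by
      rw [Finset.disjoint_filter]
      intro i _ h0 h1
      rw [h0] at h1
      exact absurd h1 (by decide)
    conv_rhs => rw [h2]
    rw [Finset.sum_union hd]
    simp only [P, Q, map_sum, Finset.mul_sum]
    congr 1
    · refine Finset.sum_congr rfl fun i hi => ?_
      rw [Finset.mem_filter] at hi
      rw [hmon i hi.1, nf, hi.2, mul_smul_comm, mon_mul]
      simp [add_comm]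
    · refine Finset.sum_congr rfl fun i hi => ?_
      rw [Finset.mem_filter] at hi
      rw [hmon i hi.1, nf, hi.2, mul_smul_comm, mul_smul_comm, mon_mul, ← mon_z, mon_mul]
      simp [add_comm]
  obtain ⟨hP, hQ⟩ := zpart P Q key
  intro i hi
  rcases i with ⟨a, e⟩
  have hcoef : ∀ e' : Fin 2, (∑ i ∈ s with i.2 = e', monomial (m i) (g i) : MP) = 0 →
      ∀ a, (a, e') ∈ s → g (a, e') = 0 := by
    intro e' h0 a ha
    have h1 := congrArg (coeff (m (a, e'))) h0
    rw [coeff_sum, coeff_zero, Finset.sum_eq_single (a, e')] at h1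
    · simpa using h1
    · intro j hj hja
      rw [Finset.mem_filter] at hj
      rw [coeff_monomial, if_neg]
      intro he
      apply hja
      exact Prod.ext (hm j hj.1 _ ha he) hj.2
    · intro hn
      exact absurd (Finset.mem_filter.2
        (⟨ha, rfl⟩ : (a, e') ∈ s ∧ ((a, e') : Idx).2 = e')) hn
  fin_cases e
  · exact hcoef 0 hP a hi
  · exact hcoef 1 hQ a hi

end Pool.Agent.H907R3
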