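import Pool.Agent.H907R3.Vanish

set_option autoImplicit false

namespace Pool.Agent.H907R3

open ExteriorAlgebra KaehlerDifferential

/-- the ambient volume form -/
noncomputable def dV : Lam := eM 7 id

lemma dV_mem : dV ∈ T 7 ∅ {0} := by
  have h := gen_mem (p := 7) (I := ∅) (Γ := {0}) (one_mem_V rfl) id
  rw [one_smul] at h
  exact h

lemma dV_ne : dV ≠ 0 := eM_ne_zero

lemma gr_dV : gr * dV = 0 := by
  rw [gr_eq, Finset.sum_mul]
  apply Finset.sum_eq_zero
  intro l _
  rw [smul_mul_assoc, dV, eM_cons]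
  have h : (eM (7 + 1) (Fin.cons l id : Fin (7 + 1) → Fin 7) : Lam) = 0 := by
    rw [eM]
    apply ExteriorAlgebra.ιMulti_eq_zero_of_not_inj
    intro hinj
    have h1 : Function.Injective (Fin.cons l id : Fin (7 + 1) → Fin 7) := by
      intro a b hab
      apply hinj
      simp only [hab]
    have h2 := Fintype.card_le_of_injective _ h1
    simp at h2
  rw [h, smul_zero]

lemma gr_ctr (i : Fin 6) (ω : Lam) : gr * ctr i ω = ω - ctr i (gr * ω) := by
  rw [ctr_gr]
  abel

/-- the cocycle -/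
noncomputable def CC (k : Fin 2 → Fin 6) : LamO := Phi (ctr (k 0) (ctr (k 1) dV))

lemma ctr_dV_mem (i : Fin 6) : ctr i dV ∈ T 6 {i} {-1} := by
  refine ctr_mem (I := ∅) (Γ := {0}) ?_ ?_ dV_mem
  · rw [← Finset.coe_subset]
    simp
  · rintro d rfl
    rfl

lemma CC_mem (k : Fin 2 → Fin 6) : CC k ∈ W 5 (img k) (GGp 5) := by
  refine mem_W.2 ⟨_, ?_, rfl⟩
  have h : ctr (k 0) (ctr (k 1) dV) ∈ T 5 (img k) {-2} := by
    refine ctr_mem (I := {k 1}) (Γ := {-1}) ?_ ?_ (ctr_dV_mem _)
    · exact Finset.insert_subset (mem_img k 0) (Finset.singleton_subset_iff.2 (mem_img k 1))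
    · rintro d rfl
      rfl
  refine T_mono (Finset.Subset.refl _) ?_ h
  rintro _ rfl
  rw [mem_GGp]
  norm_num

lemma gr_ctr_ctr (i j : Fin 6) : gr * ctr i (ctr j dV) = ctr j dV - ctr i dV := by
  rw [gr_ctr, gr_ctr, gr_dV, map_zero, sub_zero]

lemma dd_CC : dd CC = 0 := by
  funext k
  have e : dd CC k = Phi (ctr (k 1) (ctr (k 2) dV) - ctr (k 0) (ctr (k 2) dV) +
      ctr (k 0) (ctr (k 1) dV)) := by
    have e1 : dd CC k = CC (k ∘ (0 : Fin 3).succAbove) - CC (k ∘ (1 : Fin 3).succAbove) +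
        CC (k ∘ (2 : Fin 3).succAbove) := by
      change ∑ j : Fin 3, (-1 : ℤ) ^ (j : ℕ) • CC (k ∘ j.succAbove) = _
      rw [Fin.sum_univ_three]
      simp [sub_eq_add_neg]
    rw [e1, map_add, map_sub]
    rfl
  rw [e, Pi.zero_apply, Phi_eq_zero_iff, mul_add, mul_sub, gr_ctr_ctr, gr_ctr_ctr, gr_ctr_ctr]
  abel

/-- there is no primitive -/
lemma no_primitive (B : Fin 6 → LamO) (hB : ∀ i, B i ∈ W 5 {i} (GGp 5))
    (h : ∀ k : Fin 2 → Fin 6, CC k = B (k 1) - B (k 0)) : False := by
  choose B' hB' hPhi using fun i => mem_W.1 (hB i)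
  have h1 := h ![0, 1]
  have h2 : Phi (ctr 0 (ctr 1 dV) - (B' 1 - B' 0)) = 0 := by
    rw [map_sub, map_sub, hPhi, hPhi, sub_eq_zero]
    exact h1
  rw [Phi_eq_zero_iff, mul_sub, mul_sub, gr_ctr_ctr] at h2
  -- the form on the intersection
  have h3 : ctr 0 dV - gr * B' 0 = ctr 1 dV - gr * B' 1 := by
    have e : ctr 0 dV - gr * B' 0 - (ctr 1 dV - gr * B' 1) =
      -(ctr 1 dV - ctr 0 dV - (gr * B' 1 - gr * B' 0)) := by abel
    rw [← sub_eq_zero, e, h2, neg_zero]
  let Γ : Set ℤ := {d | -1 ≤ d}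
  have h4 : ∀ i, ctr i dV - gr * B' i ∈ T 6 {i} Γ := by
    intro i
    refine AddSubgroup.sub_mem _ ?_ ?_
    · refine T_mono (Finset.Subset.refl _) ?_ (ctr_dV_mem i)
      rintro _ rfl
      exact le_refl (-1 : ℤ)
    · refine gr_mem ?_ (hB' i)
      intro d hd
      rw [mem_GGp] at hd
      change -1 ≤ d + 1
      omega
  let η := ctr 0 dV - gr * B' 0
  let g : K →+ K := (proj (S {1} Γ)).toAddMonoidHom
  have h5 : ext g η = η := by
    have h6 : η ∈ T 6 {1} Γ := by
      change ctr 0 dV - gr * B' 0 ∈ _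
      rw [h3]
      exact h4 1
    refine T_eq (ext g) (AddMonoidHom.id Lam) ?_ h6
    intro f hf k
    rw [ext_eM]
    have : g f = f := proj_eq_self (Set.Subset.refl _) hf
    rw [this]
    rfl
  have h6 : ext g η ∈ T 6 ∅ {d | 0 ≤ d} := by
    refine T_ext g ?_ (h4 0)
    intro f hf
    refine proj_mem ?_ hf
    rintro i ⟨hi1, hi2⟩ ⟨hi3, hi4⟩
    have h7 : ∀ k, 0 ≤ i.1 k := by
      intro k
      by_cases hk : k = 0
      · apply hi3
        rw [hk]
        decide
      · apply hi1
        simpa using hk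
    refine ⟨fun k _ => h7 k, ?_⟩
    change 0 ≤ ∑ k, i.1 k + ((i.2 : ℕ) : ℤ)
    have := Finset.sum_nonneg (s := Finset.univ) (f := i.1) fun k _ => h7 k
    positivity
  rw [h5] at h6
  have h7 : gr * η = dV := by
    change gr * (ctr 0 dV - gr * B' 0) = dV
    rw [mul_sub, gr_gr, sub_zero, gr_ctr, gr_dV, map_zero, sub_zero]
  have h8 : dV ∈ T 7 ∅ {d | 1 ≤ d} := by
    rw [← h7]
    refine gr_mem ?_ h6
    intro d hd
    have hd' : 0 ≤ d := hd
    change 1 ≤ d + 1
    omega
  have h9 : ext (pr.toAddMonoidHom) dV = 0 := by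
    have h10 := T_eq (ext (pr.toAddMonoidHom)) (0 : Lam →+ Lam) ?_ h8
    · exact h10
    · intro f hf k
      rw [ext_eM]
      have : pr.toAddMonoidHom f = 0 := pr_pos (by simp) hf
      rw [this, zero_smul]
      rfl
  have h11 : ext (pr.toAddMonoidHom) dV = dV := by
    have h12 := ext_eM (pr.toAddMonoidHom) (1 : K) 7 (id : Fin 7 → Fin 7)
    rw [one_smul] at h12
    have : pr.toAddMonoidHom (1 : K) = 1 := pr_one
    rw [this, one_smul] at h12
    exact h12
  exact dV_ne (h11.symm.trans h9)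

lemma forms_point {p : ℕ} {α : Finset NN} (hn : none ∈ α) (he : er α = ∅)
    (ω : ⋀[AA α]^(p + 1) Ω[AA α⁄ℂ]) : ω = 0 := by
  refine form_ext (AddMonoidHom.id _) 0 ?_ ω
  intro a g
  have h : gen (p + 1) g = 0 := by
    rw [gen]
    apply AlternatingMap.map_coord_zero _ 0
    have hf := mem_V0 hn (emb_mem α (g 0))
    rw [he] at hf
    obtain ⟨c, hc⟩ := E_empty hf
    have h1 : g 0 = algebraMap ℂ (AA α) c := by
      apply emb_injective
      rw [AlgHom.commutes, hc]
    rw [h1, Derivation.map_algebraMap]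
  rw [h, smul_zero]
  rfl

section Abstract

variable (M : Finset NN → Type) [∀ α, AddCommGroup (M α)]
  (φ : ∀ {α β : Finset NN}, α ⊆ β → M α →+ M β)

theorem nonvanish_abstract
    {F : Type} [AddCommGroup F] (J : ∀ α, M α →+ F)
    (hJ : ∀ {α β : Finset NN} (h : α ⊆ β), none ∉ β → ∀ m, J β (φ h m) = J α m)
    (hinj : ∀ α, none ∉ α → α.Nonempty → Function.Injective (J α))
    (W : Finset (Fin 6) → AddSubgroup F)
    (h1 : ∀ {α β : Finset NN} (h : α ⊆ β), none ∉ α → none ∈ β → er β = er α →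
      ∀ m, φ h m = 0 → J α m ∈ W (er α))
    (h2 : ∀ α, none ∉ α → α.Nonempty → ∀ w ∈ W (er α), ∃ m, J α m = w ∧
      ∀ (β : Finset NN) (h : α ⊆ β), none ∈ β → φ h m = 0)
    (hpt : ∀ α, none ∈ α → er α = ∅ → ∀ m : M α, m = 0)
    (C : (Fin 2 → Fin 6) → F) (hC : ∀ k, C k ∈ W (img k)) (hdd : dd C = 0)
    (hno : ∀ B : Fin 6 → F, (∀ i, B i ∈ W {i}) →
      (∀ k : Fin 2 → Fin 6, C k = B (k 1) - B (k 0)) → False) :
    ¬ CohomologyVanishes M φ 1 := by
  intro hvan
  have hex : ∀ k : Fin 2 → NN, ∃ m : M (img k),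
      (none ∉ img k → J _ m = C (fun a => (k a).getD 0) ∧
        ∀ (β : Finset NN) (h : img k ⊆ β), none ∈ β → φ h m = 0) ∧
      (none ∈ img k → m = 0) := by
    intro k
    by_cases hk : none ∈ img k
    · exact ⟨0, fun h => absurd hk h, fun _ => rfl⟩
    · obtain ⟨m, hm1, hm2⟩ := h2 (img k) hk (img_nonempty k) (C (fun a => (k a).getD 0)) (by
        have h3 := hC (fun a => (k a).getD 0)
        rw [← er_img, exists_some k hk] at h3
        exact h3)
      exact ⟨m, fun _ => ⟨hm1, hm2⟩, fun h => absurd h hk⟩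
  choose c hc1 hc2 using hex
  have hJd : ∀ {m : ℕ} (b : ∀ k : Fin m → NN, M (img k)) (k : Fin (m + 1) → Fin 6),
      J _ (coboundary M φ b (fun a => some (k a))) =
        dd (fun k : Fin m → Fin 6 => J _ (b (fun a => some (k a)))) k := by
    intro m b k
    simp only [coboundary, dd, map_sum, map_zsmul]
    refine Finset.sum_congr rfl fun a _ => ?_
    rw [hJ _ (none_notMem_img k)]
    rfl
  have hcc : coboundary M φ c = 0 := by
    funext k
    by_cases hk : none ∈ img k
    · simp only [coboundary, Pi.zero_apply]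
      apply Finset.sum_eq_zero
      intro a _
      by_cases hka : none ∈ img (k ∘ a.succAbove)
      · rw [hc2 _ hka, map_zero, smul_zero]
      · rw [(hc1 _ hka).2 _ _ hk, smul_zero]
    · apply hinj _ hk (img_nonempty k)
      rw [Pi.zero_apply, map_zero]
      have h4 : J _ (coboundary M φ c k) = dd C (fun a => (k a).getD 0) := by
        simp only [coboundary, dd, map_sum, map_zsmul]
        refine Finset.sum_congr rfl fun a _ => ?_
        rw [hJ _ hk, (hc1 _ (fun h => hk (img_face k a h))).1]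
        rfl
      rw [h4, hdd]
      rfl
  obtain ⟨b, hb⟩ := hvan c hcc
  have congr_c : ∀ (k k' : Fin 1 → NN) (β : Finset NN)
      (_ : k = k') (h : img k ⊆ β) (h' : img k' ⊆ β), φ h (b k) = φ h' (b k') := by
    intro k k' β e h h'
    subst e
    rfl
  refine hno (fun i => J _ (b (fun _ => some i))) ?_ ?_
  · intro i
    let q : Fin 2 → NN := Fin.cons none (fun _ => some i)
    have hqi : img q = insert none (img (fun _ : Fin 1 => (some i : NN))) := img_cons _ _
    have h1' := congrFun hb q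
    have hn : none ∈ img q := by
      rw [hqi]
      exact Finset.mem_insert_self _ _
    rw [hc2 _ hn] at h1'
    have hsub : img (fun _ : Fin 1 => (some i : NN)) ⊆ img q := by
      rw [hqi]
      exact Finset.subset_insert _ _
    have h5 : ∀ k : Fin 1 → NN, k 0 = none → b k = 0 := by
      intro k hk
      apply hpt
      · rw [← hk]
        exact mem_img k 0
      · ext j
        simp only [mem_er, img, Finset.mem_image, Finset.mem_univ, true_and]
        constructor
        · rintro ⟨a, ha⟩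
          rw [Subsingleton.elim a 0, hk] at ha
          exact absurd ha (by simp)
        · simp
    have hq0 : q ∘ (0 : Fin 2).succAbove = (fun _ : Fin 1 => (some i : NN)) := cons_face_zero _ _
    have h3 : coboundary M φ b q = φ hsub (b (fun _ => some i)) := by
      simp only [coboundary]
      rw [Fin.sum_univ_two, congr_c _ _ _ hq0 _ hsub, h5 (q ∘ (1 : Fin 2).succAbove) rfl,
        map_zero, smul_zero, add_zero]
      simp
    have h2' : φ hsub (b (fun _ => some i)) = 0 := by
      rw [← h3, h1']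
    have h7 := h1 hsub (none_notMem_img (fun _ : Fin 1 => i)) hn
      (by rw [hqi, er_insert]) _ h2'
    have h8 : er (img (fun _ : Fin 1 => (some i : NN))) = {i} := by
      rw [er_img (fun _ : Fin 1 => i)]
      ext j
      simp [img, eq_comm]
    rw [h8] at h7
    exact h7
  · intro k
    have h1' := hJd b k
    rw [hb] at h1'
    have h2' := (hc1 (fun a => some (k a)) (none_notMem_img k)).1
    rw [h2'] at h1'
    have h3 : (fun a => ((some (k a) : NN)).getD 0) = k := rfl
    rw [h3] at h1'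
    rw [h1']
    have e0 : (k ∘ (0 : Fin 2).succAbove) = fun _ => k 1 := by
      funext a
      rw [Subsingleton.elim a 0]
      rfl
    have e1 : (k ∘ (1 : Fin 2).succAbove) = fun _ => k 0 := by
      funext a
      rw [Subsingleton.elim a 0]
      rfl
    have h9 : ∀ D' : (Fin 1 → Fin 6) → F, dd D' k = D' (fun _ => k 1) - D' (fun _ => k 0) := by
      intro D'
      change ∑ a : Fin 2, (-1 : ℤ) ^ (a : ℕ) • D' (k ∘ a.succAbove) = _
      rw [Fin.sum_univ_two, e0, e1]
      simp [sub_eq_add_neg]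
    rw [h9]

end Abstract

/-- the first cohomology of the fifth Du Bois complex does not vanish -/
theorem nonvanish :
    ¬ CohomologyVanishes (fun α => ⋀[AA α]^5 Ω[AA α⁄ℂ]) (fun h => fM 5 (rs h)) 1 := by
  refine nonvanish_abstract _ _ (JJ 5) ?_ ?_ (fun I => W 5 I (GGp 5)) ?_ ?_ ?_ CC CC_mem dd_CC
    no_primitive
  · intro α β h hb m
    exact JJ_rs 5 h hb m
  · intro α hα hne
    exact JJ_injective 5 hα hne
  · intro α β h hα hb her m hm
    exact JJ_mem hα h hb her hm
  · intro α hα hne w hw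
    obtain ⟨m, hm, rfl⟩ := W_le_KI hα hne hw
    exact ⟨m, rfl, hm⟩
  · intro α hα he m
    exact forms_point hα he m

end Pool.Agent.H907R3
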