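import Pool.Agent.H907R3.Descent2
import Pool.Agent.H907R3.NonVan

set_option autoImplicit false

namespace Pool.Agent.H907R3

open MvPolynomial KaehlerDifferential

section Gen

/-- integral extensions preserve the Krull dimension -/
lemma dim_of_integral {P R : Type} [CommRing P] [CommRing R] [IsDomain R] [Algebra P R]
    [Algebra.IsIntegral P R] (hinj : Function.Injective (algebraMap P R)) :
    ringKrullDim R = ringKrullDim P := by
  apply le_antisymm
  · refine Order.krullDim_le_of_strictMono
      (fun Q : PrimeSpectrum R => PrimeSpectrum.comap (algebraMap P R) Q) ?_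
    intro Q Q' h
    exact Ideal.IsIntegral.comap_lt_comap (R := P) (I := Q.asIdeal) (J := Q'.asIdeal) h
  · unfold ringKrullDim
    conv_lhs => unfold Order.krullDim
    apply iSup_le
    intro l
    have hP := (RelSeries.head l).2
    obtain ⟨Q, hQ, hQc⟩ := Ideal.exists_ideal_over_prime_of_isIntegral_of_isDomain (R := P)
      (S := R) (RelSeries.head l).asIdeal (by
        rw [(RingHom.injective_iff_ker_eq_bot _).1 hinj]
        exact bot_le)
    have _ : Q.LiesOver (RelSeries.head l).asIdeal := ⟨hQc.symm⟩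
    obtain ⟨L, hL, -, -⟩ := Ideal.exists_ltSeries_of_hasGoingUp (S := R) l Q
    rw [← hL]
    exact Order.LTSeries.length_le_krullDim L

end Gen

/-- the polynomial ring in the cubes of the coordinates -/
noncomputable def ppi : MP →ₐ[ℂ] AA ∅ := aeval TT

lemma emb_ppi (p : MP) : emb ∅ (ppi p) = aeval (fun k => x k ^ 3) p := by
  have h : (emb ∅).comp ppi = aeval (fun k => x k ^ 3) := by
    apply MvPolynomial.algHom_ext
    intro j
    rw [AlgHom.comp_apply, ppi, aeval_X, aeval_X, emb_TT]
  exact congrArg (fun f => f p) h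

lemma ppi_injective : Function.Injective ppi := by
  have h1 : LinearIndependent K (fun k => D ℂ K (x k ^ 3)) := by
    rw [Fintype.linearIndependent_iff]
    intro g hg k
    have h2 : ∑ k, (g k * (3 * x k ^ 2)) • D ℂ K (x k) = 0 := by
      rw [← hg]
      refine Finset.sum_congr rfl fun k _ => ?_
      rw [Derivation.leibniz_pow, ← Nat.cast_smul_eq_nsmul K, smul_smul, smul_smul]
      congr 1
      push_cast
      ring
    have h3 := Fintype.linearIndependent_iff.1 li_Dx _ h2 k
    rcases mul_eq_zero.1 h3 with h | h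
    · exact h
    · exact absurd h (mul_ne_zero three_ne_zero (pow_ne_zero _ (x_ne k)))
  have h2 : Function.Injective (aeval (fun k => x k ^ 3) : MP →ₐ[ℂ] K) := algInd _ h1
  intro p q hpq
  apply h2
  rw [← emb_ppi, ← emb_ppi, hpq]

lemma er_empty : er ∅ = ∅ := by
  ext k
  rw [mem_er]
  simp

lemma mem_sub_empty {f : K} : f ∈ sub ∅ ↔ f ∈ V ∅ G0 := by
  rw [sub_eq_U (Finset.notMem_empty _), er_empty]
  exact Iff.rfl

open Classical in
/-- generators of the coordinate ring as a module -/
noncomputable def sgen (r : (Fin 6 → Fin 3) × Fin 2) : AA ∅ :=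
  if h : mon (fun k => (((r.1 k : Fin 3) : ℕ) : ℤ)) r.2 ∈ sub ∅ then mkA h else 0

lemma mem_span_sgen (b : AA ∅) : b ∈ @Submodule.span MP (AA ∅) _ _
    (ppi.toRingHom.toAlgebra).toModule (Set.range sgen) := by
  let _ : Algebra MP (AA ∅) := ppi.toRingHom.toAlgebra
  have hC : ∀ (c : ℂ) (m : AA ∅), c • m = (C c : MP) • m := by
    intro c m
    have h1 : (C c : MP) • m = ppi (C c) * m := rfl
    rw [h1, ppi, aeval_C, Algebra.smul_def]
  have key : ∃ h : emb ∅ b ∈ sub ∅, (mkA h : AA ∅) ∈ Submodule.span MP (Set.range sgen) := by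
    refine V_induction (fun g => ∃ h : g ∈ sub ∅,
      (mkA h : AA ∅) ∈ Submodule.span MP (Set.range sgen)) ?_ ?_ ?_ ?_
      (mem_sub_empty.1 (emb_mem ∅ b))
    · rintro ⟨a, e⟩ ⟨h1, h2⟩
      have h1' : ∀ k, 0 ≤ a k := fun k => h1 k (Finset.notMem_empty k)
      have h2' : ∑ k, a k + ((e : ℕ) : ℤ) ∈ G0 := h2
      have hmem : nf (a, e) ∈ sub ∅ := mem_sub_empty.2 (mon_mem h1 h2')
      refine ⟨hmem, ?_⟩
      let q : Fin 6 → ℕ := fun k => (a k / 3).toNat
      let r : Fin 6 → Fin 3 := fun k => ⟨(a k % 3).toNat, by omega⟩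
      have hqr : ∀ k, a k = 3 * (q k : ℤ) + (((r k : Fin 3) : ℕ) : ℤ) := by
        intro k
        have := h1' k
        simp only [q, r]
        omega
      have hr : mon (fun k => (((r k : Fin 3) : ℕ) : ℤ)) e ∈ sub ∅ := by
        apply mem_sub_empty.2
        apply mon_mem
        · intro k _
          positivity
        · refine ⟨by positivity, ?_⟩
          have e1 : ∑ k, (((r k : Fin 3) : ℕ) : ℤ) + ((e : ℕ) : ℤ) =
              (∑ k, a k + ((e : ℕ) : ℤ)) - 3 * ∑ k, (q k : ℤ) := by
            rw [Finset.mul_sum]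
            have e2 : ∑ k, a k = ∑ k, 3 * (q k : ℤ) + ∑ k, (((r k : Fin 3) : ℕ) : ℤ) := by
              rw [← Finset.sum_add_distrib]
              exact Finset.sum_congr rfl fun k _ => hqr k
            rw [e2]
            ring
          rw [e1]
          exact dvd_sub h2'.2 (dvd_mul_right _ _)
      have hs : sgen (r, e) = mkA hr := dif_pos hr
      have heq : (mkA hmem : AA ∅) = (∏ k, X k ^ q k : MP) • sgen (r, e) := by
        have h3 : (∏ k, X k ^ q k : MP) • sgen (r, e) = ppi (∏ k, X k ^ q k) * sgen (r, e) := rfl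
        rw [h3, hs]
        apply emb_injective
        rw [map_mul, emb_ppi, emb_mk, emb_mk, map_prod]
        simp only [map_pow, aeval_X]
        rw [nf, mon, mon, ← mul_assoc, ← Finset.prod_mul_distrib]
        congr 1
        refine Finset.prod_congr rfl fun k _ => ?_
        rw [← pow_mul, ← zpow_natCast, ← zpow_add₀ (x_ne k)]
        congr 1
        refine (hqr k).trans ?_
        push_cast
        ring
      rw [heq]
      exact Submodule.smul_mem _ _ (Submodule.subset_span ⟨_, rfl⟩)
    · exact ⟨Subalgebra.zero_mem _, Submodule.zero_mem _⟩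
    · rintro g g' ⟨h, hh⟩ ⟨h', hh'⟩
      exact ⟨Subalgebra.add_mem _ h h', Submodule.add_mem _ hh hh'⟩
    · rintro c g ⟨h, hh⟩
      refine ⟨Subalgebra.smul_mem _ h c, ?_⟩
      have e : mkA (Subalgebra.smul_mem _ h c) = c • (mkA h : AA ∅) := rfl
      rw [e, hC]
      exact Submodule.smul_mem _ _ hh
  obtain ⟨_, h⟩ := key
  exact h

lemma finite_ppi : @Module.Finite MP (AA ∅) _ _ (ppi.toRingHom.toAlgebra).toModule := by
  let _ : Algebra MP (AA ∅) := ppi.toRingHom.toAlgebra
  refine ⟨⟨(Set.finite_range sgen).toFinset, ?_⟩⟩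
  rw [Set.Finite.coe_toFinset, eq_top_iff]
  intro b _
  exact mem_span_sgen b

theorem finiteType_R : Algebra.FiniteType ℂ (AA ∅) := by
  let _ : Algebra MP (AA ∅) := ppi.toRingHom.toAlgebra
  have _ : IsScalarTower ℂ MP (AA ∅) := IsScalarTower.of_algebraMap_eq fun c =>
    (ppi.commutes c).symm
  have h1 : Module.Finite MP (AA ∅) := finite_ppi
  have h2 : Algebra.FiniteType MP (AA ∅) := inferInstance
  have h3 : Algebra.FiniteType ℂ MP := inferInstance
  exact Algebra.FiniteType.trans h3 h2

theorem dim_R : ringKrullDim (AA ∅) = 6 := by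
  let _ : Algebra MP (AA ∅) := ppi.toRingHom.toAlgebra
  have h1 : Module.Finite MP (AA ∅) := finite_ppi
  have h2 : Algebra.IsIntegral MP (AA ∅) := inferInstance
  rw [dim_of_integral (P := MP) ppi_injective, MvPolynomial.ringKrullDim_of_isNoetherianRing,
    ringKrullDim_eq_zero_of_field]
  simp

lemma chart_closed {i : Fin 6} {β : Finset NN} (hβ : none ∉ β) (he : er β = {i}) :
    IsIntegrallyClosed (AA β) := by
  have hiβ : i ∈ er β := by rw [he]; exact Finset.mem_singleton_self i
  have htau : ∀ j, tau6 i j ∈ sub β := fun j => by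
    rw [sub_eq_U hβ]
    exact tau6_mem hiβ j
  have h3 : (emb β).comp (MvPolynomial.aeval (fun j => (mkA (htau j) : AA β))) =
      MvPolynomial.aeval (tau6 i) := by
    apply MvPolynomial.algHom_ext
    intro j
    rw [AlgHom.comp_apply, MvPolynomial.aeval_X, MvPolynomial.aeval_X, emb_mk]
  have h3' : ∀ p, emb β (MvPolynomial.aeval (fun j => (mkA (htau j) : AA β)) p) =
      MvPolynomial.aeval (tau6 i) p := fun p => congrArg (fun φ => φ p) h3
  have hbij : Function.Bijective
      (MvPolynomial.aeval (fun j => (mkA (htau j) : AA β)) : MP →ₐ[ℂ] AA β) := by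
    constructor
    · intro p q hpq
      have h2 : Function.Injective (aeval (tau6 i) : MP →ₐ[ℂ] K) := algInd_tau i
      apply h2
      rw [← h3', ← h3', hpq]
    · intro b
      have hb := mem_VG hβ (emb_mem β b)
      rw [he] at hb
      obtain ⟨n, p, hp⟩ := surj_chart i {i} hb
      have h1 : MvPolynomial.aeval (tau6 i) (sI i {i}) = (1 : K) := by
        rw [aeval_sI, Finset.prod_singleton, div_self (x_ne i)]
      rw [h1, one_pow, mul_one] at hp
      exact ⟨p, emb_injective β (by rw [h3', hp])⟩
  have h4 : IsIntegrallyClosed MP := inferInstance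
  exact IsIntegrallyClosed.of_equiv (AlgEquiv.ofBijective _ hbij).toRingEquiv

theorem normal_R : IsIntegrallyClosed (AA ∅) := by
  rw [isIntegrallyClosed_iff (FractionRing (AA ∅))]
  intro f hf
  obtain ⟨a, b, hb, rfl⟩ := IsFractionRing.div_surjective (A := AA ∅) f
  have hb0 : b ≠ 0 := nonZeroDivisors.ne_zero hb
  have hbK : emb ∅ b ≠ 0 := by
    intro h0
    exact hb0 (emb_injective ∅ (by rw [h0, map_zero]))
  have key : ∀ i : Fin 6, emb ∅ a / emb ∅ b ∈ V {i} G0 := by
    intro i
    let β : Finset NN := {some i}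
    have hβ : none ∉ β := by simp [β]
    have he : er β = {i} := by
      ext k
      rw [mem_er]
      simp [β]
    have hcl := chart_closed hβ he
    have hsub : ∅ ⊆ β := Finset.empty_subset β
    have hrsinj : Function.Injective (rs hsub) := by
      intro a b hab
      apply emb_injective
      have h1 := congrArg (emb β) hab
      rw [emb_rs, emb_rs, Tm_neg hβ] at h1
      exact h1
    have hginj : Function.Injective
        ((algebraMap (AA β) (FractionRing (AA β))).comp (rs hsub : AA ∅ →+* AA β)) := by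
      intro a b hab
      exact hrsinj (IsFractionRing.injective (AA β) (FractionRing (AA β)) hab)
    let g : FractionRing (AA ∅) →+* FractionRing (AA β) := IsFractionRing.lift hginj
    have hg : ∀ c, g (algebraMap (AA ∅) (FractionRing (AA ∅)) c) =
        algebraMap (AA β) (FractionRing (AA β)) (rs hsub c) :=
      fun c => IsFractionRing.lift_algebraMap hginj c
    have hint : IsIntegral (AA β) (g (algebraMap (AA ∅) (FractionRing (AA ∅)) a /
        algebraMap (AA ∅) (FractionRing (AA ∅)) b)) := by
      refine IsIntegral.map_of_comp_eq (rs hsub : AA ∅ →+* AA β) g ?_ hf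
      ext c
      exact (hg c).symm
    obtain ⟨c, hc⟩ := (isIntegrallyClosed_iff (FractionRing (AA β))).1 hcl hint
    rw [map_div₀, hg, hg] at hc
    have hb1 : rs hsub b ≠ 0 := by
      intro h0
      exact hb0 (hrsinj (by rw [h0, map_zero]))
    have hb2 : algebraMap (AA β) (FractionRing (AA β)) (rs hsub b) ≠ 0 := by
      intro h0
      exact hb1 (IsFractionRing.injective (AA β) (FractionRing (AA β)) (by rw [h0, map_zero]))
    rw [eq_div_iff hb2, ← map_mul] at hc
    have hc' := congrArg (emb β) (IsFractionRing.injective (AA β) (FractionRing (AA β)) hc)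
    rw [map_mul, emb_rs, emb_rs, Tm_neg hβ] at hc'
    have h5 : emb ∅ a / emb ∅ b = emb β c := by
      rw [div_eq_iff hbK]
      exact hc'.symm
    rw [h5, ← he]
    exact mem_VG hβ (emb_mem β c)
  have h6 := V_inter (key 0) (key 1)
  have h7 : emb ∅ a / emb ∅ b ∈ sub ∅ := by
    apply mem_sub_empty.2
    refine V_mono ?_ Set.inter_subset_left h6
    intro k hk
    simp only [Finset.mem_inter, Finset.mem_singleton] at hk
    obtain ⟨h8, h9⟩ := hk
    rw [h8] at h9
    exact absurd h9 (by decide)
  refine ⟨mkA h7, ?_⟩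
  have hb3 : algebraMap (AA ∅) (FractionRing (AA ∅)) b ≠ 0 := by
    intro h0
    exact hb0 (IsFractionRing.injective (AA ∅) (FractionRing (AA ∅)) (by rw [h0, map_zero]))
  rw [eq_div_iff hb3, ← map_mul]
  congr 1
  apply emb_injective
  rw [map_mul, emb_mk, div_mul_cancel₀ _ hbK]

/-- the cubical hyperresolution -/
noncomputable def HH : CubicalHyperresolution (AA ∅) where
  toCubicalDiagram := DD
  smooth := smooth_AA
  descent := descent

theorem HH_three : HH.IsPreDuBois 3 := by
  intro i hi p hp
  obtain ⟨n, rfl⟩ : ∃ n, i = n + 1 := ⟨i - 1, by omega⟩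
  have h := vanish_low p hp n
  have e : (fun {α β : Finset NN} (h : α ⊆ β) => fM p (rs h)) =
      fun {α β : Finset NN} (h : α ⊆ β) => formMap p (rs h) := by
    funext α β h
    exact (formMap_eq p (rs h)).symm
  rw [e] at h
  exact h

theorem HH_five : ¬ HH.DuBoisVanishes 5 1 := by
  have h := nonvanish
  have e : (fun {α β : Finset NN} (h : α ⊆ β) => fM 5 (rs h)) =
      fun {α β : Finset NN} (h : α ⊆ β) => formMap 5 (rs h) := by
    funext α β h
    exact (formMap_eq 5 (rs h)).symm
  rw [e] at h
  exact h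

end Pool.Agent.H907R3
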