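import Pool.Agent.H907R3.Ident2

set_option autoImplicit false

namespace Pool.Agent.H907R3

open KaehlerDifferential

section Abstract

lemma er_img {n : ℕ} (k : Fin n → Fin 6) : er (img (fun a => (some (k a) : NN))) = img k := by
  ext j
  simp only [mem_er, img, Finset.mem_image, Finset.mem_univ, true_and, Option.some.injEq]

lemma none_notMem_img {n : ℕ} (k : Fin n → Fin 6) : none ∉ img (fun a => (some (k a) : NN)) := by
  simp [img]

lemma exists_some {n : ℕ} (k : Fin n → NN) (h : none ∉ img k) :
    (fun a => (some ((k a).getD 0) : NN)) = k := by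
  funext a
  cases hk : k a with
  | none =>
    exfalso
    apply h
    rw [← hk]
    exact mem_img k a
  | some j => rfl

variable (M : Finset NN → Type) [∀ α, AddCommGroup (M α)]
  (φ : ∀ {α β : Finset NN}, α ⊆ β → M α →+ M β)

lemma coboundary_add {n : ℕ} (c c' : ∀ k : Fin n → NN, M (img k)) :
    coboundary M φ (c + c') = coboundary M φ c + coboundary M φ c' := by
  funext k
  simp only [coboundary, Pi.add_apply, map_add, smul_add, Finset.sum_add_distrib]

/-- the vanishing of the cohomology of a cubical diagram, reduced to a diagram of subgroups -/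
theorem vanish_abstract
    (φ_comp : ∀ {α β γ : Finset NN} (h₁ : α ⊆ β) (h₂ : β ⊆ γ) (m : M α),
      φ h₂ (φ h₁ m) = φ (h₁.trans h₂) m)
    (φ_id : ∀ {α : Finset NN} (h : α ⊆ α) (m : M α), φ h m = m)
    (ι : ∀ {α β : Finset NN}, er β ⊆ er α → none ∈ β → M β →+ M α)
    (hι : ∀ {α β γ : Finset NN} (h : er β ⊆ er α) (hb : none ∈ β) (h₁ : α ⊆ γ) (h₂ : β ⊆ γ),
      ∀ m, φ h₁ (ι h hb m) = φ h₂ m)
    {F : Type} [AddCommGroup F] (J : ∀ α, M α →+ F)
    (hJ : ∀ {α β : Finset NN} (h : α ⊆ β), none ∉ β → ∀ m, J β (φ h m) = J α m)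
    (hinj : ∀ α, none ∉ α → α.Nonempty → Function.Injective (J α))
    (W : Finset (Fin 6) → AddSubgroup F)
    (h1 : ∀ {α β : Finset NN} (h : α ⊆ β), none ∉ α → none ∈ β → er β = er α →
      ∀ m, φ h m = 0 → J α m ∈ W (er α))
    (h2 : ∀ α, none ∉ α → α.Nonempty → ∀ w ∈ W (er α), ∃ m, J α m = w ∧
      ∀ (β : Finset NN) (h : α ⊆ β), none ∈ β → φ h m = 0)
    (n : ℕ) (hW : HV W (n + 1)) : CohomologyVanishes M φ (n + 1) := by
  intro c hc
  have hers : ∀ {m : ℕ} (k : Fin m → NN), er (img (Fin.cons none k : Fin (m + 1) → NN)) ⊆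
      er (img k) := by
    intro m k
    rw [img_cons, er_insert]
  have hnone : ∀ {m : ℕ} (k : Fin m → NN), none ∈ img (Fin.cons none k : Fin (m + 1) → NN) := by
    intro m k
    rw [img_cons]
    exact Finset.mem_insert_self _ _
  have hsub : ∀ {m : ℕ} (k : Fin m → NN), img k ⊆ img (Fin.cons none k : Fin (m + 1) → NN) := by
    intro m k
    rw [img_cons]
    exact Finset.subset_insert _ _
  have congr_c : ∀ {n : ℕ} (c : ∀ k : Fin n → NN, M (img k)) (k k' : Fin n → NN) (β : Finset NN)
      (_ : k = k') (h : img k ⊆ β) (h' : img k' ⊆ β), φ h (c k) = φ h' (c k') := by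
    intro n c k k' β e h h'
    subst e
    rfl
  have congr_J : ∀ {n : ℕ} (c : ∀ k : Fin n → NN, M (img k)) (k k' : Fin n → NN)
      (_ : k = k'), J _ (c k) = J _ (c k') := by
    intro n c k k' e
    subst e
    rfl
  have hface : ∀ {m : ℕ} (k : Fin (m + 1) → NN) (a : Fin (m + 1)),
      img (Fin.cons none (k ∘ a.succAbove) : Fin (m + 1) → NN) ⊆
        img (Fin.cons none k : Fin (m + 2) → NN) := by
    intro m k a
    rw [img_cons, img_cons]
    exact Finset.insert_subset_insert _ (img_face k a)
  -- the cocycle condition at `cons none k`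
  have key : ∀ k : Fin (n + 2) → NN, φ (hsub k) (c k) = ∑ a : Fin (n + 2), (-1 : ℤ) ^ (a : ℕ) •
        φ (hface k a) (c (Fin.cons none (k ∘ a.succAbove))) := by
    intro k
    have h1 := congrFun hc (Fin.cons none k)
    simp only [coboundary, Pi.zero_apply] at h1
    rw [Fin.sum_univ_succ] at h1
    simp only [Fin.val_zero, pow_zero, one_smul] at h1
    rw [congr_c c _ _ _ (cons_face_zero none k) _ (hsub k)] at h1
    rw [add_eq_zero_iff_eq_neg] at h1
    rw [h1, ← Finset.sum_neg_distrib]
    refine Finset.sum_congr rfl fun a _ => ?_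
    rw [Fin.val_succ, pow_succ]
    rw [congr_c c _ _ _ (cons_face_succ none k a) _ (hface k a)]
    simp
  let b₁ : ∀ k : Fin (n + 1) → NN, M (img k) := fun k => ι (hers k) (hnone k) (c (Fin.cons none k))
  -- the value of the coboundary of `b₁` after restriction to an index with `none`
  have hb₁ : ∀ (k : Fin (n + 2) → NN) (γ : Finset NN) (h : img k ⊆ γ) (hγ : none ∈ γ),
      φ h (coboundary M φ b₁ k) = ∑ a : Fin (n + 2), (-1 : ℤ) ^ (a : ℕ) •
        φ (by
          rw [img_cons]
          exact Finset.insert_subset hγ ((img_face k a).trans h))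
          (c (Fin.cons none (k ∘ a.succAbove))) := by
    intro k γ h hγ
    simp only [coboundary, map_sum, map_zsmul]
    refine Finset.sum_congr rfl fun a _ => ?_
    congr 1
    rw [φ_comp]
    exact hι _ _ _ _ _
  have hnn : ∀ k : Fin (n + 2) → NN, none ∈ img k → c k = coboundary M φ b₁ k := by
    intro k hk
    have e1 := hb₁ k (img k) (Finset.Subset.refl _) hk
    rw [φ_id] at e1
    rw [e1]
    have hback : img (Fin.cons none k : Fin (n + 3) → NN) ⊆ img k := by
      rw [img_cons]
      exact Finset.insert_subset hk (Finset.Subset.refl _)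
    have e2 := congrArg (φ hback) (key k)
    rw [φ_comp, φ_id, map_sum] at e2
    rw [e2]
    refine Finset.sum_congr rfl fun a _ => ?_
    rw [map_zsmul, φ_comp]
  have hns : ∀ k : Fin (n + 2) → NN, φ (hsub k) (c k - coboundary M φ b₁ k) = 0 := by
    intro k
    rw [map_sub, key k, hb₁ k _ (hsub k) (hnone k), sub_self]
  -- the cocycle of the reduced problem
  let C : (Fin (n + 2) → Fin 6) → F := fun k =>
    J _ (c (fun a => some (k a)) - coboundary M φ b₁ (fun a => some (k a)))
  have hJd : ∀ {m : ℕ} (b : ∀ k : Fin m → NN, M (img k)) (k : Fin (m + 1) → Fin 6),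
      J _ (coboundary M φ b (fun a => some (k a))) =
        dd (fun k : Fin m → Fin 6 => J _ (b (fun a => some (k a)))) k := by
    intro m b k
    simp only [coboundary, dd, map_sum, map_zsmul]
    refine Finset.sum_congr rfl fun a _ => ?_
    rw [hJ _ (none_notMem_img k)]
    rfl
  have hC0 : dd C = 0 := by
    have e : C = (fun k : Fin (n + 2) → Fin 6 => J _ (c (fun a => some (k a)))) -
        dd (fun k : Fin (n + 1) → Fin 6 => J _ (b₁ (fun a => some (k a)))) := by
      funext k
      rw [Pi.sub_apply, ← hJd b₁ k]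
      exact map_sub _ _ _
    rw [e, dd_sub, dd_dd, sub_zero]
    funext k
    rw [← hJd c k, hc]
    simp
  have hCW : ∀ k, C k ∈ W (img k) := by
    intro k
    have h3 := h1 (hsub (fun a => (some (k a) : NN))) (none_notMem_img k) (hnone _)
      (by rw [img_cons, er_insert]) _ (hns _)
    rw [er_img] at h3
    exact h3
  obtain ⟨B, hBW, hBC⟩ := hW C hCW hC0
  -- the second part of the solution
  have hex : ∀ k : Fin (n + 1) → NN, ∃ m : M (img k),
      (none ∉ img k → J _ m = B (fun a => (k a).getD 0) ∧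
        ∀ (β : Finset NN) (h : img k ⊆ β), none ∈ β → φ h m = 0) ∧
      (none ∈ img k → m = 0) := by
    intro k
    by_cases hk : none ∈ img k
    · exact ⟨0, fun h => absurd hk h, fun _ => rfl⟩
    · obtain ⟨m, hm1, hm2⟩ := h2 (img k) hk (img_nonempty k) (B (fun a => (k a).getD 0)) (by
        have h3 := hBW (fun a => (k a).getD 0)
        rw [← er_img, exists_some k hk] at h3
        exact h3)
      exact ⟨m, fun _ => ⟨hm1, hm2⟩, fun h => absurd h hk⟩
  choose b₂ hb₂ hb₂' using hex
  refine ⟨b₁ + b₂, ?_⟩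
  rw [coboundary_add]
  funext k
  rw [Pi.add_apply]
  by_cases hk : none ∈ img k
  · rw [← hnn k hk]
    have h0 : coboundary M φ b₂ k = 0 := by
      simp only [coboundary]
      apply Finset.sum_eq_zero
      intro a _
      by_cases hka : none ∈ img (k ∘ a.succAbove)
      · rw [hb₂' _ hka, map_zero, smul_zero]
      · rw [(hb₂ _ hka).2 _ _ hk, smul_zero]
    rw [h0, add_zero]
  · have h3 : coboundary M φ b₂ k = c k - coboundary M φ b₁ k := by
      apply hinj _ hk (img_nonempty k)
      have h4 : J _ (coboundary M φ b₂ k) = dd B (fun a => (k a).getD 0) := by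
        simp only [coboundary, dd, map_sum, map_zsmul]
        refine Finset.sum_congr rfl fun a _ => ?_
        rw [hJ _ hk, (hb₂ _ (fun h => hk (img_face k a h))).1]
        rfl
      rw [h4, hBC]
      exact congr_J (c - coboundary M φ b₁) _ _ (exists_some k hk)
    rw [h3]
    abel

end Abstract

/-- the vanishing of the higher cohomology of the Du Bois complexes up to `p = 3` -/
theorem vanish_low (p : ℕ) (hp : p ≤ 3) (n : ℕ) :
    CohomologyVanishes (fun α => ⋀[AA α]^p Ω[AA α⁄ℂ]) (fun h => fM p (rs h)) (n + 1) := by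
  refine vanish_abstract _ _ ?_ ?_ (fun h hb => fM p (inc h hb)) ?_ (JJ p) ?_ ?_
    (fun I => W p I (GGp p)) ?_ ?_ n ?_
  · intro α β γ h₁ h₂ m
    rw [fM_comp, rs_rs]
  · intro α h m
    rw [rs_self, fM_id]
  · intro α β γ h hb h₁ h₂ m
    have e : (rs h₁).comp (inc h hb) = rs h₂ := by
      apply AlgHom.ext
      intro f
      apply emb_injective
      rw [AlgHom.comp_apply, emb_rs, emb_inc, emb_rs]
    rw [fM_comp, e]
  · intro α β h hb m
    exact JJ_rs p h hb m
  · intro α hα hne
    exact JJ_injective p hα hne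
  · intro α β h hα hb her m hm
    exact JJ_mem hα h hb her hm
  · intro α hα hne w hw
    obtain ⟨m, hm, rfl⟩ := W_le_KI hα hne hw
    exact ⟨m, rfl, hm⟩
  · apply HV_W
    intro d hd
    rw [mem_GGp] at hd
    omega

end Pool.Agent.H907R3
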